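import Pool.Agent.N292.EF.Div

/-!
MP_bcf514_an: consequences of Borel's theorem with small coefficients.
-/

namespace Pool.Agent.N292.EF

open Filter Topology Real Metric Set
open Pool.Agent.R876.SV

variable {r T : ℕ → ℝ}

/-- `exp δ` is a small function -/
abbrev Ng (r T : ℕ → ℝ) (δ : ℂ → ℂ) : Prop := Pool.Agent.R876.SV.Neg atTop r T δ

theorem mRe_smul (a : ℝ) (g : ℂ → ℂ) (t : ℝ) : mRe (fun z => (a : ℂ) * g z) t = |a| * mRe g t := by
  unfold mRe
  rw [← Pool.Agent.Helper160.Nev.ca_const_mul]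
  congr 1
  funext z
  rw [Complex.re_ofReal_mul, abs_mul]

theorem Ng.of_smul {a : ℝ} (ha : a ≠ 0) {g : ℂ → ℂ} (hg : Ng r T (fun z => (a : ℂ) * g z)) :
    Ng r T g := by
  have h1 : Tendsto (fun n => |a|⁻¹ * (mRe (fun z => (a : ℂ) * g z) (r n) / T n)) atTop (𝓝 0) := by
    have := Tendsto.const_mul (|a|⁻¹) hg
    rwa [mul_zero] at this
  refine h1.congr (fun n => ?_)
  rw [mRe_smul]
  have : |a| ≠ 0 := abs_ne_zero.2 ha
  field_simp

theorem Ng.smul (a : ℝ) {g : ℂ → ℂ} (hg : Ng r T g) : Ng r T (fun z => (a : ℂ) * g z) := by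
  have h1 : Tendsto (fun n => |a| * (mRe g (r n) / T n)) atTop (𝓝 0) := by
    have := Tendsto.const_mul (|a|) hg
    rwa [mul_zero] at this
  refine h1.congr (fun n => ?_)
  rw [mRe_smul]
  ring

theorem mRe_add_le {g k : ℂ → ℂ} (hg : Continuous g) (hk : Continuous k) (t : ℝ) :
    mRe (fun z => g z + k z) t ≤ mRe g t + mRe k t := by
  unfold mRe
  have i1 : CircleIntegrable (fun z => |(g z).re|) 0 t :=
    SMaux.ci ((Complex.continuous_re.comp hg).abs) t
  have i2 : CircleIntegrable (fun z => |(k z).re|) 0 t :=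
    SMaux.ci ((Complex.continuous_re.comp hk).abs) t
  rw [← circleAverage_fun_add i1 i2]
  apply circleAverage_mono
  · exact SMaux.ci ((Complex.continuous_re.comp (hg.add hk)).abs) t
  · exact i1.add i2
  · intro z _
    simp only [Complex.add_re]
    exact abs_add_le _ _

theorem Ng.add (h : Rad r T) {g k : ℂ → ℂ} (hg : Continuous g) (hk : Continuous k)
    (h1 : Ng r T g) (h2 : Ng r T k) : Ng r T (fun z => g z + k z) := by
  have h3 := Tendsto.add h1 h2
  rw [add_zero] at h3
  refine squeeze_zero (fun n => ?_) (fun n => ?_) h3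
  · exact div_nonneg (SMaux.mRe_nonneg _ _) (h.Tpos n).le
  · rw [← add_div]
    have := h.Tpos n
    gcongr
    exact mRe_add_le hg hk _

theorem Ng.sub (h : Rad r T) {g k : ℂ → ℂ} (hg : Continuous g) (hk : Continuous k)
    (h1 : Ng r T g) (h2 : Ng r T k) : Ng r T (fun z => g z - k z) := by
  have h3 := Ng.smul (-1) h2
  have h4 := Ng.add h hg (by fun_prop) h1 h3
  refine h4.congr (fun n => ?_)
  congr 2
  funext z
  push_cast
  ring

theorem Ng.const (h : Rad r T) (a : ℂ) : Ng r T (fun _ => a) := by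
  have : (fun n => mRe (fun _ : ℂ => a) (r n) / T n) = fun n => |a.re| / T n := by
    funext n
    unfold mRe
    rw [circleAverage_const]
  unfold Ng Pool.Agent.R876.SV.Neg
  rw [this]
  exact tend_const_div h _

/-- A function with identically vanishing derivative is `Ng`. -/
theorem deriv_ne_of_not_ng (h : Rad r T) {δ : ℂ → ℂ} (hδ : Differentiable ℂ δ)
    (hn : ¬ Ng r T δ) : ∃ z, deriv δ z ≠ 0 := by
  by_contra hc
  push Not at hc
  apply hn
  have : δ = fun _ => δ 0 := by
    funext z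
    exact is_const_of_deriv_eq_zero hδ hc z 0
  rw [this]
  exact Ng.const h _

theorem SB.exp_of_ng (h : Rad r T) {δ : ℂ → ℂ} (hδ : Differentiable ℂ δ)
    (hE : Bd r T (fun z => Complex.exp (δ z))) (hd : SB r T (_root_.deriv δ)) (hn : Ng r T δ) :
    SB r T (fun z => Complex.exp (δ z)) :=
  ⟨hE, (SM atTop r T h.scale).2.2.2.2 δ hδ hd.2 hn⟩

/-- Borel's theorem for the powers of one exponential. -/
theorem bwpoly (h : Rad r T) {δ : ℂ → ℂ} (hδ : Differentiable ℂ δ) (hd : SB r T (deriv δ))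
    (hn : ¬ Ng r T δ) (m : ℕ) (c : ℕ → ℂ → ℂ) (hc : ∀ k < m, SB r T (c k))
    (hrel : ∀ z, ∑ k ∈ Finset.range m, c k z * Complex.exp (k * δ z) = 0) :
    ∀ k < m, ∀ z, c k z = 0 := by
  classical
  intro k hk z
  by_contra hne
  set s : Finset ℕ := (Finset.range m).filter (fun k => ∃ z, c k z ≠ 0) with hs
  have hks : k ∈ s := Finset.mem_filter.2 ⟨Finset.mem_range.2 hk, z, hne⟩
  have hsum : ∀ z, ∑ k ∈ s, c k z * Complex.exp ((fun (k : ℕ) (z : ℂ) => (k : ℂ) * δ z) k z) = 0 := by
    intro w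
    rw [← hrel w]
    apply Finset.sum_subset (Finset.filter_subset _ _)
    intro i hi hi'
    have : c i w = 0 := by
      by_contra hcon
      exact hi' (Finset.mem_filter.2 ⟨hi, w, hcon⟩)
    rw [this, zero_mul]
  obtain ⟨i, hi, j, hj, hij, hneg⟩ := BW JE atTop r T h.scale s c
    (fun (k : ℕ) (z : ℂ) => (k : ℂ) * δ z) ⟨k, hks⟩
    (fun i hi => (hc i (Finset.mem_range.1 (Finset.mem_filter.1 hi).1)).2)
    (fun i hi => (Finset.mem_filter.1 hi).2)
    (fun i _ => (differentiable_const _).mul hδ)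
    (fun i _ => by
      have h1 := (SB.mul h (SB.const h (i : ℂ)) hd).2
      have h2 : deriv (fun z => (i : ℂ) * δ z) = fun z => (i : ℂ) * deriv δ z := by
        funext z
        rw [deriv_const_mul _ (hδ z)]
      rw [h2]
      exact h1) hsum
  apply hn
  have ha : ((i : ℝ) - (j : ℝ)) ≠ 0 := by
    intro h0
    apply hij
    exact_mod_cast sub_eq_zero.1 h0
  apply Ng.of_smul ha
  refine Tendsto.congr (fun n => ?_) hneg
  congr 2
  funext z
  push_cast
  ring

/-- `c₀ + c₁ exp δ = 0` with small coefficients is impossible unless `c₀ = c₁ = 0`. -/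
theorem bw_two (h : Rad r T) {δ : ℂ → ℂ} (hδ : Differentiable ℂ δ) (hd : SB r T (deriv δ))
    (hn : ¬ Ng r T δ) {a b : ℂ → ℂ} (ha : SB r T a) (hb : SB r T b)
    (hrel : ∀ z, a z + b z * Complex.exp (δ z) = 0) : (∀ z, a z = 0) ∧ ∀ z, b z = 0 := by
  have key := bwpoly h hδ hd hn 2 (fun k => if k = 0 then a else b) (by
    intro k hk
    interval_cases k
    · simpa using ha
    · simpa using hb) (by
    intro z
    rw [Finset.sum_range_succ, Finset.sum_range_succ, Finset.sum_range_zero]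
    have := hrel z
    simpa using this)
  exact ⟨fun z => by simpa using key 0 (by norm_num) z, fun z => by simpa using key 1 (by norm_num) z⟩

/-- three powers -/
theorem bw_three (h : Rad r T) {δ : ℂ → ℂ} (hδ : Differentiable ℂ δ) (hd : SB r T (deriv δ))
    (hn : ¬ Ng r T δ) {a b c : ℂ → ℂ} (ha : SB r T a) (hb : SB r T b) (hc : SB r T c)
    (hrel : ∀ z, a z + b z * Complex.exp (δ z) + c z * Complex.exp (δ z) ^ 2 = 0) :
    (∀ z, a z = 0) ∧ (∀ z, b z = 0) ∧ ∀ z, c z = 0 := by
  have key := bwpoly h hδ hd hn 3 (fun k => if k = 0 then a else if k = 1 then b else c) (by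
    intro k hk
    interval_cases k
    · simpa using ha
    · simpa using hb
    · simpa using hc) (by
    intro z
    rw [Finset.sum_range_succ, Finset.sum_range_succ, Finset.sum_range_succ,
      Finset.sum_range_zero]
    have := hrel z
    rw [← Complex.exp_nat_mul] at this
    simpa using this)
  exact ⟨fun z => by simpa using key 0 (by norm_num) z, fun z => by simpa using key 1 (by norm_num) z,
    fun z => by simpa using key 2 (by norm_num) z⟩

theorem mul_eq_zero_ent {F G : ℂ → ℂ} (hF : Differentiable ℂ F) (hG : Differentiable ℂ G)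
    (hF0 : ∃ z, F z ≠ 0) (h : ∀ z, F z * G z = 0) (z : ℂ) : G z = 0 := by
  by_contra hne
  obtain ⟨w, hw⟩ := mul_ne_exists hF hG hF0 ⟨z, hne⟩
  exact hw (h w)

/-- resid for one function, in multiplied form -/
theorem resid_one (h : Rad r T) {X φ : ℂ → ℂ} (hX : Bd r T X) (h0 : ∃ z, X z ≠ 0)
    (hφ : SB r T φ) (hv : ∀ z, X z = 0 → φ z = 0) :
    ∃ P : ℂ → ℂ, SB r T P ∧ ∀ z, P z * X z = φ z * deriv X z := by
  obtain ⟨P, hP, hPe⟩ := resid h (Finset.univ : Finset Unit) (fun _ => X) (fun _ => 1)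
    (fun _ _ => hX) (fun _ _ => h0) hφ (by
      intro z
      by_cases hz : X z = 0
      · left; exact hv z hz
      · right
        simp [(ord_eq_zero_iff hX.1 h0 z).2 hz])
  refine ⟨P, hP, ?_⟩
  have hXd := hX.1
  apply eq_of_eventually (F := fun z => P z * X z) (G := fun z => φ z * deriv X z)
    (hP.diff.continuous.mul hXd.continuous)
    (hφ.diff.continuous.mul (SMaux.entire_deriv hXd).continuous)
  intro z
  filter_upwards [ent_ne_nhdsNE hXd h0 z] with w hw
  rw [hPe w (fun _ _ => hw)]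
  simp only [Finset.univ_unique, Finset.sum_singleton, one_mul]
  field_simp

/-- level sets of exponentials that are not small are not thin -/
theorem not_thin_level (h : Rad r T) {δ : ℂ → ℂ} (hδ : Differentiable ℂ δ)
    (hE : Bd r T (fun z => Complex.exp (δ z))) (hd : SB r T (deriv δ)) (hn : ¬ Ng r T δ)
    {ζ : ℂ} (hζ : ζ ≠ 0) : ¬ Thin r T {z | Complex.exp (δ z) = ζ} := by
  rintro ⟨φ, hφ, hφ0, hφv⟩
  have hX : Bd r T (fun z => Complex.exp (δ z) - ζ) := Bd.sub h hE (Bd.const h ζ)
  obtain ⟨w, hw⟩ := deriv_ne_of_not_ng h hδ hn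
  have hder : ∀ z, deriv (fun z => Complex.exp (δ z) - ζ) z = deriv δ z * Complex.exp (δ z) := by
    intro z
    rw [deriv_sub_const]
    rw [((hδ z).hasDerivAt.cexp).deriv]
    ring
  have h0 : ∃ z, Complex.exp (δ z) - ζ ≠ 0 := by
    by_contra hc
    push Not at hc
    have e : (fun z => Complex.exp (δ z) - ζ) = fun _ => 0 := funext hc
    have h1 := hder w
    rw [e, deriv_const] at h1
    exact mul_ne_zero hw (Complex.exp_ne_zero _) h1.symm
  obtain ⟨P, hP, hPe⟩ := resid_one h hX h0 hφ (by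
    intro z hz
    exact hφv z (sub_eq_zero.1 hz))
  have h1 := bw_two h hδ hd hn (a := fun z => (-ζ) * P z) (b := fun z => P z - φ z * deriv δ z)
    (SB.mul h (SB.const h _) hP) (SB.sub h hP (SB.mul h hφ hd)) (by
      intro z
      have := hPe z
      rw [hder z] at this
      linear_combination this)
  have h2 : ∀ z, P z = 0 := by
    intro z
    have := h1.1 z
    have h3 : (-ζ) * P z = 0 := this
    exact (mul_eq_zero.1 h3).resolve_left (neg_ne_zero.2 hζ)
  obtain ⟨v, hv⟩ := mul_ne_exists hφ.diff hd.diff hφ0 ⟨w, hw⟩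
  apply hv
  have := h1.2 v
  simp only [h2 v, zero_sub, neg_eq_zero] at this
  exact this

end Pool.Agent.N292.EF
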