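import Pool.Agent.N292.EF.Small

/-!
MP_bcf514_an: logarithmic derivatives multiplied by small functions that kill the poles.
-/

namespace Pool.Agent.N292.EF

open Filter Topology Real Metric Set
open Pool.Agent.R876.SV

variable {r T : ℕ → ℝ}

/-- gluing: a function which is locally analytic off the centre comes from an entire function -/
theorem entire_of_local (Ψ : ℂ → ℂ)
    (hloc : ∀ z, ∃ Θ : ℂ → ℂ, AnalyticAt ℂ Θ z ∧ Ψ =ᶠ[𝓝[≠] z] Θ) :
    ∃ P : ℂ → ℂ, Differentiable ℂ P ∧ (∀ z, P =ᶠ[𝓝[≠] z] Ψ) ∧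
      ∀ z, ContinuousAt Ψ z → P z = Ψ z := by
  have hmero : MeromorphicOn Ψ univ := by
    intro z _
    obtain ⟨Θ, h1, h2⟩ := hloc z
    exact h1.meromorphicAt.congr h2.symm
  have hord : ∀ z, 0 ≤ meromorphicOrderAt Ψ z := by
    intro z
    obtain ⟨Θ, h1, h2⟩ := hloc z
    rw [meromorphicOrderAt_congr h2]
    exact h1.meromorphicOrderAt_nonneg
  have hNF : MeromorphicNFOn (toMeromorphicNFOn Ψ univ) univ := meromorphicNFOn_toMeromorphicNFOn _ _
  have han : ∀ z, AnalyticAt ℂ (toMeromorphicNFOn Ψ univ) z := by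
    intro z
    apply (hNF (mem_univ z)).meromorphicOrderAt_nonneg_iff_analyticAt.1
    rw [meromorphicOrderAt_toMeromorphicNFOn hmero (mem_univ z)]
    exact hord z
  have heq : ∀ z, toMeromorphicNFOn Ψ univ =ᶠ[𝓝[≠] z] Ψ := fun z =>
    hmero.toMeromorphicNFOn_eq_self_on_nhdsNE (mem_univ z)
  refine ⟨toMeromorphicNFOn Ψ univ, fun z => (han z).differentiableAt, heq, ?_⟩
  intro z hz
  have h1 : Tendsto (toMeromorphicNFOn Ψ univ) (𝓝[≠] z) (𝓝 (toMeromorphicNFOn Ψ univ z)) :=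
    (han z).continuousAt.tendsto.mono_left nhdsWithin_le_nhds
  have h2 : Tendsto Ψ (𝓝[≠] z) (𝓝 (Ψ z)) := hz.tendsto.mono_left nhdsWithin_le_nhds
  exact tendsto_nhds_unique (h1.congr' (heq z)) h2

theorem aord_ne_top {X : ℂ → ℂ} (hX : Differentiable ℂ X) (h0 : ∃ z, X z ≠ 0) (z : ℂ) :
    analyticOrderAt X z ≠ ⊤ := by
  intro htop
  rw [analyticOrderAt_eq_top] at htop
  obtain ⟨w, hw⟩ := h0
  apply hw
  have h1 : AnalyticOnNhd ℂ X Set.univ := fun z _ => hX.analyticAt z
  have h2 := h1.eqOn_zero_of_preconnected_of_eventuallyEq_zero isPreconnected_univ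
    (Set.mem_univ z) htop
  exact h2 (Set.mem_univ w)

/-- order of vanishing -/
noncomputable def ord (X : ℂ → ℂ) (z : ℂ) : ℕ := analyticOrderNatAt X z

theorem ord_local {X : ℂ → ℂ} (hX : Differentiable ℂ X) (h0 : ∃ z, X z ≠ 0) (z : ℂ) :
    ∃ g : ℂ → ℂ, AnalyticAt ℂ g z ∧ g z ≠ 0 ∧
      ∀ᶠ w in 𝓝 z, X w = (w - z) ^ ord X z * g w := by
  obtain ⟨g, h1, h2, h3⟩ := ((hX.analyticAt z).analyticOrderAt_ne_top).1 (aord_ne_top hX h0 z)
  exact ⟨g, h1, h2, h3⟩

theorem ord_eq_of {X g : ℂ → ℂ} {z : ℂ} {m : ℕ} (hX : Differentiable ℂ X) (h0 : ∃ z, X z ≠ 0)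
    (hg : AnalyticAt ℂ g z) (hgz : g z ≠ 0) (h : ∀ᶠ w in 𝓝 z, X w = (w - z) ^ m * g w) :
    ord X z = m :=
  ((hX.analyticAt z).analyticOrderNatAt_eq_iff (aord_ne_top hX h0 z)).2 ⟨g, hg, hgz, h⟩

theorem ord_eq_zero_iff {X : ℂ → ℂ} (hX : Differentiable ℂ X) (h0 : ∃ z, X z ≠ 0) (z : ℂ) :
    ord X z = 0 ↔ X z ≠ 0 := by
  constructor
  · intro h
    obtain ⟨g, h1, h2, h3⟩ := ord_local hX h0 z
    have := h3.self_of_nhds
    rw [h] at this
    rw [this]
    simpa using h2
  · intro h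
    apply ord_eq_of hX h0 (hX.analyticAt z) h
    simp

theorem ord_mul {X Y : ℂ → ℂ} (hX : Differentiable ℂ X) (h0 : ∃ z, X z ≠ 0)
    (hY : Differentiable ℂ Y) (k0 : ∃ z, Y z ≠ 0) (z : ℂ) :
    ord (fun z => X z * Y z) z = ord X z + ord Y z :=
  analyticOrderNatAt_mul (hX.analyticAt z) (hY.analyticAt z) (aord_ne_top hX h0 z)
    (aord_ne_top hY k0 z)

theorem logDeriv_local {X : ℂ → ℂ} (hX : Differentiable ℂ X) (h0 : ∃ z, X z ≠ 0) (z : ℂ) :
    ∃ g : ℂ → ℂ, AnalyticAt ℂ g z ∧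
      ∀ᶠ w in 𝓝[≠] z, deriv X w / X w = (ord X z : ℂ) / (w - z) + g w := by
  obtain ⟨k, h1, h2, h3⟩ := ord_local hX h0 z
  refine ⟨fun w => deriv k w / k w, h1.deriv.div h1 h2, ?_⟩
  have h4 : ∀ᶠ w in 𝓝 z, deriv X w = deriv (fun w => (w - z) ^ ord X z * k w) w := by
    filter_upwards [h3.eventually_nhds] with w hw
    exact Filter.EventuallyEq.deriv_eq hw
  have h5 : ∀ᶠ w in 𝓝 z, AnalyticAt ℂ k w := h1.eventually_analyticAt
  have h6 : ∀ᶠ w in 𝓝 z, k w ≠ 0 := h1.continuousAt.eventually_ne h2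
  rw [eventually_nhdsWithin_iff]
  filter_upwards [h3, h4, h5, h6] with w w3 w4 w5 w6 hw
  have hwz : w - z ≠ 0 := sub_ne_zero.2 hw
  have h7 : HasDerivAt (fun w => (w - z) ^ ord X z * k w)
      (((ord X z : ℂ) * (w - z) ^ (ord X z - 1) * 1) * k w + (w - z) ^ ord X z * deriv k w) w := by
    apply HasDerivAt.mul _ w5.differentiableAt.hasDerivAt
    exact ((hasDerivAt_id w).sub_const z).pow _
  rw [w4, h7.deriv, w3]
  rcases Nat.eq_zero_or_pos (ord X z) with h8 | h8
  · rw [h8]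
    simp
  · obtain ⟨m, hm⟩ := Nat.exists_eq_succ_of_ne_zero h8.ne'
    rw [hm]
    simp only [Nat.succ_eq_add_one, Nat.add_sub_cancel, pow_succ]
    field_simp

theorem eq_of_eventually {F G : ℂ → ℂ} (hF : Continuous F) (hG : Continuous G)
    (h : ∀ z, ∀ᶠ w in 𝓝[≠] z, F w = G w) (z : ℂ) : F z = G z := by
  have h1 : Tendsto F (𝓝[≠] z) (𝓝 (F z)) := hF.continuousAt.tendsto.mono_left nhdsWithin_le_nhds
  have h2 : Tendsto G (𝓝[≠] z) (𝓝 (G z)) := hG.continuousAt.tendsto.mono_left nhdsWithin_le_nhds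
  exact tendsto_nhds_unique (h1.congr' (h z)) h2

theorem codiscrete_of_nhdsNE {p : ℂ → Prop} (h : ∀ z, ∀ᶠ w in 𝓝[≠] z, p w) :
    ∀ᶠ w in codiscrete ℂ, p w := by
  apply mem_codiscreteWithin_iff_forall_mem_nhdsNE.2
  intro x _
  filter_upwards [h x] with w hw
  left
  exact hw

theorem posLog_sum_bound {ι : Type*} (s : Finset ι) (c L : ι → ℂ) :
    Real.posLog ‖∑ i ∈ s, c i * L i‖ ≤
      (Real.log s.card + ∑ i ∈ s, Real.posLog ‖c i‖) + ∑ i ∈ s, Real.posLog ‖L i‖ := by
  refine (posLog_norm_sum_le s _).trans ?_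
  have : ∑ i ∈ s, Real.posLog ‖c i * L i‖ ≤ ∑ i ∈ s, (Real.posLog ‖c i‖ + Real.posLog ‖L i‖) := by
    apply Finset.sum_le_sum
    intro i _
    rw [norm_mul]
    exact posLog_mul
  rw [Finset.sum_add_distrib] at this
  linarith

/-- A linear combination of logarithmic derivatives, multiplied by a small function which
vanishes at all points where the combination has a pole, is small. -/
theorem resid (h : Rad r T) {ι : Type*} (s : Finset ι) (X : ι → ℂ → ℂ) (c : ι → ℂ)
    (hX : ∀ i ∈ s, Bd r T (X i)) (h0 : ∀ i ∈ s, ∃ z, X i z ≠ 0) {φ : ℂ → ℂ} (hφ : SB r T φ)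
    (hres : ∀ z, φ z = 0 ∨ ∑ i ∈ s, c i * (ord (X i) z : ℂ) = 0) :
    ∃ P : ℂ → ℂ, SB r T P ∧ ∀ z, (∀ i ∈ s, X i z ≠ 0) →
      P z = φ z * ∑ i ∈ s, c i * (deriv (X i) z / X i z) := by
  classical
  set Ψ : ℂ → ℂ := fun z => φ z * ∑ i ∈ s, c i * (deriv (X i) z / X i z) with hΨ
  have hloc : ∀ z, ∃ Θ : ℂ → ℂ, AnalyticAt ℂ Θ z ∧ Ψ =ᶠ[𝓝[≠] z] Θ := by
    intro z
    have h1 : ∀ i ∈ s, ∃ g : ℂ → ℂ, AnalyticAt ℂ g z ∧
      ∀ᶠ w in 𝓝[≠] z, deriv (X i) w / X i w = (ord (X i) z : ℂ) / (w - z) + g w :=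
      fun i hi => logDeriv_local (hX i hi).1 (h0 i hi) z
    choose! g hg1 hg2 using h1
    have hφan : AnalyticAt ℂ φ z := hφ.diff.analyticAt z
    have hgsum : AnalyticAt ℂ (fun w => ∑ i ∈ s, c i * g i w) z := by
      apply Finset.analyticAt_fun_sum
      intro i hi
      exact analyticAt_const.mul (hg1 i hi)
    have hall : ∀ᶠ w in 𝓝[≠] z, ∀ i ∈ s, deriv (X i) w / X i w =
        (ord (X i) z : ℂ) / (w - z) + g i w := by
      rw [eventually_all_finset]
      exact hg2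
    rcases hres z with hz | hz
    · -- φ vanishes at z
      have h2 : ∃ φ1 : ℂ → ℂ, AnalyticAt ℂ φ1 z ∧ ∀ᶠ w in 𝓝 z, φ w = (w - z) * φ1 w := by
        have h3 : (1 : ℕ) ≤ analyticOrderAt φ z := by
          rw [ENat.natCast_one, Order.one_le_iff_ne_zero]
          exact hφan.analyticOrderAt_ne_zero.2 hz
        obtain ⟨φ1, a1, a2⟩ := (natCast_le_analyticOrderAt hφan).1 h3
        refine ⟨φ1, a1, ?_⟩
        filter_upwards [a2] with w hw
        rw [hw]
        simp
      obtain ⟨φ1, a1, a2⟩ := h2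
      refine ⟨fun w => φ1 w * (∑ i ∈ s, c i * (ord (X i) z : ℂ)) + φ w * ∑ i ∈ s, c i * g i w,
        (a1.mul analyticAt_const).add (hφan.mul hgsum), ?_⟩
      have a3 : ∀ᶠ w in 𝓝[≠] z, φ w = (w - z) * φ1 w := a2.filter_mono nhdsWithin_le_nhds
      filter_upwards [hall, a3, self_mem_nhdsWithin] with w w1 w2 w3
      have hwz : w - z ≠ 0 := sub_ne_zero.2 w3
      simp only [hΨ]
      have e1 : ∑ i ∈ s, c i * (deriv (X i) w / X i w) =
          (∑ i ∈ s, c i * (ord (X i) z : ℂ)) / (w - z) + ∑ i ∈ s, c i * g i w := by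
        rw [Finset.sum_div, ← Finset.sum_add_distrib]
        apply Finset.sum_congr rfl
        intro i hi
        rw [w1 i hi]
        ring
      rw [e1, mul_add]
      congr 1
      rw [w2]
      field_simp
    · refine ⟨fun w => φ w * ∑ i ∈ s, c i * g i w, hφan.mul hgsum, ?_⟩
      filter_upwards [hall, self_mem_nhdsWithin] with w w1 w3
      have hwz : w - z ≠ 0 := sub_ne_zero.2 w3
      simp only [hΨ]
      have e1 : ∑ i ∈ s, c i * (deriv (X i) w / X i w) =
          (∑ i ∈ s, c i * (ord (X i) z : ℂ)) / (w - z) + ∑ i ∈ s, c i * g i w := by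
        rw [Finset.sum_div, ← Finset.sum_add_distrib]
        apply Finset.sum_congr rfl
        intro i hi
        rw [w1 i hi]
        ring
      rw [e1, hz, zero_div, zero_add]
  obtain ⟨P, hPd, hPΨ, hPc⟩ := entire_of_local Ψ hloc
  refine ⟨P, ?_, ?_⟩
  swap
  · intro z hz
    apply hPc
    apply ContinuousAt.mul hφ.diff.continuous.continuousAt
    apply tendsto_finsetSum
    intro i hi
    exact (continuousAt_const.mul
      ((SMaux.entire_deriv (hX i hi).1).continuous.continuousAt.div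
        (hX i hi).1.continuous.continuousAt (hz i hi))).tendsto
  -- growth
  have hne : ∀ z, ∀ᶠ w in 𝓝[≠] z, ∀ i ∈ s, X i w ≠ 0 := by
    intro z
    rw [eventually_all_finset]
    intro i hi
    exact ent_ne_nhdsNE (hX i hi).1 (h0 i hi) z
  have hprodB : ∀ t : Finset ι, t ⊆ s → Bd r T (fun z => ∏ i ∈ t, X i z) := by
    intro t
    induction t using Finset.induction_on with
    | empty => intro _; simpa using Bd.const h 1
    | insert a t ha ih =>
      intro hts
      have h1 := ih (fun i hi => hts (Finset.mem_insert_of_mem hi))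
      have h2 := Bd.mul h (hX a (hts (Finset.mem_insert_self _ _))) h1
      simpa [Finset.prod_insert ha] using h2
  have hsumB : ∀ t : Finset ι, t ⊆ s → Bd r T (fun z => ∑ i ∈ t, c i * (deriv (X i) z *
      ∏ k ∈ s.erase i, X k z)) := by
    intro t
    induction t using Finset.induction_on with
    | empty => intro _; simpa using Bd.const h 0
    | insert a t ha ih =>
      intro hts
      have h1 := ih (fun i hi => hts (Finset.mem_insert_of_mem hi))
      have h2 := Bd.mul h (Bd.const h (c a)) (Bd.mul h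
        ((hX a (hts (Finset.mem_insert_self _ _))).deriv h) (hprodB _ (Finset.erase_subset a s)))
      have h3 := Bd.add h h2 h1
      simpa [Finset.sum_insert ha] using h3
  have hNB := Bd.mul h hφ.1 (hsumB s (Finset.Subset.refl _))
  have hDB := hprodB s (Finset.Subset.refl _)
  have hD0 : ∃ z, ∏ i ∈ s, X i z ≠ 0 := by
    obtain ⟨w, hw⟩ := (hne 0).exists
    exact ⟨w, Finset.prod_ne_zero_iff.2 hw⟩
  have hPB : Bd r T P := by
    apply Bd.quot h hPd hNB hDB hD0
    apply eq_of_eventually (hPd.continuous.mul hDB.1.continuous) hNB.1.continuous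
    intro z
    filter_upwards [hne z, hPΨ z] with w hw hw2
    rw [Pi.mul_apply, hw2]
    simp only [hΨ]
    rw [mul_assoc, Finset.sum_mul]
    congr 1
    apply Finset.sum_congr rfl
    intro i hi
    rw [← Finset.mul_prod_erase s _ hi]
    have := hw i hi
    field_simp
  apply SB.of_bd h hPB
  -- smallness
  have hbound : ∀ n, mLog P (r n) ≤ (Real.log s.card + ∑ i ∈ s, Real.posLog ‖c i‖) +
      (mLog φ (r n) + ∑ i ∈ s, mLog (logDeriv (X i)) (r n)) := by
    intro n
    have h1 := avg_le (P := P) (ent_mero hPd) (Finset.insertNone s)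
      (fun o : Option ι => o.elim φ (fun i => logDeriv (X i))) (by
        intro o ho
        cases o with
        | none => exact ent_mero hφ.diff
        | some i =>
          exact mero_logDeriv (hX i (Finset.some_mem_insertNone.1 ho)).1)
      (Real.log s.card + ∑ i ∈ s, Real.posLog ‖c i‖) (t := r n) (by linarith [h.one_le n]) (by
        apply codiscrete_of_nhdsNE
        intro z
        filter_upwards [hne z, hPΨ z] with w hw hw2
        rw [Finset.sum_insertNone, hw2]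
        simp only [hΨ, Option.elim_none, Option.elim_some]
        rw [norm_mul]
        have h3 := posLog_mul (x := ‖φ w‖) (y := ‖∑ i ∈ s, c i * (deriv (X i) w / X i w)‖)
        have h4 := posLog_sum_bound s c (fun i => logDeriv (X i) w)
        simp only [logDeriv_apply] at h4 ⊢
        linarith)
    rw [Finset.sum_insertNone] at h1
    exact h1
  have h5 : Tendsto (fun n => ∑ i ∈ s, mLog (logDeriv (X i)) (r n) / T n) atTop (𝓝 0) := by
    have := tendsto_finsetSum s (fun i hi => logDeriv_small h (hX i hi) (h0 i hi))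
    simpa using this
  have h6 := (tend_const_div h (Real.log s.card + ∑ i ∈ s, Real.posLog ‖c i‖)).add
    (hφ.tend.add h5)
  rw [add_zero, add_zero] at h6
  refine squeeze_zero (fun n => ?_) (fun n => ?_) h6
  · exact div_nonneg (SMaux.mLog_nonneg _ _) (h.Tpos n).le
  · rw [← Finset.sum_div, ← add_div, ← add_div]
    have := h.Tpos n
    gcongr
    exact hbound n

end Pool.Agent.N292.EF
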