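import Pool.Agent.N292.EF.Radii
import Pool.Agent.H187R3.Picard

/-!
MP_bcf514_an: the elementary part of the proof, and the end of it.
-/

namespace Pool.Agent.N292.EF

open Filter Topology Real Metric Set
open Pool.Agent.R876.SV

/-- an entire function with constant exponential has derivative zero -/
theorem deriv_of_exp_const {γ : ℂ → ℂ} (hγ : Differentiable ℂ γ) {c : ℂ}
    (h : ∀ z, Complex.exp (γ z) = c) (z : ℂ) : deriv γ z = 0 := by
  have h1 : HasDerivAt (fun z => Complex.exp (γ z)) (Complex.exp (γ z) * deriv γ z) z :=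
    (hγ z).hasDerivAt.cexp
  have h2 : (fun z => Complex.exp (γ z)) = fun _ => c := funext h
  rw [h2] at h1
  have h3 := h1.unique (hasDerivAt_const z c)
  exact (mul_eq_zero.mp h3).resolve_left (Complex.exp_ne_zero _)

/-- an entire function solving `y' = a y` -/
theorem eq_exp_of_deriv {y : ℂ → ℂ} (hy : Differentiable ℂ y) {a : ℂ}
    (h : ∀ z, deriv y z = a * y z) (z : ℂ) : y z = y 0 * Complex.exp (a * z) := by
  have hd : ∀ w, HasDerivAt (fun w => y w * Complex.exp (-(a * w))) 0 w := by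
    intro w
    have h1 := (hy w).hasDerivAt.mul (((hasDerivAt_id w).const_mul a).neg.cexp)
    refine h1.congr_deriv ?_
    rw [h w]
    simp only [id]
    ring
  have h2 : y z * Complex.exp (-(a * z)) = y 0 * Complex.exp (-(a * 0)) :=
    is_const_of_deriv_eq_zero (fun w => (hd w).differentiableAt) (fun w => (hd w).deriv) z 0
  rw [mul_zero, neg_zero, Complex.exp_zero, mul_one, Complex.exp_neg] at h2
  rw [← h2, mul_assoc, inv_mul_cancel₀ (Complex.exp_ne_zero _), mul_one]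

/-- the primitive of an exponential -/
theorem eq_of_deriv_exp {y : ℂ → ℂ} (hy : Differentiable ℂ y) {a c : ℂ} (ha : a ≠ 0)
    (h : ∀ z, deriv y z = c * Complex.exp (a * z)) :
    ∃ b : ℂ, ∀ z, y z = c / a * Complex.exp (a * z) + b := by
  refine ⟨y 0 - c / a, ?_⟩
  have hd : ∀ w, HasDerivAt (fun w => y w - c / a * Complex.exp (a * w)) 0 w := by
    intro w
    have h1 := (hy w).hasDerivAt.sub
      ((((hasDerivAt_id w).const_mul a).cexp).const_mul (c / a))
    refine h1.congr_deriv ?_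
    rw [h w]
    simp only [id]
    field_simp
    ring
  intro z
  have h2 : y z - c / a * Complex.exp (a * z) = y 0 - c / a * Complex.exp (a * 0) :=
    is_const_of_deriv_eq_zero (fun w => (hd w).differentiableAt) (fun w => (hd w).deriv) z 0
  rw [mul_zero, Complex.exp_zero, mul_one] at h2
  linear_combination h2

/-- the unit at one level is nonconstant if the unit one level below is -/
theorem unit_succ {F G F₁ G₁ γ γ₁ : ℂ → ℂ} (hG : Differentiable ℂ G) (hF : Differentiable ℂ F)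
    (hG' : ∀ z, deriv G z = G₁ z) (hF' : ∀ z, deriv F z = F₁ z)
    (hG0 : ∃ z, G z ≠ 0)
    (hγ : Differentiable ℂ γ) (hγ₁ : Differentiable ℂ γ₁)
    (h : ∀ z, F z = Complex.exp (γ z) * G z) (h₁ : ∀ z, F₁ z = Complex.exp (γ₁ z) * G₁ z)
    (hu : ∃ z, deriv γ z ≠ 0) : ∃ z, deriv γ₁ z ≠ 0 := by
  by_contra hcon
  push Not at hcon
  have hc : ∀ z, γ₁ z = γ₁ 0 := fun z => is_const_of_deriv_eq_zero hγ₁ hcon z 0
  set c : ℂ := Complex.exp (γ₁ 0) with hcdef
  have hc0 : c ≠ 0 := Complex.exp_ne_zero _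
  have hκ : ∀ z, F z - c * G z = F 0 - c * G 0 := by
    intro z
    apply is_const_of_deriv_eq_zero (f := fun z => F z - c * G z) (hF.sub (hG.const_mul c))
    intro w
    rw [deriv_fun_sub (hF w) ((hG w).const_mul c), deriv_const_mul _ (hG w), hF', hG', h₁, hc w]
    ring
  have hprod : ∀ z, G z * (Complex.exp (γ z) - c) = F 0 - c * G 0 := by
    intro z
    rw [← hκ z, h z]
    ring
  obtain ⟨w, hw⟩ := hu
  by_cases hk : F 0 - c * G 0 = 0
  · have h2 : ∀ z, Complex.exp (γ z) - c = 0 :=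
      mul_eq_zero_ent hG (hγ.cexp.sub_const c) hG0 (fun z => by rw [hprod z, hk])
    exact hw (deriv_of_exp_const hγ (c := c) (fun z => sub_eq_zero.1 (h2 z)) w)
  · have h2 : ∀ z, Complex.exp (γ z) ≠ c := by
      intro z hz
      apply hk
      rw [← hprod z, hz, sub_self, mul_zero]
    have h3 := fun z => Pool.Agent.H187R3.little_picard hγ.cexp hc0 h2
      (fun z => Complex.exp_ne_zero _) z 0
    exact hw (deriv_of_exp_const hγ h3 w)

/-- the degenerate case: three consecutive units with the same logarithmic derivative -/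
theorem const_case {f g G₁ G₂ G₃ F₁ F₂ F₃ γ₀ γ₁ γ₂ γ₃ : ℂ → ℂ}
    (hf : Differentiable ℂ f) (hg : Differentiable ℂ g)
    (hG₁ : Differentiable ℂ G₁) (hG₂ : Differentiable ℂ G₂)
    (hg' : ∀ z, deriv g z = G₁ z) (hG₁' : ∀ z, deriv G₁ z = G₂ z)
    (hG₂' : ∀ z, deriv G₂ z = G₃ z)
    (hf' : ∀ z, deriv f z = F₁ z) (hF₁' : ∀ z, deriv F₁ z = F₂ z)
    (hF₂' : ∀ z, deriv F₂ z = F₃ z)
    (hG₁0 : ∃ z, G₁ z ≠ 0) (hG₂0 : ∃ z, G₂ z ≠ 0)
    (hγ₁ : Differentiable ℂ γ₁) (hγ₂ : Differentiable ℂ γ₂) (hγ₃ : Differentiable ℂ γ₃)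
    (h₀ : ∀ z, f z = Complex.exp (γ₀ z) * g z)
    (h₁ : ∀ z, F₁ z = Complex.exp (γ₁ z) * G₁ z)
    (h₂ : ∀ z, F₂ z = Complex.exp (γ₂ z) * G₂ z)
    (h₃ : ∀ z, F₃ z = Complex.exp (γ₃ z) * G₃ z)
    (hu : ∃ z, deriv γ₁ z ≠ 0)
    (h12 : ∀ z, deriv γ₂ z = deriv γ₁ z) (h23 : ∀ z, deriv γ₃ z = deriv γ₂ z) :
    (∃ a b c d : ℂ, ∀ z : ℂ,
            f z = Complex.exp (a * z + b) ∧ g z = Complex.exp (c * z + d)) ∨
        (∃ a b A B : ℂ, b ≠ 0 ∧ ∀ z : ℂ,
            f z = A * (Complex.exp (a * z) - b) ∧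
            g z = B * (Complex.exp (-(a * z)) - b⁻¹)) := by
  have hud : Differentiable ℂ (deriv γ₁) := SMaux.entire_deriv hγ₁
  obtain ⟨α, hα0, hα⟩ := exp_const_of_deriv hγ₂ hγ₁ h12
  obtain ⟨β, hβ0, hβ⟩ := exp_const_of_deriv hγ₃ hγ₂ h23
  have r1 : ∀ z, (α - 1) * G₂ z = deriv γ₁ z * G₁ z := by
    intro z
    have h := (((hγ₁ z).hasDerivAt.cexp).mul (hG₁ z).hasDerivAt).deriv
    have h' : F₁ = (fun z => Complex.exp (γ₁ z)) * G₁ := funext h₁
    rw [← h', hF₁', h₂, hα, hG₁'] at h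
    have he : Complex.exp (γ₁ z) ≠ 0 := Complex.exp_ne_zero _
    apply mul_left_cancel₀ he
    linear_combination h
  have r2 : ∀ z, (β - 1) * G₃ z = deriv γ₁ z * G₂ z := by
    intro z
    have h := (((hγ₂ z).hasDerivAt.cexp).mul (hG₂ z).hasDerivAt).deriv
    have h' : F₂ = (fun z => Complex.exp (γ₂ z)) * G₂ := funext h₂
    rw [← h', hF₂', h₃, hβ, hG₂', h12] at h
    have he : Complex.exp (γ₂ z) ≠ 0 := Complex.exp_ne_zero _
    apply mul_left_cancel₀ he
    linear_combination h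
  obtain ⟨w0, hw0⟩ := hu
  have hα1 : α - 1 ≠ 0 := by
    intro h
    apply hw0
    refine mul_eq_zero_ent hG₁ hud hG₁0 (fun z => ?_) w0
    have := r1 z
    rw [h, zero_mul] at this
    rw [mul_comm, ← this]
  have hβ1 : β - 1 ≠ 0 := by
    intro h
    apply hw0
    refine mul_eq_zero_ent hG₂ hud hG₂0 (fun z => ?_) w0
    have := r2 z
    rw [h, zero_mul] at this
    rw [mul_comm, ← this]
  -- the equation `u' = c u ^ 2`
  set a₁ : ℂ := (α - 1)⁻¹ with ha₁
  set b₁ : ℂ := (β - 1)⁻¹ with hb₁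
  have s1 : ∀ z, G₂ z = a₁ * (deriv γ₁ z * G₁ z) := by
    intro z
    rw [← r1 z, ha₁, ← mul_assoc, inv_mul_cancel₀ hα1, one_mul]
  have s2 : ∀ z, G₃ z = b₁ * (deriv γ₁ z * G₂ z) := by
    intro z
    rw [← r2 z, hb₁, ← mul_assoc, inv_mul_cancel₀ hβ1, one_mul]
  have ha₁0 : a₁ ≠ 0 := inv_ne_zero hα1
  have s3 : ∀ z, deriv (deriv γ₁) z = (b₁ - a₁) * deriv γ₁ z ^ 2 := by
    intro z
    have h4 : ∀ z, G₁ z * (deriv (deriv γ₁) z - (b₁ - a₁) * deriv γ₁ z ^ 2) = 0 := by
      intro z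
      have h := ((((hud z).hasDerivAt).mul (hG₁ z).hasDerivAt).const_mul a₁).deriv
      have h' : G₂ = fun z => a₁ * (deriv γ₁ * G₁) z := funext s1
      rw [← h', hG₂', s2, hG₁', s1] at h
      apply mul_left_cancel₀ ha₁0
      linear_combination -h
    have hd2 : Differentiable ℂ (fun z => deriv (deriv γ₁) z - (b₁ - a₁) * deriv γ₁ z ^ 2) :=
      (SMaux.entire_deriv hud).sub ((hud.pow 2).const_mul _)
    have := mul_eq_zero_ent hG₁ hd2 hG₁0 h4 z
    linear_combination this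
  have hcu : ∀ z, deriv (deriv γ₁) z = 0 := by
    -- `w = exp (- c γ₁)` is linear
    set c : ℂ := b₁ - a₁ with hc
    have d1 : ∀ z, HasDerivAt (fun z => Complex.exp (-(c * γ₁ z)))
        (Complex.exp (-(c * γ₁ z)) * -(c * deriv γ₁ z)) z := fun z =>
      (((hγ₁ z).hasDerivAt.const_mul c).neg).cexp
    have d2 : ∀ z, HasDerivAt (fun z => Complex.exp (-(c * γ₁ z)) * -(c * deriv γ₁ z)) 0 z := by
      intro z
      refine ((d1 z).mul (((hud z).hasDerivAt.const_mul c).neg)).congr_deriv ?_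
      simp only [Pi.neg_apply]
      rw [s3 z]
      ring
    set K : ℂ := Complex.exp (-(c * γ₁ 0)) * -(c * deriv γ₁ 0) with hK
    have d3 : ∀ z, Complex.exp (-(c * γ₁ z)) * -(c * deriv γ₁ z) = K := fun z =>
      is_const_of_deriv_eq_zero (fun w => (d2 w).differentiableAt) (fun w => (d2 w).deriv) z 0
    have d4 : ∀ z, Complex.exp (-(c * γ₁ z)) - K * z = Complex.exp (-(c * γ₁ 0)) - K * 0 := by
      have d5 : ∀ z, HasDerivAt (fun z => Complex.exp (-(c * γ₁ z)) - K * z) 0 z := by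
        intro z
        refine ((d1 z).sub ((hasDerivAt_id z).const_mul K)).congr_deriv ?_
        rw [d3 z]
        ring
      intro z
      exact is_const_of_deriv_eq_zero (fun w => (d5 w).differentiableAt) (fun w => (d5 w).deriv) z 0
    have hK0 : K = 0 := by
      by_contra hne
      have := d4 (-(Complex.exp (-(c * γ₁ 0))) / K)
      rw [mul_zero, sub_zero, mul_div_cancel₀ _ hne] at this
      have h6 : Complex.exp (-(c * γ₁ (-(Complex.exp (-(c * γ₁ 0))) / K))) = 0 := by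
        linear_combination this
      exact Complex.exp_ne_zero _ h6
    intro z
    have h5 := d3 z
    rw [hK0] at h5
    have h6 : c * deriv γ₁ z = 0 :=
      neg_eq_zero.1 ((mul_eq_zero.1 h5).resolve_left (Complex.exp_ne_zero _))
    rw [s3 z, pow_two, ← mul_assoc, h6, zero_mul]
  have hp : ∀ z, deriv γ₁ z = deriv γ₁ 0 := fun z => is_const_of_deriv_eq_zero hud hcu z 0
  set p : ℂ := deriv γ₁ 0 with hpdef
  have hp0 : p ≠ 0 := by rw [← hp w0]; exact hw0
  set lam : ℂ := a₁ * p with hlam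
  have hlam0 : lam ≠ 0 := mul_ne_zero ha₁0 hp0
  have hmu : p + lam = α * lam := by
    rw [hlam, ha₁]
    field_simp
    ring
  have hmu0 : p + lam ≠ 0 := by rw [hmu]; exact mul_ne_zero hα0 hlam0
  have e1 : ∀ z, G₁ z = G₁ 0 * Complex.exp (lam * z) := by
    apply eq_exp_of_deriv hG₁
    intro z
    rw [hG₁', s1, hp z]
    ring
  have hG10 : G₁ 0 ≠ 0 := by
    intro h
    obtain ⟨w, hw⟩ := hG₁0
    apply hw
    rw [e1, h, zero_mul]
  have e2 : ∀ z, γ₁ z = γ₁ 0 + p * z := by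
    intro z
    have d5 : ∀ z, HasDerivAt (fun z => γ₁ z - p * z) 0 z := by
      intro z
      refine ((hγ₁ z).hasDerivAt.sub ((hasDerivAt_id z).const_mul p)).congr_deriv ?_
      rw [hp z]
      ring
    have h7 : γ₁ z - p * z = γ₁ 0 - p * 0 := is_const_of_deriv_eq_zero
      (fun w => (d5 w).differentiableAt) (fun w => (d5 w).deriv) z 0
    linear_combination h7
  set c₂ : ℂ := Complex.exp (γ₁ 0) * G₁ 0 with hc₂
  have hc20 : c₂ ≠ 0 := mul_ne_zero (Complex.exp_ne_zero _) hG10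
  have e3 : ∀ z, F₁ z = c₂ * Complex.exp ((p + lam) * z) := by
    intro z
    rw [h₁, e1, e2, add_mul, Complex.exp_add, Complex.exp_add]
    ring
  obtain ⟨b₂, hb₂⟩ := eq_of_deriv_exp hg hlam0 (fun z => (hg' z).trans (e1 z))
  obtain ⟨b₃, hb₃⟩ := eq_of_deriv_exp hf hmu0 (fun z => (hf' z).trans (e3 z))
  set μ : ℂ := p + lam with hμ
  have hA0 : c₂ / μ ≠ 0 := div_ne_zero hc20 hmu0
  have hB0 : G₁ 0 / lam ≠ 0 := div_ne_zero hG10 hlam0
  have hz : ∀ z, f z = 0 ↔ g z = 0 := by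
    intro z
    rw [h₀ z, mul_eq_zero]
    exact ⟨fun h => h.resolve_left (Complex.exp_ne_zero _), Or.inr⟩
  -- solving exponentials
  have solve : ∀ {A m b : ℂ}, A ≠ 0 → m ≠ 0 → b ≠ 0 →
      ∃ z, A * Complex.exp (m * z) + b = 0 := by
    intro A m b hA hm hb
    refine ⟨Complex.log (-b / A) / m, ?_⟩
    rw [mul_div_cancel₀ _ hm, Complex.exp_log (div_ne_zero (neg_ne_zero.2 hb) hA),
      mul_div_cancel₀ _ hA]
    ring
  by_cases hb20 : b₂ = 0
  · left
    have hb30 : b₃ = 0 := by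
      by_contra hne
      obtain ⟨z, hz1⟩ := solve hA0 hmu0 hne
      rw [← hb₃ z, hz z, hb₂ z, hb20, add_zero] at hz1
      exact mul_ne_zero hB0 (Complex.exp_ne_zero _) hz1
    refine ⟨μ, Complex.log (c₂ / μ), lam, Complex.log (G₁ 0 / lam), fun z => ⟨?_, ?_⟩⟩
    · rw [hb₃, hb30, add_zero, Complex.exp_add, Complex.exp_log hA0, mul_comm]
    · rw [hb₂, hb20, add_zero, Complex.exp_add, Complex.exp_log hB0, mul_comm]
  · right
    obtain ⟨z0, hz0⟩ := solve hB0 hlam0 hb20
    have hgz : g z0 = 0 := by rw [hb₂, hz0]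
    have hfz : f z0 = 0 := (hz z0).2 hgz
    -- periodicity
    have per : ∀ {A m b n : ℂ} {y : ℂ → ℂ}, A ≠ 0 → m ≠ 0 → (∀ z, y z = A * Complex.exp (m * z) + b)
        → y z0 = 0 → y (z0 + 2 * π * Complex.I / n) = 0 →
        Complex.exp (m * (2 * π * Complex.I / n)) = 1 := by
      intro A m b n y hA hm hy h1 h2
      rw [hy] at h1 h2
      rw [mul_add, Complex.exp_add] at h2
      have h3 : A * Complex.exp (m * z0) * (Complex.exp (m * (2 * π * Complex.I / n)) - 1) = 0 := by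
        linear_combination h2 - h1
      have h4 := (mul_eq_zero.1 h3).resolve_left (mul_ne_zero hA (Complex.exp_ne_zero _))
      linear_combination h4
    have perz : ∀ {A m b : ℂ} {y : ℂ → ℂ}, m ≠ 0 → (∀ z, y z = A * Complex.exp (m * z) + b)
        → y z0 = 0 → y (z0 + 2 * π * Complex.I / m) = 0 := by
      intro A m b y hm hy h1
      rw [hy] at h1 ⊢
      rw [mul_add, Complex.exp_add, mul_div_cancel₀ _ hm, Complex.exp_two_pi_mul_I, mul_one, h1]
    have p1 : Complex.exp (μ * (2 * π * Complex.I / lam)) = 1 :=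
      per hA0 hmu0 hb₃ hfz ((hz _).2 (perz hlam0 hb₂ hgz))
    have p2 : Complex.exp (lam * (2 * π * Complex.I / μ)) = 1 :=
      per hB0 hlam0 hb₂ hgz ((hz _).1 (perz hmu0 hb₃ hfz))
    obtain ⟨m, hm⟩ := Complex.exp_eq_one_iff.1 p1
    obtain ⟨n, hn⟩ := Complex.exp_eq_one_iff.1 p2
    have hpi : (2 * π * Complex.I : ℂ) ≠ 0 := Complex.two_pi_I_ne_zero
    have hm' : μ = m * lam := by
      field_simp at hm
      linear_combination hm
    have hn' : lam = n * μ := by
      field_simp at hn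
      linear_combination hn
    have hmn : (m : ℂ) * n = 1 := by
      apply mul_right_cancel₀ hlam0
      rw [one_mul]
      calc (m : ℂ) * n * lam = n * (m * lam) := by ring
        _ = n * μ := by rw [← hm']
        _ = lam := hn'.symm
    have hmn' : m * n = 1 := by exact_mod_cast hmn
    have hmm : m = 1 ∨ m = -1 := Int.isUnit_iff.1 (IsUnit.of_mul_eq_one n hmn')
    have hm1 : m = -1 := by
      refine hmm.resolve_left (fun h => hp0 ?_)
      rw [h] at hm'
      push_cast at hm'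
      rw [hμ] at hm'
      linear_combination hm'
    rw [hm1] at hm'
    push_cast at hm'
    have hml : lam = -μ := by linear_combination hm'
    refine ⟨μ, Complex.exp (μ * z0), c₂ / μ, G₁ 0 / lam, Complex.exp_ne_zero _, fun z => ⟨?_, ?_⟩⟩
    · rw [hb₃] at hfz ⊢
      linear_combination hfz
    · rw [hb₂] at hgz ⊢
      rw [← Complex.exp_neg]
      have q1 : -(μ * z) = lam * z := by rw [hml]; ring
      have q2 : -(μ * z0) = lam * z0 := by rw [hml]; ring
      rw [q1, q2]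
      linear_combination hgz

end Pool.Agent.N292.EF
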