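import Pool.Agent.N292.EF.Ldl

/-!
MP_bcf514_an: radii, functions of controlled growth, small functions.
-/

namespace Pool.Agent.N292.EF

open Filter Topology Real Metric Set
open Pool.Agent.R876.SV

/-- good radii and normalisations -/
structure Rad (r T : ℕ → ℝ) : Prop where
  one_le : ∀ n, 1 ≤ r n
  oneT : ∀ n, 1 ≤ T n
  top : Tendsto T atTop atTop
  logr : Tendsto (fun n => Real.log (r n) / T n) atTop (𝓝 0)

/-- slightly larger radii -/
noncomputable def rho (r T : ℕ → ℝ) (j n : ℕ) : ℝ := r n + (1 / 2) ^ j / T n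

/-- entire functions of controlled growth -/
def Bd (r T : ℕ → ℝ) (X : ℂ → ℂ) : Prop :=
  Differentiable ℂ X ∧ ∃ j q : ℕ, ∃ C : ℝ, 0 ≤ C ∧ ∀ n, mLog X (rho r T j n) ≤ C * T n ^ q

/-- small functions -/
def SB (r T : ℕ → ℝ) (X : ℂ → ℂ) : Prop := Bd r T X ∧ Sm atTop r T X

variable {r T : ℕ → ℝ}

theorem Rad.scale (h : Rad r T) : Scale atTop r T :=
  ⟨h.one_le, fun n => lt_of_lt_of_le one_pos (h.oneT n), h.top⟩

theorem Rad.Tpos (h : Rad r T) (n : ℕ) : 0 < T n := lt_of_lt_of_le one_pos (h.oneT n)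

theorem rho_gt (h : Rad r T) (j n : ℕ) : r n < rho r T j n := by
  have := h.Tpos n
  unfold rho
  have : 0 < (1 / 2 : ℝ) ^ j / T n := by positivity
  linarith

theorem rho_one (h : Rad r T) (j n : ℕ) : 1 ≤ rho r T j n := (h.one_le n).trans (rho_gt h j n).le

theorem rho_pos (h : Rad r T) (j n : ℕ) : 0 < rho r T j n := lt_of_lt_of_le one_pos (rho_one h j n)

theorem rho_le (h : Rad r T) (j n : ℕ) : rho r T j n ≤ 2 * r n := by
  have h1 := h.Tpos n
  have h2 := h.oneT n
  have h3 := h.one_le n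
  unfold rho
  have h4 : (1 / 2 : ℝ) ^ j / T n ≤ 1 := by
    rw [div_le_one h1]
    exact (pow_le_one₀ (by norm_num) (by norm_num)).trans h2
  linarith

theorem rho_anti (h : Rad r T) {j k : ℕ} (hjk : j ≤ k) (n : ℕ) : rho r T k n ≤ rho r T j n := by
  have h1 := h.Tpos n
  unfold rho
  have h2 : (1 / 2 : ℝ) ^ k ≤ (1 / 2) ^ j := pow_le_pow_of_le_one (by norm_num) (by norm_num) hjk
  gcongr

theorem Bd.large (h : Rad r T) {X : ℂ → ℂ} (hX : Bd r T X) :
    ∃ j q : ℕ, ∃ C : ℝ, 0 ≤ C ∧ ∀ k, j ≤ k → ∀ n, mLog X (rho r T k n) ≤ C * T n ^ q := by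
  obtain ⟨hd, j, q, C, hC, hb⟩ := hX
  exact ⟨j, q, C, hC, fun k hk n => (mLog_mono hd (rho_pos h k n) (rho_anti h hk n)).trans (hb n)⟩

theorem pow_le_pow_T (h : Rad r T) {p q : ℕ} (hpq : p ≤ q) (n : ℕ) : T n ^ p ≤ T n ^ q :=
  pow_le_pow_right₀ (h.oneT n) hpq

/-- Two functions of controlled growth, with common parameters. -/
theorem Bd.common (h : Rad r T) {X Y : ℂ → ℂ} (hX : Bd r T X) (hY : Bd r T Y) :
    ∃ j q : ℕ, ∃ C : ℝ, 0 ≤ C ∧ ∀ k, j ≤ k → ∀ n, mLog X (rho r T k n) ≤ C * T n ^ q ∧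
      mLog Y (rho r T k n) ≤ C * T n ^ q := by
  obtain ⟨j, q, C, hC, hb⟩ := hX.large h
  obtain ⟨j', q', C', hC', hb'⟩ := hY.large h
  refine ⟨max j j', max q q', max C C', le_trans hC (le_max_left _ _), ?_⟩
  intro k hk n
  have hT := h.Tpos n
  constructor
  · refine (hb k ((le_max_left _ _).trans hk) n).trans ?_
    exact mul_le_mul (le_max_left _ _) (pow_le_pow_T h (le_max_left _ _) n) (by positivity)
      (le_trans hC (le_max_left _ _))
  · refine (hb' k ((le_max_right _ _).trans hk) n).trans ?_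
    exact mul_le_mul (le_max_right _ _) (pow_le_pow_T h (le_max_right _ _) n) (by positivity)
      (le_trans hC (le_max_left _ _))

theorem Bd.of_le (h : Rad r T) {Z : ℂ → ℂ} (hZ : Differentiable ℂ Z) (j q : ℕ) (A B : ℝ)
    (hA : 0 ≤ A) (hB : 0 ≤ B)
    (hb : ∀ n, mLog Z (rho r T j n) ≤ A * T n ^ q + B) : Bd r T Z := by
  refine ⟨hZ, j, q, A + B, by positivity, fun n => (hb n).trans ?_⟩
  have h1 : (1:ℝ) ≤ T n ^ q := one_le_pow₀ (h.oneT n)
  nlinarith

theorem Bd.const (h : Rad r T) (a : ℂ) : Bd r T (fun _ => a) := by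
  apply Bd.of_le h (differentiable_const a) 0 0 0 (Real.posLog ‖a‖) le_rfl Real.posLog_nonneg
  intro n
  rw [SMaux.mLog_const]
  simp

theorem Bd.add (h : Rad r T) {X Y : ℂ → ℂ} (hX : Bd r T X) (hY : Bd r T Y) :
    Bd r T (fun z => X z + Y z) := by
  obtain ⟨j, q, C, hC, hb⟩ := Bd.common h hX hY
  apply Bd.of_le h (Z := fun z => X z + Y z) (hX.1.add hY.1) j q (2 * C) (Real.log 2)
    (by positivity) (Real.log_nonneg (by norm_num))
  intro n
  have h1 := SMaux.mLog_add_le hX.1.continuous hY.1.continuous (rho r T j n)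
  obtain ⟨h2, h3⟩ := hb j le_rfl n
  linarith

theorem Bd.mul (h : Rad r T) {X Y : ℂ → ℂ} (hX : Bd r T X) (hY : Bd r T Y) :
    Bd r T (fun z => X z * Y z) := by
  obtain ⟨j, q, C, hC, hb⟩ := Bd.common h hX hY
  apply Bd.of_le h (Z := fun z => X z * Y z) (hX.1.mul hY.1) j q (2 * C) 0 (by positivity) le_rfl
  intro n
  have h1 := SMaux.mLog_mul_le hX.1.continuous hY.1.continuous (rho r T j n)
  obtain ⟨h2, h3⟩ := hb j le_rfl n
  linarith

theorem log_le_CT (h : Rad r T) : ∃ C : ℝ, 0 ≤ C ∧ ∀ n, Real.log (r n) ≤ C * T n := by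
  obtain ⟨C, hC⟩ := h.logr.bddAbove_range
  refine ⟨max C 0, le_max_right _ _, fun n => ?_⟩
  have h1 : Real.log (r n) / T n ≤ C := hC ⟨n, rfl⟩
  have h2 := h.Tpos n
  rw [div_le_iff₀ h2] at h1
  refine h1.trans ?_
  exact mul_le_mul_of_nonneg_right (le_max_left _ _) h2.le

theorem mLog_id {t : ℝ} (ht : 1 ≤ t) : mLog (fun z => z) t = Real.log t := by
  unfold mLog
  have h1 : circleAverage (fun z : ℂ => Real.posLog ‖z‖) 0 t =
      circleAverage (fun _ : ℂ => Real.log t) 0 t := by
    apply circleAverage_congr_sphere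
    intro z hz
    rw [mem_sphere_zero_iff_norm, abs_of_nonneg (by linarith)] at hz
    simp only [hz]
    rw [posLog_eq_log]
    rw [abs_of_nonneg (by linarith)]
    exact ht
  rw [h1, circleAverage_const]

theorem Bd.id (h : Rad r T) : Bd r T (fun z => z) := by
  obtain ⟨C, hC, hb⟩ := log_le_CT h
  apply Bd.of_le h (Z := fun z => z) differentiable_id 0 1 C (Real.log 2) hC (Real.log_nonneg (by norm_num))
  intro n
  rw [mLog_id (rho_one h 0 n), pow_one]
  have h1 : Real.log (rho r T 0 n) ≤ Real.log (2 * r n) :=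
    Real.log_le_log (rho_pos h 0 n) (rho_le h 0 n)
  rw [Real.log_mul (by norm_num) (by linarith [h.one_le n])] at h1
  have := hb n
  linarith

/-- general comparison of proximity functions -/
theorem avg_le {P : ℂ → ℂ} (hP : Meromorphic P) {ι : Type*} (s : Finset ι) (Q : ι → ℂ → ℂ)
    (hQ : ∀ i ∈ s, Meromorphic (Q i)) (c : ℝ) {t : ℝ} (ht : t ≠ 0)
    (hle : ∀ᶠ z in codiscrete ℂ, Real.posLog ‖P z‖ ≤ c + ∑ i ∈ s, Real.posLog ‖Q i z‖) :
    mLog P t ≤ c + ∑ i ∈ s, mLog (Q i) t := by
  have hI : CircleIntegrable (fun z => Real.posLog ‖P z‖) 0 t := by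
    apply MeromorphicOn.circleIntegrable_posLog_norm
    intro z _
    exact hP z
  have hJ : ∀ i ∈ s, CircleIntegrable (fun z => Real.posLog ‖Q i z‖) 0 t := by
    intro i hi
    apply MeromorphicOn.circleIntegrable_posLog_norm
    intro z _
    exact hQ i hi z
  have hJ' : CircleIntegrable (fun z => ∑ i ∈ s, Real.posLog ‖Q i z‖) 0 t :=
    CircleIntegrable.fun_sum _ hJ
  have h1 : mLog P t ≤ circleAverage (fun z => c + ∑ i ∈ s, Real.posLog ‖Q i z‖) 0 t := by
    apply Pool.Agent.Helper160.Nev.circleAverage_mono_codiscrete ht hI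
      ((circleIntegrable_const _ _ _).add hJ')
    exact hle.filter_mono (codiscreteWithin_mono (subset_univ _))
  refine h1.trans (le_of_eq ?_)
  rw [circleAverage_fun_add (circleIntegrable_const _ _ _) hJ', circleAverage_const,
    circleAverage_fun_sum hJ]
  rfl

theorem ent_ne_codiscrete {X : ℂ → ℂ} (hX : Differentiable ℂ X) (h0 : ∃ z, X z ≠ 0) :
    ∀ᶠ z in codiscrete ℂ, X z ≠ 0 := by
  have hca : AnalyticOnNhd ℂ X Set.univ := fun z _ => hX.analyticAt z
  rcases hca.eqOn_zero_or_eventually_ne_zero_of_preconnected isPreconnected_univ with h1 | h1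
  · obtain ⟨z, hz⟩ := h0
    exact absurd (h1 (Set.mem_univ z)) hz
  · exact h1

theorem mero_logDeriv {X : ℂ → ℂ} (hX : Differentiable ℂ X) : Meromorphic (logDeriv X) := by
  intro z
  exact ((hX.analyticAt z).deriv.meromorphicAt).div (hX.analyticAt z).meromorphicAt

/-- bound of the proximity function of a logarithmic derivative -/
theorem ldl_bound (h : Rad r T) {X : ℂ → ℂ} (hX : Bd r T X) (h0 : ∃ z, X z ≠ 0) :
    ∃ (j q : ℕ) (K : ℝ), 0 ≤ K ∧ (∀ n, mLog (logDeriv X) (r n) ≤
        2 * (K + Real.log (r n) + q * Real.log (T n))) ∧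
      ∀ n, mLog (logDeriv X) (rho r T j n) ≤
        2 * (K + Real.log (r n) + q * Real.log (T n)) := by
  obtain ⟨C, hC1, hC⟩ := ldl hX.1 h0
  obtain ⟨hd, j, q, B, hB, hb⟩ := hX
  set K : ℝ := Real.log C + Real.log 2 + Real.log (1 + B) + (j + 1) * Real.log 2 with hK
  have l2 : 0 < Real.log 2 := Real.log_pos (by norm_num)
  have hK0 : 0 ≤ K := by
    have h1 := Real.log_nonneg hC1
    have h2 := Real.log_nonneg (x := 1 + B) (by linarith)
    positivity
  have key : ∀ n (t δ : ℝ), 1 ≤ t → t ≤ 2 * r n → (1 / 2) ^ (j + 1) / T n ≤ δ → δ ≤ 1 →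
      t + δ ≤ rho r T j n → mLog (logDeriv X) t ≤
        2 * (K + Real.log (r n) + ((q + 1 : ℕ) : ℝ) * Real.log (T n)) := by
    intro n t δ ht ht2 hδ hδ1 htδ
    have hT := h.Tpos n
    have hT1 := h.oneT n
    have hr := h.one_le n
    have hδ0 : 0 < δ := lt_of_lt_of_le (by positivity) hδ
    have h1 := hC t δ ht hδ0 hδ1
    refine (show mLog (logDeriv X) t ≤ _ from h1).trans ?_
    apply mul_le_mul_of_nonneg_left _ (by norm_num)
    have h2 : mLog X (t + δ) ≤ B * T n ^ q :=
      (mLog_mono hd (by linarith) htδ).trans (hb n)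
    have h20 : 0 ≤ mLog X (t + δ) := SMaux.mLog_nonneg _ _
    have h3 : 1 + mLog X (t + δ) ≤ (1 + B) * T n ^ q := by
      have : (1:ℝ) ≤ T n ^ q := one_le_pow₀ hT1
      nlinarith
    have h4 : δ⁻¹ ≤ 2 ^ (j + 1) * T n := by
      have h5 := inv_anti₀ (by positivity) hδ
      refine h5.trans (le_of_eq ?_)
      rw [inv_div, one_div, inv_pow, div_inv_eq_mul]
      ring
    have h6 : C * (t * (1 + mLog X (t + δ)) / δ) ≤
        C * ((2 * r n) * ((1 + B) * T n ^ q) * (2 ^ (j + 1) * T n)) := by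
      rw [div_eq_mul_inv]
      gcongr
    refine (Real.log_le_log (by positivity) h6).trans (le_of_eq ?_)
    rw [Real.log_mul (by positivity) (by positivity), Real.log_mul (by positivity) (by positivity),
      Real.log_mul (by positivity) (by positivity), Real.log_mul (by positivity) (by positivity),
      Real.log_mul (by positivity) (by positivity), Real.log_mul (by positivity) (by positivity),
      Real.log_pow, Real.log_pow, hK]
    push_cast
    ring
  refine ⟨j + 1, q + 1, K, hK0, ?_, ?_⟩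
  · intro n
    have hT := h.Tpos n
    have hT1 := h.oneT n
    have hr := h.one_le n
    apply key n (r n) ((1 / 2) ^ (j + 1) / T n) hr (by linarith) le_rfl
    · rw [div_le_one hT]
      exact (pow_le_one₀ (by norm_num) (by norm_num)).trans hT1
    · exact rho_anti h (Nat.le_succ j) n
  · intro n
    have hT := h.Tpos n
    have hT1 := h.oneT n
    have hr := h.one_le n
    apply key n (rho r T (j + 1) n) ((1 / 2) ^ (j + 1) / T n) (rho_one h _ n) (rho_le h _ n) le_rfl
    · rw [div_le_one hT]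
      exact (pow_le_one₀ (by norm_num) (by norm_num)).trans hT1
    · unfold rho
      rw [pow_succ]
      apply le_of_eq
      ring

theorem small_seq (h : Rad r T) (K : ℝ) (q : ℕ) :
    Tendsto (fun n => (2 * (K + Real.log (r n) + q * Real.log (T n))) / T n) atTop (𝓝 0) := by
  have h1 : Tendsto (fun n => (2 * K) / T n) atTop (𝓝 0) := h.top.const_div_atTop _
  have h2 : Tendsto (fun n => 2 * (Real.log (r n) / T n)) atTop (𝓝 0) := by
    have := h.logr.const_mul 2
    rwa [mul_zero] at this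
  have h3 : Tendsto (fun n => (2 * q : ℝ) * (Real.log (T n) / T n)) atTop (𝓝 0) := by
    have h4 : Tendsto (fun x : ℝ => Real.log x / x) atTop (𝓝 0) := by
      have := Real.isLittleO_log_id_atTop
      exact this.tendsto_div_nhds_zero
    have := (h4.comp h.top).const_mul (2 * q : ℝ)
    rwa [mul_zero] at this
  have h5 := (h1.add h2).add h3
  rw [add_zero, add_zero] at h5
  refine h5.congr (fun n => ?_)
  ring

theorem poly_seq (h : Rad r T) (K : ℝ) (hK : 0 ≤ K) (q : ℕ) :
    ∃ C : ℝ, 0 ≤ C ∧ ∀ n, 2 * (K + Real.log (r n) + q * Real.log (T n)) ≤ C * T n ^ 1 := by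
  obtain ⟨C, hC, hb⟩ := log_le_CT h
  refine ⟨2 * (K + C + q), by positivity, fun n => ?_⟩
  have h1 := hb n
  have h2 := h.oneT n
  have h3 : Real.log (T n) ≤ T n := (Real.log_le_sub_one_of_pos (h.Tpos n)).trans (by linarith)
  have h4 : (q : ℝ) * Real.log (T n) ≤ q * T n := by gcongr
  have h5 : K ≤ K * T n := by nlinarith
  rw [pow_one]
  nlinarith

theorem logDeriv_small (h : Rad r T) {X : ℂ → ℂ} (hX : Bd r T X) (h0 : ∃ z, X z ≠ 0) :
    Tendsto (fun n => mLog (logDeriv X) (r n) / T n) atTop (𝓝 0) := by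
  obtain ⟨j, q, K, hK, h1, -⟩ := ldl_bound h hX h0
  refine squeeze_zero (fun n => ?_) (fun n => ?_) (small_seq h K q)
  · exact div_nonneg (SMaux.mLog_nonneg _ _) (h.Tpos n).le
  · have := h.Tpos n
    gcongr
    exact h1 n

theorem logDeriv_bd (h : Rad r T) {X : ℂ → ℂ} (hX : Bd r T X) (h0 : ∃ z, X z ≠ 0) :
    ∃ (j : ℕ) (C : ℝ), 0 ≤ C ∧ ∀ k, j ≤ k → ∀ n, mLog (logDeriv X) (rho r T k n) ≤ C * T n ^ 1 := by
  obtain ⟨hd, j, q, B, hB, hb⟩ := hX
  -- apply the bound with larger j
  obtain ⟨C, hC1, hC⟩ := ldl hd h0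
  -- for each k ≥ j + 1 use radii k and k - 1 ≥ j
  have key : ∀ n, ∀ k, j + 1 ≤ k → mLog (logDeriv X) (rho r T k n) ≤
      2 * Real.log (C * ((2 * r n) * ((1 + B) * T n ^ q) * (2 ^ (j + 1) * T n))) := by
    intro n k hk
    have hT := h.Tpos n
    have hT1 := h.oneT n
    have hr := h.one_le n
    set δ : ℝ := (1 / 2) ^ (j + 1) / T n with hδdef
    have hδ0 : 0 < δ := by positivity
    have hδ1 : δ ≤ 1 := by
      rw [hδdef, div_le_one hT]
      exact (pow_le_one₀ (by norm_num) (by norm_num)).trans hT1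
    have h1 := hC (rho r T k n) δ (rho_one h k n) hδ0 hδ1
    refine (show mLog (logDeriv X) (rho r T k n) ≤ _ from h1).trans ?_
    apply mul_le_mul_of_nonneg_left _ (by norm_num)
    have htδ : rho r T k n + δ ≤ rho r T j n := by
      have h2 := rho_anti h hk n
      have h3 : rho r T (j + 1) n + δ = rho r T j n := by
        rw [hδdef]
        unfold rho
        rw [pow_succ]
        ring
      linarith
    have h2 : mLog X (rho r T k n + δ) ≤ B * T n ^ q :=
      (mLog_mono hd (by linarith [rho_pos h k n]) htδ).trans (hb n)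
    have h20 : 0 ≤ mLog X (rho r T k n + δ) := SMaux.mLog_nonneg _ _
    have h3 : 1 + mLog X (rho r T k n + δ) ≤ (1 + B) * T n ^ q := by
      have : (1:ℝ) ≤ T n ^ q := one_le_pow₀ hT1
      nlinarith
    have h4 : δ⁻¹ ≤ 2 ^ (j + 1) * T n := by
      apply le_of_eq
      rw [hδdef, inv_div, one_div, inv_pow, div_inv_eq_mul]
      ring
    have h6 : C * (rho r T k n * (1 + mLog X (rho r T k n + δ)) / δ) ≤
        C * ((2 * r n) * ((1 + B) * T n ^ q) * (2 ^ (j + 1) * T n)) := by
      rw [div_eq_mul_inv]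
      have := rho_le h k n
      have := rho_pos h k n
      gcongr
    have := rho_pos h k n
    exact Real.log_le_log (by positivity) h6
  have l2 : 0 < Real.log 2 := Real.log_pos (by norm_num)
  set K : ℝ := Real.log C + Real.log 2 + Real.log (1 + B) + (j + 1) * Real.log 2 with hK
  have hK0 : 0 ≤ K := by
    have h1 := Real.log_nonneg hC1
    have h2 := Real.log_nonneg (x := 1 + B) (by linarith)
    positivity
  obtain ⟨C', hC', hb'⟩ := poly_seq h K hK0 (q + 1)
  refine ⟨j + 1, C', hC', fun k hk n => (key n k hk).trans ?_⟩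
  refine le_trans (le_of_eq ?_) (hb' n)
  have hT := h.Tpos n
  have hr := h.one_le n
  rw [Real.log_mul (by positivity) (by positivity), Real.log_mul (by positivity) (by positivity),
      Real.log_mul (by positivity) (by positivity), Real.log_mul (by positivity) (by positivity),
      Real.log_mul (by positivity) (by positivity), Real.log_mul (by positivity) (by positivity),
      Real.log_pow, Real.log_pow, hK]
  push_cast
  ring

theorem mLog_deriv_le {X : ℂ → ℂ} (hX : Differentiable ℂ X) (h0 : ∃ z, X z ≠ 0) {t : ℝ}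
    (ht : t ≠ 0) : mLog (deriv X) t ≤ mLog X t + mLog (logDeriv X) t := by
  have h1 := avg_le (P := deriv X) (ent_mero (SMaux.entire_deriv hX)) (Finset.univ : Finset (Fin 2))
    ![X, logDeriv X] (by
      intro i _
      fin_cases i
      · exact ent_mero hX
      · exact mero_logDeriv hX) 0 ht (by
      filter_upwards [ent_ne_codiscrete hX h0] with z hz
      rw [Fin.sum_univ_two, zero_add]
      simp only [Matrix.cons_val_zero, Matrix.cons_val_one]
      have e : deriv X z = X z * logDeriv X z := by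
        rw [logDeriv_apply]
        field_simp
      rw [e, norm_mul]
      exact posLog_mul)
  rw [Fin.sum_univ_two, zero_add] at h1
  exact h1

theorem Bd.deriv (h : Rad r T) {X : ℂ → ℂ} (hX : Bd r T X) : Bd r T (deriv X) := by
  by_cases h0 : ∃ z, X z ≠ 0
  · obtain ⟨j, C, hC, hb⟩ := logDeriv_bd h hX h0
    obtain ⟨j', q, C', hC', hb'⟩ := hX.large h
    apply Bd.of_le h (SMaux.entire_deriv hX.1) (max j j') (max 1 q) (C + C') 0 (by positivity) le_rfl
    intro n
    have h1 := mLog_deriv_le hX.1 h0 (rho_pos h (max j j') n).ne'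
    have h2 := hb _ (le_max_left j j') n
    have h3 := hb' _ (le_max_right j j') n
    have hT := h.Tpos n
    have h4 : C * T n ^ 1 ≤ C * T n ^ (max 1 q) :=
      mul_le_mul_of_nonneg_left (pow_le_pow_T h (le_max_left _ _) n) hC
    have h5 : C' * T n ^ q ≤ C' * T n ^ (max 1 q) :=
      mul_le_mul_of_nonneg_left (pow_le_pow_T h (le_max_right _ _) n) hC'
    linarith
  · push Not at h0
    have e : X = fun _ => 0 := funext h0
    have e2 : _root_.deriv X = fun _ => 0 := by
      rw [e]; simp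
    rw [e2]
    exact Bd.const h 0

theorem Bd.iter (h : Rad r T) {X : ℂ → ℂ} (hX : Bd r T X) (l : ℕ) :
    Bd r T (iteratedDeriv l X) := by
  induction l with
  | zero => rwa [iteratedDeriv_zero]
  | succ l ih =>
    rw [iteratedDeriv_succ]
    exact ih.deriv h

/-- An entire function of controlled growth whose proximity function is small is small. -/
theorem SB.of_bd (h : Rad r T) {X : ℂ → ℂ} (hX : Bd r T X)
    (hs : Tendsto (fun n => mLog X (r n) / T n) atTop (𝓝 0)) : SB r T X := by
  refine ⟨hX, hX.1, ?_⟩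
  intro l
  induction l with
  | zero => rwa [iteratedDeriv_zero]
  | succ l ih =>
    have hB := hX.iter h l
    rw [iteratedDeriv_succ]
    by_cases h0 : ∃ z, iteratedDeriv l X z ≠ 0
    · have h1 := logDeriv_small h hB h0
      have h2 := ih.add h1
      rw [add_zero] at h2
      refine squeeze_zero (fun n => ?_) (fun n => ?_) h2
      · exact div_nonneg (SMaux.mLog_nonneg _ _) (h.Tpos n).le
      · have h3 := mLog_deriv_le hB.1 h0 (by linarith [h.one_le n] : r n ≠ 0)
        rw [← add_div]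
        have := h.Tpos n
        gcongr
    · push Not at h0
      have e : iteratedDeriv l X = fun _ => 0 := funext h0
      have e2 : _root_.deriv (iteratedDeriv l X) = fun _ => 0 := by
        rw [e]; simp
      rw [e2]
      have : (fun n => mLog (fun _ : ℂ => (0:ℂ)) (r n) / T n) = fun _ => (0:ℝ) := by
        funext n
        rw [SMaux.mLog_const]
        simp
      rw [this]
      exact tendsto_const_nhds

end Pool.Agent.N292.EF
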