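import Pool.Agent.N292.EF.LCon

/-!
MP_bcf514_an: the functions `u n` are small.
-/

namespace Pool.Agent.N292.EF

open Filter Topology Real Metric Set
open Pool.Agent.R876.SV

variable {r T : ℕ → ℝ} {N : ℕ} {G F u δ : ℕ → ℂ → ℂ}

theorem dual_om {n : ℕ} {z : ℂ} (h : Om u δ n z) :
    Om (fun n z => - u n z) (fun n z => - δ n z) n z := by
  refine ⟨neg_ne_zero.2 h.1, ?_⟩
  intro h1
  apply h.2
  simp only [Complex.exp_neg] at h1
  have hE : Complex.exp (δ n z) ≠ 0 := Complex.exp_ne_zero _
  have h2 : (Complex.exp (δ n z))⁻¹ = 1 := sub_eq_zero.1 h1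
  rw [inv_eq_one] at h2
  rw [h2, sub_self]

theorem dual_L {n : ℕ} {z : ℂ} (h : Om u δ n z) :
    Lf (fun n z => - u n z) (fun n z => - δ n z) n z = Lf u δ n z + u n z := by
  have h2 := (dual_om h).2
  have h1 := h.2
  unfold Lf
  simp only [Complex.exp_neg] at h2 ⊢
  have hE : Complex.exp (δ n z) ≠ 0 := Complex.exp_ne_zero _
  field_simp
  have h3 : (1 - Complex.exp (δ n z)) ≠ 0 := by
    intro h4
    apply h1
    linear_combination -h4
  field_simp
  ring

theorem u_all (S : Sys r T N G u δ) {k : ℕ} (hk : k ≤ N) (hs : SB r T (u k)) :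
    ∀ n ≤ N, SB r T (u n) := by
  have h := S.rad
  have up : ∀ j, k + j ≤ N → SB r T (u (k + j)) := by
    intro j
    induction j with
    | zero => intro _; exact hs
    | succ j ih =>
      intro hj
      have h1 := ih (by omega)
      have h2 := SB.add h h1 (S.dsb (k + j) (by omega))
      have e : u (k + (j + 1)) = fun z => u (k + j) z + deriv (δ (k + j)) z :=
        funext (S.ustep (k + j) (by omega))
      rw [e]
      exact h2
  have down : ∀ j, j ≤ k → SB r T (u (k - j)) := by
    intro j
    induction j with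
    | zero => intro _; exact hs
    | succ j ih =>
      intro hj
      have h1 := ih (by omega)
      have h2 := SB.sub h h1 (S.dsb (k - (j + 1)) (by omega))
      have e : u (k - (j + 1)) = fun z => u (k - j) z - deriv (δ (k - (j + 1))) z := by
        funext z
        have := S.ustep (k - (j + 1)) (by omega) z
        rw [show k - (j + 1) + 1 = k - j by omega] at this
        linear_combination -this
      rw [e]
      exact h2
  intro n hn
  rcases le_total k n with h1 | h1
  · have := up (n - k) (by omega)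
    rwa [show k + (n - k) = n by omega] at this
  · have := down (k - n) (by omega)
    rwa [show k - (k - n) = n by omega] at this

/-- high multiplicities force `u` to be small -/
theorem comb_ld (S : Sys r T N G u δ) (S' : Sys r T N F (fun n z => - u n z) (fun n z => - δ n z))
    (hord : ∀ n ≤ N + 1, ∀ z, ord (F n) z = ord (G n) z) {n : ℕ} (hn : n + 5 ≤ N)
    (hD : ¬ Thin r T {z | 6 ≤ ord (G n) z}) : SB r T (u (n + 1)) := by
  have h := S.rad
  have hD' : ¬ Thin r T {z | 6 ≤ ord (F n) z} := by
    have : {z | 6 ≤ ord (F n) z} = {z | 6 ≤ ord (G n) z} := by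
      ext z
      show 6 ≤ ord (F n) z ↔ 6 ≤ ord (G n) z
      rw [hord n (by omega) z]
    rwa [this]
  obtain ⟨a, b, ha, hb, ha0, hab⟩ := S.ld hn hD
  obtain ⟨a', b', ha', hb', ha0', hab'⟩ := S'.ld hn hD'
  have dd1 := S.dsb (n + 1) (by omega)
  have dd2 := S.dsb (n + 2) (by omega)
  obtain ⟨z0, hz0⟩ := not_thin_nonempty h hD
  have hz0' : 6 ≤ ord (G n) z0 := hz0
  have hgood : ∀ z, ∀ᶠ w in 𝓝[≠] z, Om u δ (n + 1) w ∧ Om u δ (n + 2) w ∧ Om u δ (n + 3) w ∧
      Om u δ (n + 4) w := fun z =>
    (S.om_ev (by omega) z).and ((S.om_ev (by omega) z).and ((S.om_ev (by omega) z).and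
      (S.om_ev (by omega) z)))
  have hdneg : ∀ k z, deriv (fun z => - δ k z) z = - deriv (δ k) z := fun k z => deriv.fun_neg
  -- Δ is not identically zero
  have hΔ : ∃ z, deriv (δ (n + 2)) z - deriv (δ (n + 1)) z ≠ 0 := by
    by_contra hc
    push Not at hc
    have hd1 : ∃ z, deriv (δ (n + 1)) z ≠ 0 := by
      have hm1 := S.ord_add (n := n) (z := z0) 1 (by omega) (by omega)
      obtain ⟨k, hk⟩ : ∃ k, ord (G (n + 1)) z0 = k + 1 := ⟨ord (G (n + 1)) z0 - 1, by omega⟩
      exact S.dne (n := n + 1) (by omega) (S.at_zero (n := n + 1) (by omega) hk).1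
    obtain ⟨w, hw⟩ := hd1
    apply hw
    apply eq_zero_of_not_thin hD dd1
    intro z hz
    have hz' : 6 ≤ ord (G n) z := hz
    have hm1 := S.ord_add (n := n) (z := z) 1 (by omega) (by omega)
    obtain ⟨k, hk⟩ : ∃ k, ord (G (n + 1)) z = (k + 1) + 1 := ⟨ord (G (n + 1)) z - 2, by omega⟩
    have hk2 : ord (G (n + 2)) z = k + 1 := S.ord_succ (n := n + 1) (by omega) hk
    obtain ⟨-, p⟩ := S.at_zero (n := n + 1) (by omega) hk
    obtain ⟨-, p'⟩ := S.at_zero (n := n + 2) (by omega) hk2
    have s := S.ustep (n + 1) (by omega) z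
    rw [show n + 1 + 1 = n + 2 from rfl, p, p'] at s
    have e3 := hc z
    push_cast at s
    linear_combination (1 / 2 : ℂ) * ((k : ℂ) + 1) * e3 - (1 / 2 : ℂ) * s
  have hud := (S.ub (n + 1) (by omega)).1
  apply SB.quot h hud
    (N := fun z => -(a z * b' z) - a' z * b z - a z * a' z *
      ((deriv (δ (n + 2)) z + deriv (δ (n + 1)) z) * deriv (δ (n + 1)) z))
    (D := fun z => a z * a' z * (deriv (δ (n + 2)) z - deriv (δ (n + 1)) z))
  · exact SB.sub h (SB.sub h (SB.neg h (SB.mul h ha hb')) (SB.mul h ha' hb))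
      (SB.mul h (SB.mul h ha ha') (SB.mul h (SB.add h dd2 dd1) dd1))
  · exact SB.mul h (SB.mul h ha ha') (SB.sub h dd2 dd1)
  · exact mul_ne_exists (SB.mul h ha ha').diff (SB.sub h dd2 dd1).diff
      (mul_ne_exists ha.diff ha'.diff ha0 ha0') hΔ
  · apply eq_of_good _ _ hgood
    · intro z hz
      have e1 := hab z hz.1 hz.2.1 hz.2.2.1 hz.2.2.2
      have e2 := hab' z (dual_om hz.1) (dual_om hz.2.1) (dual_om hz.2.2.1) (dual_om hz.2.2.2)
      rw [dual_L hz.1, dual_L hz.2.1, hdneg, hdneg] at e2
      have s := S.ustep (n + 1) (by omega) z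
      rw [show n + 1 + 1 = n + 2 from rfl] at s
      rw [s] at e2
      linear_combination -(a' z) * e1 - (a z) * e2
    · have c1 := hud.continuous
      have c2 := ha.diff.continuous
      have c3 := ha'.diff.continuous
      have c4 := dd1.diff.continuous
      have c5 := dd2.diff.continuous
      fun_prop
    · have c1 := hud.continuous
      have c2 := ha.diff.continuous
      have c3 := ha'.diff.continuous
      have c4 := dd1.diff.continuous
      have c5 := dd2.diff.continuous
      have c6 := hb.diff.continuous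
      have c7 := hb'.diff.continuous
      fun_prop

/-- three consecutive thin zero sets force `u` to be small -/
theorem comb_lf (S : Sys r T N G u δ) (S' : Sys r T N F (fun n z => - u n z) (fun n z => - δ n z))
    (hord : ∀ n ≤ N + 1, ∀ z, ord (F n) z = ord (G n) z) {n : ℕ} (hn : n + 2 ≤ N)
    (h0 : Thin r T {z | G n z = 0}) (h1 : Thin r T {z | G (n + 1) z = 0})
    (h2 : Thin r T {z | G (n + 2) z = 0}) : SB r T (u n) := by
  have h := S.rad
  have hz : ∀ k ≤ N + 1, {z | F k z = 0} = {z | G k z = 0} := by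
    intro k hk
    ext z
    show F k z = 0 ↔ G k z = 0
    have e1 := ord_eq_zero_iff (S.Gd k) (S.Gne k hk) z
    have e2 := ord_eq_zero_iff (S'.Gd k) (S'.Gne k hk) z
    rw [hord k hk z] at e2
    constructor
    · intro h3
      by_contra h4
      exact (e2.1 (e1.2 h4)) h3
    · intro h3
      by_contra h4
      exact (e1.1 (e2.2 h4)) h3
  obtain ⟨a, b, ha, hb, ha0, hab⟩ := S.lf hn h0 h1 h2
  obtain ⟨a', b', ha', hb', ha0', hab'⟩ := S'.lf hn (by rw [hz _ (by omega)]; exact h0)
    (by rw [hz _ (by omega)]; exact h1) (by rw [hz _ (by omega)]; exact h2)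
  have hgood : ∀ z, ∀ᶠ w in 𝓝[≠] z, Om u δ n w ∧ Om u δ (n + 1) w ∧ Om u δ (n + 2) w := fun z =>
    (S.om_ev (by omega) z).and ((S.om_ev (by omega) z).and (S.om_ev (by omega) z))
  have hud := (S.ub n (by omega)).1
  apply SB.quot h hud (N := fun z => a z * b' z - a' z * b z) (D := fun z => a z * a' z)
  · exact SB.sub h (SB.mul h ha hb') (SB.mul h ha' hb)
  · exact SB.mul h ha ha'
  · exact mul_ne_exists ha.diff ha'.diff ha0 ha0'
  · apply eq_of_good _ _ hgood
    · intro z hz
      have e1 := hab z hz.1 hz.2.1 hz.2.2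
      have e2 := hab' z (dual_om hz.1) (dual_om hz.2.1) (dual_om hz.2.2)
      rw [dual_L hz.1] at e2
      linear_combination -(a' z) * e1 + (a z) * e2
    · exact hud.continuous.mul (ha.diff.continuous.mul ha'.diff.continuous)
    · exact (ha.diff.continuous.mul hb'.diff.continuous).sub
        (ha'.diff.continuous.mul hb.diff.continuous)

/-- **Key proposition.** -/
theorem key (S : Sys r T N G u δ) (S' : Sys r T N F (fun n z => - u n z) (fun n z => - δ n z))
    (hord : ∀ n ≤ N + 1, ∀ z, ord (F n) z = ord (G n) z) (hN : 9 ≤ N) :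
    ∀ n ≤ N, SB r T (u n) := by
  have h := S.rad
  by_contra hc
  have hno : ∀ k ≤ N, ¬ SB r T (u k) := fun k hk hs => hc (u_all S hk hs)
  have h6 : ∀ n, n + 5 ≤ N → Thin r T {z | 6 ≤ ord (G n) z} := by
    intro n hn
    by_contra hD
    exact hno (n + 1) (by omega) (comb_ld S S' hord hn hD)
  have hZ : ∀ n, n ≤ 2 → Thin r T {z | G (n + 1) z = 0} := by
    intro n hn
    have t6 := h6 (n + 1) (by omega)
    have v2 := S.vthin (n := n + 1) (k := 2) (by norm_num) (by omega)
    have v3 := S.vthin (n := n + 1) (k := 3) (by norm_num) (by omega)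
    have v4 := S.vthin (n := n + 1) (k := 4) (by norm_num) (by omega)
    have v5 := S.vthin (n := n + 1) (k := 5) (by norm_num) (by omega)
    have v2' := S.vthin (n := n) (k := 2) (by norm_num) (by omega)
    have l1 := S.lc (n := n) (by omega) (h6 (n + 2) (by omega))
    apply (Thin.union h t6 (Thin.union h v2 (Thin.union h v3 (Thin.union h v4 (Thin.union h v5
      (Thin.union h v2' l1)))))).mono
    intro z hz
    obtain ⟨m, hm⟩ := S.ord_of_zero (n := n + 1) (by omega) hz
    by_cases c6 : 6 ≤ ord (G (n + 1)) z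
    · left; exact c6
    right
    by_cases c2 : ord (G (n + 1)) z = 2
    · left; exact c2
    right
    by_cases c3 : ord (G (n + 1)) z = 3
    · left; exact c3
    right
    by_cases c4 : ord (G (n + 1)) z = 4
    · left; exact c4
    right
    by_cases c5 : ord (G (n + 1)) z = 5
    · left; exact c5
    right
    have c1 : ord (G (n + 1)) z = 1 := by omega
    by_cases hG : G n z = 0
    · left
      obtain ⟨k, hk⟩ := S.ord_of_zero (n := n) (by omega) hG
      have := S.ord_succ (n := n) (by omega) hk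
      show ord (G n) z = 2
      omega
    · right
      exact ⟨c1, hG⟩
  exact hno 1 (by omega) (comb_lf S S' hord (n := 1) (by omega) (hZ 0 (by omega))
    (hZ 1 (by omega)) (hZ 2 (by omega)))

end Pool.Agent.N292.EF
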