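import Pool.Agent.N292.EF.LDeg

/-!
MP_bcf514_an: new simple zeros are thin; conclusion that `u` is small.
-/

namespace Pool.Agent.N292.EF

open Filter Topology Real Metric Set
open Pool.Agent.R876.SV

variable {r T : ℕ → ℝ} {N : ℕ} {G u δ : ℕ → ℂ → ℂ}

/-- if two consecutive `δ`'s have the same derivative then `u` is explicit -/
theorem Sys.pair (S : Sys r T N G u δ) {k : ℕ} (hk : k < N) {ε : ℂ → ℂ} (hε : Differentiable ℂ ε)
    (hd : ∀ z, deriv (δ k) z = deriv ε z) {c c' : ℂ}
    (hc : ∀ z, Complex.exp (δ k z) = c * Complex.exp (ε z))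
    (hc' : ∀ z, Complex.exp (δ (k + 1) z) = c' * Complex.exp (ε z)) :
    ∃ c0 : ℂ, ∀ z, (c * Complex.exp (ε z) - 1) * (c' * Complex.exp (ε z) - 1) =
      Complex.exp (ε z) * (c0 + (c' - c) * z) * u k z := by
  have hud := (S.ub k hk.le).1
  obtain ⟨w, hw⟩ := S.une k hk.le
  obtain ⟨c0, hc0⟩ := BWaux.prop_of_wronskian
    (H := fun z => c * c' * Complex.exp (ε z) - (c + c') + Complex.exp (-ε z) - (c' - c) * z * u k z)
    (K := u k) (by fun_prop) hud (by
      intro z
      have k1 : HasDerivAt (fun z => c * c' * Complex.exp (ε z) - (c + c') + Complex.exp (-ε z) -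
          (c' - c) * z * u k z) (c * c' * (Complex.exp (ε z) * deriv ε z) +
            Complex.exp (-ε z) * (-deriv ε z) -
          (((c' - c) * 1) * u k z + (c' - c) * z * deriv (u k) z)) z :=
        ((((hε z).hasDerivAt.cexp.const_mul (c * c')).sub_const (c + c')).add
          (hε z).hasDerivAt.neg.cexp).sub
          (((hasDerivAt_id z).const_mul (c' - c)).mul (hud z).hasDerivAt)
      rw [k1.deriv]
      have h1 := S.ric hk z
      rw [hc z, hc' z, hd z] at h1
      have hE : Complex.exp (ε z) ≠ 0 := Complex.exp_ne_zero _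
      rw [Complex.exp_neg]
      field_simp
      linear_combination -h1) w hw
  refine ⟨c0, ?_⟩
  intro z
  have h1 := hc0 z
  have hE : Complex.exp (ε z) ≠ 0 := Complex.exp_ne_zero _
  rw [Complex.exp_neg] at h1
  field_simp at h1
  linear_combination h1

theorem exp_const_of_deriv {ε η : ℂ → ℂ} (hε : Differentiable ℂ ε) (hη : Differentiable ℂ η)
    (h : ∀ z, deriv ε z = deriv η z) : ∃ c : ℂ, c ≠ 0 ∧
      ∀ z, Complex.exp (ε z) = c * Complex.exp (η z) := by
  refine ⟨Complex.exp (ε 0 - η 0), Complex.exp_ne_zero _, ?_⟩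
  intro z
  have h1 : ε z - η z = ε 0 - η 0 := by
    apply is_const_of_deriv_eq_zero (f := fun z => ε z - η z) (hε.sub hη)
    intro w
    rw [deriv_fun_sub (hε w) (hη w), h w, sub_self]
  rw [← Complex.exp_add]
  congr 1
  linear_combination h1

theorem Sys.vthin (S : Sys r T N G u δ) {n k : ℕ} (hk : 2 ≤ k) (hn : n + k < N + 2) :
    Thin r T {z | ord (G n) z = k} := by
  apply (S.two (n := n + (k - 2)) (by omega)).mono
  intro z hz
  have hz' : ord (G n) z = k := hz
  have := S.ord_add (n := n) (z := z) (k - 2) (by omega) (by omega)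
  show ord (G (n + (k - 2))) z = 2
  omega

theorem Sys.lc (S : Sys r T N G u δ) {n : ℕ} (hn : n + 6 ≤ N)
    (h6 : Thin r T {z | 6 ≤ ord (G (n + 2)) z}) :
    Thin r T {z | ord (G (n + 1)) z = 1 ∧ G n z ≠ 0} := by
  by_contra hD
  have h := S.rad
  obtain ⟨z0, hz0⟩ := not_thin_nonempty h hD
  have facts : ∀ z, ord (G (n + 1)) z = 1 ∧ G n z ≠ 0 →
      Complex.exp (δ (n + 1) z) = 1 ∧ deriv (δ n) z = deriv (δ (n + 1)) z := by
    rintro z ⟨hz1, hz2⟩
    obtain ⟨a1, a2⟩ := S.at_zero (n := n + 1) (by omega) (m := 0) hz1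
    refine ⟨a1, ?_⟩
    have hG1 : G (n + 1) z = 0 := by
      by_contra hc
      have := (ord_eq_zero_iff (S.Gd (n + 1)) (S.Gne (n + 1) (by omega)) z).2 hc
      omega
    have hr := S.rel n (by omega) z
    rw [hG1, mul_zero] at hr
    have hu := (mul_eq_zero.1 hr).resolve_right hz2
    have s := S.ustep n (by omega) z
    rw [hu, a2] at s
    push_cast at s
    linear_combination -s
  have dn := S.dsb n (by omega)
  have dn1 := S.dsb (n + 1) (by omega)
  have dn2 := S.dsb (n + 2) (by omega)
  have hd : ∀ z, deriv (δ n) z = deriv (δ (n + 1)) z := by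
    intro z
    have := eq_zero_of_not_thin hD (SB.sub h dn dn1) (fun z hz => by
      rw [(facts z hz).2, sub_self]) z
    exact sub_eq_zero.1 this
  obtain ⟨c, hc0, hc⟩ := exp_const_of_deriv (S.δd n) (S.δd (n + 1)) hd
  have hdne : ∃ z, deriv (δ (n + 1)) z ≠ 0 := S.dne (n := n + 1) (by omega) (facts z0 hz0).1
  have hng : ¬ Ng r T (δ (n + 1)) := S.not_ng (n := n + 1) (by omega) hD
    (fun z hz => (facts z hz).1)
  obtain ⟨b0, hb0⟩ := S.pair (k := n) (by omega) (S.δd (n + 1)) hd hc
    (c' := 1) (fun z => (one_mul _).symm)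
  -- l = b0 + (1 - c) z
  set l : ℂ → ℂ := fun z => b0 + (1 - c) * z with hl
  have hlS : SB r T l := SB.add h (SB.const h b0) (SB.mul h (SB.const h (1 - c)) (SB.id h))
  have hld := hlS.diff
  have hudn := (S.ub n (by omega)).1
  have hl0 : ∃ z, l z ≠ 0 := by
    by_contra hcon
    push Not at hcon
    obtain ⟨w, hw⟩ := mul_ne_exists (S.Ad n) (S.Ad (n + 1)) (S.Ane (n := n) (by omega))
      (S.Ane (n := n + 1) (by omega))
    apply hw
    have h1 := hb0 w
    have h2 : b0 + (1 - c) * w = 0 := hcon w
    rw [h2, mul_zero, zero_mul] at h1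
    rw [hc w]
    linear_combination h1
  set E : ℂ → ℂ := fun z => Complex.exp (δ (n + 1) z) with hE
  have hEd : Differentiable ℂ E := (S.δd (n + 1)).cexp
  have hEB : Bd r T E := S.Eb (n + 1) (by omega)
  set d : ℂ → ℂ := deriv (δ (n + 1)) with hddef
  set g : ℂ → ℂ := fun z => d z * l z - (c + 1) with hg
  have hgS : SB r T g := SB.sub h (SB.mul h dn1 hlS) (SB.const h (c + 1))
  set q : ℂ → ℂ := fun z => c * E z ^ 2 + g z * E z + 1 with hq
  have hqB : Bd r T q := Bd.add h (Bd.add h (Bd.mul h (Bd.const h c) (hEB.pow h 2))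
    (Bd.mul h hgS.1 hEB)) (Bd.const h 1)
  have hqu : ∀ z, q z = E z * l z * u (n + 1) z := by
    intro z
    have h1 := hb0 z
    rw [S.ustep n (by omega) z, hd z]
    simp only [hq, hg, hl, hE, hddef]
    linear_combination h1
  have hq0 : ∃ z, q z ≠ 0 := by
    obtain ⟨w, hw⟩ := mul_ne_exists hld (S.ub (n + 1) (by omega)).1 hl0 (S.une (n + 1) (by omega))
    refine ⟨w, ?_⟩
    rw [hqu w, mul_assoc]
    exact mul_ne_zero (Complex.exp_ne_zero _) hw
  -- the zeros of q are not thin
  have hqT : ¬ Thin r T {z | q z = 0} := by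
    rintro ⟨φ, hφ, hφ0, hφv⟩
    obtain ⟨P, hP, hPe⟩ := resid_one h hqB hq0 hφ hφv
    have hqder : ∀ z, deriv q z = 2 * c * d z * E z ^ 2 + (deriv g z + g z * d z) * E z := by
      intro z
      have e1 : HasDerivAt E (d z * E z) z := S.Ader (n + 1) z
      have e2 : HasDerivAt q (c * (((2 : ℕ) : ℂ) * E z ^ (2 - 1) * (d z * E z)) +
          (deriv g z * E z + g z * (d z * E z))) z :=
        (((e1.pow 2).const_mul c).add ((hgS.diff z).hasDerivAt.mul e1)).add_const 1
      rw [e2.deriv]
      push_cast
      norm_num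
      ring
    obtain ⟨k1, k2, k3⟩ := bw_three h (S.δd (n + 1)) dn1 hng (a := P)
      (b := fun z => P z * g z - φ z * (deriv g z + g z * d z))
      (c := fun z => P z * c - φ z * (2 * c * d z)) hP
      (SB.sub h (SB.mul h hP hgS) (SB.mul h hφ (SB.add h (hgS.deriv h) (SB.mul h hgS dn1))))
      (SB.sub h (SB.mul h hP (SB.const h c)) (SB.mul h hφ (SB.mul h (SB.const h (2 * c)) dn1)))
      (by
        intro z
        have e := hPe z
        rw [hqder z] at e
        simp only [hq] at e
        have e2 : Complex.exp (δ (n + 1) z) = E z := rfl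
        rw [e2]
        linear_combination e)
    obtain ⟨w, hw⟩ := mul_ne_exists hφ.diff dn1.diff hφ0 hdne
    apply hw
    have e := k3 w
    simp only [k1 w, zero_mul, zero_sub, neg_eq_zero] at e
    have h2c : (2 * c) ≠ 0 := mul_ne_zero two_ne_zero hc0
    apply mul_left_cancel₀ h2c
    rw [mul_zero]
    linear_combination e
  -- equality of the next derivative
  have hd2 : ∀ z, deriv (δ (n + 2)) z = d z := by
    by_contra hcon
    push Not at hcon
    obtain ⟨w, hw⟩ := hcon
    apply hqT
    have t1 : Thin r T {z | l z = 0} := ⟨l, hlS, hl0, fun z hz => hz⟩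
    have t2 : Thin r T {z | d z = 0} := ⟨d, dn1, hdne, fun z hz => hz⟩
    have t3 : Thin r T {z | deriv (δ (n + 2)) z - d z = 0} :=
      ⟨fun z => deriv (δ (n + 2)) z - d z, SB.sub h dn2 dn1, ⟨w, sub_ne_zero.2 hw⟩, fun z hz => hz⟩
    have v2 := S.vthin (n := n + 2) (k := 2) (by norm_num) (by omega)
    have v3 := S.vthin (n := n + 2) (k := 3) (by norm_num) (by omega)
    have v4 := S.vthin (n := n + 2) (k := 4) (by norm_num) (by omega)
    have v5 := S.vthin (n := n + 2) (k := 5) (by norm_num) (by omega)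
    apply (Thin.union h t1 (Thin.union h t2 (Thin.union h t3 (Thin.union h v2 (Thin.union h v3
      (Thin.union h v4 (Thin.union h v5 h6))))))).mono
    intro z hz
    have hz' : q z = 0 := hz
    rw [hqu z] at hz'
    by_cases hlz : l z = 0
    · left; exact hlz
    right
    have hu1 : u (n + 1) z = 0 := by
      have h1 : E z * l z ≠ 0 := mul_ne_zero (Complex.exp_ne_zero _) hlz
      exact (mul_eq_zero.1 hz').resolve_left h1
    by_cases hdz : d z = 0
    · left; exact hdz
    right
    rcases S.ord_cases (n := n + 1) (by omega) z with ⟨m, hm⟩ | ⟨-, hG⟩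
    · exfalso
      obtain ⟨-, a2⟩ := S.at_zero (n := n + 1) (by omega) hm
      rw [hu1] at a2
      have hm1 : ((m : ℂ) + 1) ≠ 0 := by exact_mod_cast Nat.succ_ne_zero m
      exact hdz ((mul_eq_zero.1 a2.symm).resolve_left hm1)
    · have hrel := S.rel (n + 1) (by omega) z
      rw [hu1, zero_mul] at hrel
      rcases mul_eq_zero.1 hrel.symm with h1 | h1
      · exfalso
        have hE1 : E z = 1 := sub_eq_zero.1 h1
        have h2 := hb0 z
        have h3 : u n z = 0 := by
          have h4 : E z * l z * u n z = 0 := by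
            have : (c * E z - 1) * (1 * E z - 1) = E z * l z * u n z := h2
            rw [← this, hE1]
            ring
          exact (mul_eq_zero.1 h4).resolve_left (mul_ne_zero (Complex.exp_ne_zero _) hlz)
        have s := S.ustep n (by omega) z
        rw [hu1, h3, hd z, zero_add] at s
        exact hdz s.symm
      · have h1' : G (n + 2) z = 0 := h1
        obtain ⟨m, hm⟩ := S.ord_of_zero (n := n + 2) (by omega) h1'
        rcases Nat.lt_or_ge m 1 with hm0 | hm0
        · left
          have hm0' : m = 0 := by omega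
          rw [hm0'] at hm
          obtain ⟨-, a2⟩ := S.at_zero (n := n + 2) (by omega) hm
          have s := S.ustep (n + 1) (by omega) z
          rw [show n + 1 + 1 = n + 2 from rfl, hu1, a2] at s
          show deriv (δ (n + 2)) z - d z = 0
          push_cast at s
          linear_combination s
        · right
          by_cases c2 : m = 1
          · left; show ord (G (n + 2)) z = 2; omega
          right
          by_cases c3 : m = 2
          · left; show ord (G (n + 2)) z = 3; omega
          right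
          by_cases c4 : m = 3
          · left; show ord (G (n + 2)) z = 4; omega
          right
          by_cases c5 : m = 4
          · left; show ord (G (n + 2)) z = 5; omega
          right
          show 6 ≤ ord (G (n + 2)) z
          omega
  obtain ⟨c1, -, hc1⟩ := exp_const_of_deriv (S.δd (n + 2)) (S.δd (n + 1)) hd2
  obtain ⟨b1, hb1⟩ := S.pair (k := n + 1) (by omega) (S.δd (n + 1)) (fun z => rfl)
    (c := 1) (fun z => (one_mul _).symm) (c' := c1) hc1
  set l1 : ℂ → ℂ := fun z => b1 + (c1 - 1) * z with hl1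
  have hl1S : SB r T l1 := SB.add h (SB.const h b1) (SB.mul h (SB.const h (c1 - 1)) (SB.id h))
  obtain ⟨k1, k2, k3⟩ := bw_three h (S.δd (n + 1)) dn1 hng (a := fun z => l1 z - l z)
      (b := fun z => l1 z * g z + l z * (c1 + 1))
      (c := fun z => l1 z * c - l z * c1) (SB.sub h hl1S hlS)
      (SB.add h (SB.mul h hl1S hgS) (SB.mul h hlS (SB.const h (c1 + 1))))
      (SB.sub h (SB.mul h hl1S (SB.const h c)) (SB.mul h hlS (SB.const h c1)))
      (by
        intro z
        have e1 := hqu z
        have e2 : (1 * E z - 1) * (c1 * E z - 1) = E z * l1 z * u (n + 1) z := hb1 z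
        have e3 : Complex.exp (δ (n + 1) z) = E z := rfl
        rw [e3]
        simp only [hq] at e1
        linear_combination l1 z * e1 - l z * e2)
  obtain ⟨w, hw⟩ := mul_ne_exists hld dn1.diff hl0 hdne
  have hlw : l w ≠ 0 := left_ne_zero_of_mul hw
  apply hw
  have e1 := k1 w
  have e2 := k2 w
  have e3 := k3 w
  have f1 : l1 w = l w := sub_eq_zero.1 e1
  have f3 : c = c1 := by
    simp only [f1] at e3
    apply mul_left_cancel₀ hlw
    linear_combination e3
  simp only [f1, ← f3, hg] at e2
  have f4 : l w * (d w * l w) = 0 := by linear_combination e2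
  have f5 := (mul_eq_zero.1 f4).resolve_left hlw
  linear_combination f5

end Pool.Agent.N292.EF
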