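import Pool.Agent.N292.EF.LFew

/-!
MP_bcf514_an: zeros of high multiplicity.
-/

namespace Pool.Agent.N292.EF

open Filter Topology Real Metric Set
open Pool.Agent.R876.SV

variable {r T : ℕ → ℝ} {N : ℕ} {G u δ : ℕ → ℂ → ℂ}

theorem Sys.ord_add (S : Sys r T N G u δ) {n : ℕ} {z : ℂ} (i : ℕ) (hi : n + i ≤ N + 1)
    (h : i ≤ ord (G n) z) : ord (G (n + i)) z = ord (G n) z - i := by
  induction i with
  | zero => simp
  | succ i ih =>
    have h1 := ih (by omega) (by omega)
    obtain ⟨m, hm⟩ : ∃ m, ord (G (n + i)) z = m + 1 := ⟨ord (G (n + i)) z - 1, by omega⟩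
    have := S.ord_succ (n := n + i) (by omega) hm
    rw [show n + (i + 1) = n + i + 1 from rfl, this]
    omega

/-- the degenerate case: `G n = (c - λ z) G (n+1)` -/
theorem Sys.degen (S : Sys r T N G u δ) {n : ℕ} (hn : n + 3 ≤ N + 1) {D : Set ℂ}
    (hD : ¬ Thin r T D) (hDo : ∀ z ∈ D, 1 ≤ ord (G n) z)
    (hrel : ∀ z, G (n + 3) z * G (n + 1) z * G n z - 2 * G (n + 2) z ^ 2 * G n z +
      G (n + 1) z ^ 2 * G (n + 2) z = 0) : False := by
  have h := S.rad
  obtain ⟨w, hw⟩ := S.Gne (n + 1) (by omega)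
  have der : ∀ k z, HasDerivAt (G k) (G (k + 1) z) z := fun k z => by
    rw [← S.Gder k z]; exact (S.Gd k z).hasDerivAt
  have hw2 : G (n + 1) w ^ 2 ≠ 0 := pow_ne_zero _ hw
  have g0 := S.Gd n
  have g1 := S.Gd (n + 1)
  have g2 := S.Gd (n + 2)
  obtain ⟨lam, hlam⟩ := BWaux.prop_of_wronskian (H := fun z => G (n + 2) z * G n z - G (n + 1) z ^ 2)
    (K := fun z => G (n + 1) z ^ 2) (by fun_prop) (by fun_prop) (by
      intro z
      have k1 : HasDerivAt (fun z => G (n + 2) z * G n z - G (n + 1) z ^ 2)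
          ((G (n + 3) z * G n z + G (n + 2) z * G (n + 1) z) -
            ((2 : ℕ) : ℂ) * G (n + 1) z ^ (2 - 1) * G (n + 2) z) z :=
        ((der (n + 2) z).mul (der n z)).sub ((der (n + 1) z).pow 2)
      have k2 : HasDerivAt (fun z => G (n + 1) z ^ 2)
          (((2 : ℕ) : ℂ) * G (n + 1) z ^ (2 - 1) * G (n + 2) z) z := (der (n + 1) z).pow 2
      rw [k1.deriv, k2.deriv]
      push_cast
      norm_num
      linear_combination G (n + 1) z * hrel z) w hw2
  obtain ⟨c, hc⟩ := BWaux.prop_of_wronskian (H := fun z => G n z + lam * z * G (n + 1) z)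
    (K := G (n + 1)) (by fun_prop) g1 (by
      intro z
      have k1 : HasDerivAt (fun z => G n z + lam * z * G (n + 1) z)
          (G (n + 1) z + (lam * 1 * G (n + 1) z + lam * z * G (n + 2) z)) z :=
        (der n z).add (((hasDerivAt_id z).const_mul lam).mul (der (n + 1) z))
      rw [k1.deriv, S.Gder (n + 1) z]
      have := hlam z
      linear_combination -this) w hw
  have hz : ∀ z, c - lam * z = 0 := by
    apply eq_zero_of_not_thin hD (SB.sub h (SB.const h c) (SB.mul h (SB.const h lam) (SB.id h)))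
    intro z hz
    by_contra hne
    have h1 := hDo z hz
    obtain ⟨m, hm⟩ : ∃ m, ord (G n) z = m + 1 := ⟨ord (G n) z - 1, by omega⟩
    have h2 := S.ord_succ (by omega) hm
    have h3 : G n = fun z => (c - lam * z) * G (n + 1) z := by
      funext z
      linear_combination hc z
    have h4 : Differentiable ℂ (fun z => c - lam * z) := by fun_prop
    have h5 := ord_mul h4 ⟨z, hne⟩ g1 ⟨w, hw⟩ z
    rw [← h3, h2, hm, (ord_eq_zero_iff h4 ⟨z, hne⟩ z).2 hne] at h5
    omega
  obtain ⟨v, hv⟩ := S.Gne n (by omega)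
  apply hv
  have := hc v
  linear_combination this + G (n + 1) v * hz v

/-- High multiplicities. -/
theorem Sys.ld (S : Sys r T N G u δ) {n : ℕ} (hn : n + 5 ≤ N)
    (hD : ¬ Thin r T {z | 6 ≤ ord (G n) z}) :
    ∃ a b : ℂ → ℂ, SB r T a ∧ SB r T b ∧ (∃ z, a z ≠ 0) ∧
      ∀ z, Om u δ (n + 1) z → Om u δ (n + 2) z → Om u δ (n + 3) z → Om u δ (n + 4) z →
        a z * ((deriv (δ (n + 2)) z - deriv (δ (n + 1)) z) * Lf u δ (n + 1) z +
          (deriv (δ (n + 2)) z + deriv (δ (n + 1)) z) *
            (Lf u δ (n + 2) z - Lf u δ (n + 1) z)) = b z := by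
  have h := S.rad
  have hsub : ∀ i, i ≤ 3 → ¬ Thin r T {z | 3 ≤ ord (G (n + i)) z} := by
    intro i hi hT
    apply hD
    apply hT.mono
    intro z hz
    have hz' : 6 ≤ ord (G n) z := hz
    have := S.ord_add (n := n) (z := z) i (by omega) (by omega)
    show 3 ≤ ord (G (n + i)) z
    omega
  have W0 := S.lp (n := n) (by omega) (hsub 0 (by omega))
  have W1 := S.lp (n := n + 1) (by omega) (hsub 1 (by omega))
  have W2 := S.lp (n := n + 2) (by omega) (hsub 2 (by omega))
  have W3 := S.lp (n := n + 3) (by omega) (hsub 3 (by omega))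
  have V0 := S.two (n := n) (by omega)
  have V1 := S.two (n := n + 1) (by omega)
  have V2 := S.two (n := n + 2) (by omega)
  obtain ⟨φ, hφ, hφ0, hφv⟩ := Thin.union h W0 (Thin.union h W1 (Thin.union h W2 (Thin.union h W3
    (Thin.union h V0 (Thin.union h V1 V2)))))
  have hord : ∀ z, φ z ≠ 0 →
      (ord (G (n + 1)) z = 0 ∧ ord (G (n + 2)) z = 0 ∧ ord (G (n + 3)) z = 0 ∧
        ord (G (n + 4)) z = 0) ∨ (4 ≤ ord (G (n + 1)) z ∧
        ord (G (n + 2)) z = ord (G (n + 1)) z - 1 ∧
        ord (G (n + 3)) z = ord (G (n + 1)) z - 2 ∧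
        ord (G (n + 4)) z = ord (G (n + 1)) z - 3) := by
    intro z hz
    have step : ∀ i, i ≤ 3 → 1 ≤ ord (G (n + i)) z →
        ord (G (n + i + 1)) z = ord (G (n + i)) z - 1 := by
      intro i hi h1
      exact S.ord_succ (n := n + i) (by omega) (by omega)
    have zz : ∀ i, i ≤ 4 → (ord (G (n + i)) z = 0 ↔ G (n + i) z ≠ 0) := fun i hi =>
      ord_eq_zero_iff (S.Gd _) (S.Gne _ (by omega)) z
    have w0 : 1 ≤ ord (G (n + 1)) z → 1 ≤ ord (G n) z := by
      intro h1
      by_contra hc
      apply hz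
      apply hφv
      left
      refine ⟨?_, (zz 0 (by omega)).1 (by simp only [add_zero]; omega)⟩
      by_contra h2
      have := (zz 1 (by omega)).2 h2
      omega
    have w1 : 1 ≤ ord (G (n + 2)) z → 1 ≤ ord (G (n + 1)) z := by
      intro h1
      by_contra hc
      apply hz
      apply hφv
      right; left
      refine ⟨?_, (zz 1 (by omega)).1 (by omega)⟩
      by_contra h2
      have := (zz 2 (by omega)).2 h2
      omega
    have w2 : 1 ≤ ord (G (n + 3)) z → 1 ≤ ord (G (n + 2)) z := by
      intro h1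
      by_contra hc
      apply hz
      apply hφv
      right; right; left
      refine ⟨?_, (zz 2 (by omega)).1 (by omega)⟩
      by_contra h2
      have := (zz 3 (by omega)).2 h2
      omega
    have w3 : 1 ≤ ord (G (n + 4)) z → 1 ≤ ord (G (n + 3)) z := by
      intro h1
      by_contra hc
      apply hz
      apply hφv
      right; right; right; left
      refine ⟨?_, (zz 3 (by omega)).1 (by omega)⟩
      by_contra h2
      have := (zz 4 (by omega)).2 h2
      omega
    have v0 : ord (G n) z ≠ 2 := by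
      intro h1
      apply hz
      apply hφv
      right; right; right; right; left
      exact h1
    have v1 : ord (G (n + 1)) z ≠ 2 := by
      intro h1
      apply hz
      apply hφv
      right; right; right; right; right; left
      exact h1
    have v2 : ord (G (n + 2)) z ≠ 2 := by
      intro h1
      apply hz
      apply hφv
      right; right; right; right; right; right
      exact h1
    have s0 := step 0 (by omega)
    have s1 := step 1 (by omega)
    have s2 := step 2 (by omega)
    have s3 := step 3 (by omega)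
    simp only [add_zero, show n + 1 + 1 = n + 2 from rfl, show n + 2 + 1 = n + 3 from rfl,
      show n + 3 + 1 = n + 4 from rfl] at s0 s1 s2 s3
    omega
  obtain ⟨P1, hP1, hP1e⟩ := S.tau_two (n := n + 1) (m := n + 2) (by omega) (by omega) hφ (by
    intro z
    by_cases hz : φ z = 0
    · left; exact hz
    · right
      have := hord z hz
      simp only [show n + 1 + 1 = n + 2 from rfl, show n + 2 + 1 = n + 3 from rfl]
      omega)
  obtain ⟨P2, hP2, hP2e⟩ := S.tau_two (n := n + 1) (m := n + 3) (by omega) (by omega) hφ (by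
    intro z
    by_cases hz : φ z = 0
    · left; exact hz
    · right
      have := hord z hz
      simp only [show n + 1 + 1 = n + 2 from rfl, show n + 3 + 1 = n + 4 from rfl]
      omega)
  simp only [show n + 1 + 1 = n + 2 from rfl, show n + 2 + 1 = n + 3 from rfl,
      show n + 3 + 1 = n + 4 from rfl] at hP1e hP2e
  have hφd := hφ.diff
  have hP1d := hP1.diff
  have hP2d := hP2.diff
  -- the key identity
  have key : ∀ z, Om u δ (n + 1) z → Om u δ (n + 2) z → Om u δ (n + 3) z → Om u δ (n + 4) z →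
      φ z * (P2 z - 2 * P1 z) * Lf u δ (n + 1) z +
        φ z * (2 * P2 z - P1 z) * (Lf u δ (n + 2) z - Lf u δ (n + 1) z) =
      φ z * deriv P1 z - deriv φ z * P1 z - P1 z * P2 z := by
    intro z h1 h2 h3 h4
    have e1 := hP1e z h1 h2 h2 h3
    have e2 := hP2e z h1 h2 h3 h4
    have d1 := S.L_deriv (n := n + 1) (by omega) h1 h2
    have d2 := S.L_deriv (n := n + 2) (by omega) h2 h3
    have d3 := S.L_deriv (n := n + 3) (by omega) h3 h4
    have hev : P1 =ᶠ[𝓝 z] fun w => φ w * ((Lf u δ (n + 3) w - Lf u δ (n + 2) w) -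
        (Lf u δ (n + 2) w - Lf u δ (n + 1) w)) := by
      filter_upwards [S.om_open (n := n + 1) (by omega) h1, S.om_open (n := n + 2) (by omega) h2,
        S.om_open (n := n + 3) (by omega) h3] with w w1 w2 w3
      exact hP1e w w1 w2 w2 w3
    have dd := ((hφd z).hasDerivAt.mul ((d3.sub d2).sub (d2.sub d1))).congr_of_eventuallyEq hev
    rw [dd.deriv, e1, e2]
    simp only [Pi.sub_apply, show n + 1 + 1 = n + 2 from rfl, show n + 2 + 1 = n + 3 from rfl,
      show n + 3 + 1 = n + 4 from rfl]
    ring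
  have hgood : ∀ z, ∀ᶠ w in 𝓝[≠] z, Om u δ (n + 1) w ∧ Om u δ (n + 2) w ∧ Om u δ (n + 3) w ∧
      Om u δ (n + 4) w := fun z =>
    (S.om_ev (by omega) z).and ((S.om_ev (by omega) z).and ((S.om_ev (by omega) z).and
      (S.om_ev (by omega) z)))
  -- the reduced set
  set D' : Set ℂ := {z | 6 ≤ ord (G n) z ∧ φ z ≠ 0} with hD'
  have hD'T : ¬ Thin r T D' := by
    intro hT
    apply hD
    have h1 : Thin r T {z | φ z = 0} := ⟨φ, hφ, hφ0, fun z hz => hz⟩
    apply (Thin.union h hT h1).mono
    intro z hz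
    by_cases hz0 : φ z = 0
    · right; exact hz0
    · left; exact ⟨hz, hz0⟩
  -- residues
  have hres : ∀ z ∈ D', (ord (G (n + 1)) z : ℂ) * (P2 z - 2 * P1 z) = 2 * P2 z - P1 z := by
    rintro z ⟨hz6, hzφ⟩
    have hm1 := S.ord_add (n := n) (z := z) 1 (by omega) (by omega)
    have hm2 := S.ord_add (n := n) (z := z) 2 (by omega) (by omega)
    set m := ord (G (n + 1)) z with hm
    have hm2' : ((ord (G (n + 2)) z : ℕ) : ℂ) = (m : ℂ) - 1 := by
      have : ord (G (n + 2)) z + 1 = m := by omega
      rw [← this]; push_cast; ring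
    obtain ⟨g1, hg1, hg1e⟩ := logDeriv_local (S.Gd (n + 1)) (S.Gne (n + 1) (by omega)) z
    obtain ⟨g2, hg2, hg2e⟩ := logDeriv_local (S.Gd (n + 2)) (S.Gne (n + 2) (by omega)) z
    have hev : ∀ᶠ w in 𝓝[≠] z, φ w * ((m : ℂ) * (P2 w - 2 * P1 w) - (2 * P2 w - P1 w)) +
        (w - z) * (φ w * (P2 w - 2 * P1 w) * g1 w + φ w * (2 * P2 w - P1 w) * (g2 w - g1 w) -
          (φ w * deriv P1 w - deriv φ w * P1 w - P1 w * P2 w)) = 0 := by
      filter_upwards [hg1e, hg2e, hgood z, self_mem_nhdsWithin,
        ent_ne_nhdsNE (S.Gd (n + 1)) (S.Gne (n + 1) (by omega)) z,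
        ent_ne_nhdsNE (S.Gd (n + 2)) (S.Gne (n + 2) (by omega)) z] with w w1 w2 w3 w4 w5 w6
      have hwz : w - z ≠ 0 := sub_ne_zero.2 w4
      have k := key w w3.1 w3.2.1 w3.2.2.1 w3.2.2.2
      have l1 : Lf u δ (n + 1) w = (m : ℂ) / (w - z) + g1 w := by
        rw [← w1, S.Gder]
        have := S.rel (n + 1) (by omega) w
        have a := w3.1.2
        unfold Lf
        rw [div_eq_div_iff a w5]
        linear_combination this
      have l2 : Lf u δ (n + 2) w = ((m : ℂ) - 1) / (w - z) + g2 w := by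
        rw [← hm2', ← w2, S.Gder]
        have := S.rel (n + 2) (by omega) w
        have a := w3.2.1.2
        unfold Lf
        rw [div_eq_div_iff a w6]
        linear_combination this
      rw [l1, l2] at k
      have e3 : ((m : ℂ) - 1) / (w - z) + g2 w - ((m : ℂ) / (w - z) + g1 w) =
        -1 / (w - z) + (g2 w - g1 w) := by
        field_simp
        ring
      rw [e3] at k
      have k2 := congrArg (fun x => (w - z) * x) k
      have e4 : (w - z) * (φ w * (P2 w - 2 * P1 w) * ((m : ℂ) / (w - z) + g1 w) +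
          φ w * (2 * P2 w - P1 w) * (-1 / (w - z) + (g2 w - g1 w))) =
          φ w * (P2 w - 2 * P1 w) * (m + (w - z) * g1 w) +
          φ w * (2 * P2 w - P1 w) * (-1 + (w - z) * (g2 w - g1 w)) := by
        field_simp
      rw [e4] at k2
      linear_combination k2
    have hcont : ContinuousAt (fun w => φ w * ((m : ℂ) * (P2 w - 2 * P1 w) - (2 * P2 w - P1 w)) +
        (w - z) * (φ w * (P2 w - 2 * P1 w) * g1 w + φ w * (2 * P2 w - P1 w) * (g2 w - g1 w) -
          (φ w * deriv P1 w - deriv φ w * P1 w - P1 w * P2 w))) z := by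
      have c1 := hg1.continuousAt
      have c2 := hg2.continuousAt
      have c3 := hφd.continuous.continuousAt (x := z)
      have c4 := hP1d.continuous.continuousAt (x := z)
      have c5 := hP2d.continuous.continuousAt (x := z)
      have c6 := (SMaux.entire_deriv hP1d).continuous.continuousAt (x := z)
      have c7 := (SMaux.entire_deriv hφd).continuous.continuousAt (x := z)
      fun_prop
    have h0 : Tendsto (fun w => φ w * ((m : ℂ) * (P2 w - 2 * P1 w) - (2 * P2 w - P1 w)) +
        (w - z) * (φ w * (P2 w - 2 * P1 w) * g1 w + φ w * (2 * P2 w - P1 w) * (g2 w - g1 w) -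
          (φ w * deriv P1 w - deriv φ w * P1 w - P1 w * P2 w))) (𝓝[≠] z) (𝓝 0) :=
      tendsto_const_nhds.congr' (hev.mono fun w hw => hw.symm)
    have h1 := tendsto_nhds_unique (hcont.tendsto.mono_left nhdsWithin_le_nhds) h0
    simp only [sub_self, zero_mul, add_zero] at h1
    exact sub_eq_zero.1 ((mul_eq_zero.1 h1).resolve_left hzφ)
  -- relation between the d's
  have hdm : ∀ z ∈ D', (ord (G (n + 1)) z : ℂ) * (deriv (δ (n + 2)) z - deriv (δ (n + 1)) z) =
      deriv (δ (n + 2)) z + deriv (δ (n + 1)) z := by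
    rintro z ⟨hz6, -⟩
    have hm1 := S.ord_add (n := n) (z := z) 1 (by omega) (by omega)
    obtain ⟨k, hk⟩ : ∃ k, ord (G (n + 1)) z = (k + 1) + 1 := ⟨ord (G (n + 1)) z - 2, by omega⟩
    have hk2 : ord (G (n + 2)) z = k + 1 := S.ord_succ (n := n + 1) (by omega) hk
    obtain ⟨-, a⟩ := S.at_zero (n := n + 1) (by omega) hk
    obtain ⟨-, b⟩ := S.at_zero (n := n + 2) (by omega) hk2
    have s := S.ustep (n + 1) (by omega) z
    rw [show n + 1 + 1 = n + 2 from rfl, a, b] at s
    rw [hk]
    push_cast at s ⊢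
    linear_combination s
  have dd1 := S.dsb (n + 1) (by omega)
  have dd2 := S.dsb (n + 2) (by omega)
  have hX1 := SB.sub h hP2 (SB.mul h (SB.const h 2) hP1)
  have hY1 := SB.sub h (SB.mul h (SB.const h 2) hP2) hP1
  have hSD : ∀ z, (deriv (δ (n + 2)) z + deriv (δ (n + 1)) z) * (P2 z - 2 * P1 z) -
      (deriv (δ (n + 2)) z - deriv (δ (n + 1)) z) * (2 * P2 z - P1 z) = 0 := by
    apply eq_zero_of_not_thin hD'T
    · exact SB.sub h (SB.mul h (SB.add h dd2 dd1) hX1) (SB.mul h (SB.sub h dd2 dd1) hY1)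
    · intro z hz
      have e1 := hres z hz
      have e2 := hdm z hz
      linear_combination -(P2 z - 2 * P1 z) * e2 + (deriv (δ (n + 2)) z - deriv (δ (n + 1)) z) * e1
  obtain ⟨z0, hz0⟩ := not_thin_nonempty h hD'T
  have hΔ : ∃ z, deriv (δ (n + 2)) z - deriv (δ (n + 1)) z ≠ 0 := by
    by_contra hc
    push Not at hc
    have hd1 : ∃ z, deriv (δ (n + 1)) z ≠ 0 := by
      have hm1 := S.ord_add (n := n) (z := z0) 1 (by omega) (by have := hz0.1; omega)
      have hz6 := hz0.1
      obtain ⟨k, hk⟩ : ∃ k, ord (G (n + 1)) z0 = k + 1 := ⟨ord (G (n + 1)) z0 - 1, by omega⟩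
      exact S.dne (n := n + 1) (by omega) (S.at_zero (n := n + 1) (by omega) hk).1
    obtain ⟨w, hw⟩ := hd1
    apply hw
    apply eq_zero_of_not_thin hD'T dd1
    intro z hz
    have e2 := hdm z hz
    rw [hc z, mul_zero] at e2
    have e3 := hc z
    linear_combination (-1 / 2) * e2 - (1 / 2) * e3
  by_cases hX0 : ∃ z, P2 z - 2 * P1 z ≠ 0
  · refine ⟨fun z => φ z * (P2 z - 2 * P1 z),
      fun z => (deriv (δ (n + 2)) z - deriv (δ (n + 1)) z) *
        (φ z * deriv P1 z - deriv φ z * P1 z - P1 z * P2 z), SB.mul h hφ hX1, ?_,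
      mul_ne_exists hφd hX1.diff hφ0 hX0, ?_⟩
    · exact SB.mul h (SB.sub h dd2 dd1) (SB.sub h (SB.sub h (SB.mul h hφ (hP1.deriv h))
        (SB.mul h (hφ.deriv h) hP1)) (SB.mul h hP1 hP2))
    · intro z h1 h2 h3 h4
      have k := key z h1 h2 h3 h4
      have s := hSD z
      linear_combination (deriv (δ (n + 2)) z - deriv (δ (n + 1)) z) * k +
        φ z * (Lf u δ (n + 2) z - Lf u δ (n + 1) z) * s
  · exfalso
    push Not at hX0
    have hY0 : ∀ z, 2 * P2 z - P1 z = 0 := by
      apply mul_eq_zero_ent (SB.sub h dd2 dd1).diff hY1.diff hΔ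
      intro z
      have := hSD z
      rw [hX0 z, mul_zero, zero_sub, neg_eq_zero] at this
      exact this
    have hP10 : ∀ z, P1 z = 0 := by
      intro z
      have a := hX0 z
      have b := hY0 z
      linear_combination (1 / 3) * b - (2 / 3) * a
    apply S.degen (n := n + 1) (by omega) hD'T
    · rintro z ⟨hz6, -⟩
      have hm1 := S.ord_add (n := n) (z := z) 1 (by omega) (by omega)
      omega
    · intro z
      have g1 := S.Gd (n + 1)
      have g2 := S.Gd (n + 2)
      have g3 := S.Gd (n + 3)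
      have g4 := S.Gd (n + 4)
      refine mul_eq_zero_ent (F := φ) (G := fun z => G (n + 1 + 3) z * G (n + 1 + 1) z * G (n + 1) z -
        2 * G (n + 1 + 2) z ^ 2 * G (n + 1) z + G (n + 1 + 1) z ^ 2 * G (n + 1 + 2) z) hφd ?_ hφ0 ?_ z
      · simp only [show n + 1 + 3 = n + 4 from rfl, show n + 1 + 1 = n + 2 from rfl,
          show n + 1 + 2 = n + 3 from rfl]
        fun_prop
      · apply eq_of_good (F := fun z => φ z * (G (n + 1 + 3) z * G (n + 1 + 1) z * G (n + 1) z -
          2 * G (n + 1 + 2) z ^ 2 * G (n + 1) z + G (n + 1 + 1) z ^ 2 * G (n + 1 + 2) z))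
          (K := fun _ => 0) _ continuous_const (p := fun w => (Om u δ (n + 1) w ∧
            Om u δ (n + 2) w ∧ Om u δ (n + 3) w ∧ Om u δ (n + 4) w))
          hgood
        · intro z hz
          have e := hP1e z hz.1 hz.2.1 hz.2.1 hz.2.2.1
          rw [hP10 z] at e
          have r1 := S.rel (n + 1) (by omega) z
          have r2 := S.rel (n + 2) (by omega) z
          have r3 := S.rel (n + 3) (by omega) z
          simp only [show n + 1 + 3 = n + 4 from rfl, show n + 1 + 1 = n + 2 from rfl,
            show n + 1 + 2 = n + 3 from rfl, show n + 2 + 1 = n + 3 from rfl,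
            show n + 3 + 1 = n + 4 from rfl] at r1 r2 r3 ⊢
          have a1 := hz.1.2
          have a2 := hz.2.1.2
          have a3 := hz.2.2.1.2
          have l1 : G (n + 2) z = Lf u δ (n + 1) z * G (n + 1) z := by
            unfold Lf; field_simp; linear_combination -r1
          have l2 : G (n + 3) z = Lf u δ (n + 2) z * G (n + 2) z := by
            unfold Lf; field_simp; linear_combination -r2
          have l3 : G (n + 4) z = Lf u δ (n + 3) z * G (n + 3) z := by
            unfold Lf; field_simp; linear_combination -r3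
          rw [l3, l2, l1]
          linear_combination -(Lf u δ (n + 2) z * Lf u δ (n + 1) z ^ 2 * G (n + 1) z ^ 3) * e
        · simp only [show n + 1 + 3 = n + 4 from rfl, show n + 1 + 1 = n + 2 from rfl,
            show n + 1 + 2 = n + 3 from rfl]
          have c1 := g1.continuous
          have c2 := g2.continuous
          have c3 := g3.continuous
          have c4 := g4.continuous
          have c5 := hφd.continuous
          fun_prop

end Pool.Agent.N292.EF
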