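import Pool.Agent.N292.EF.Lfun

/-!
MP_bcf514_an: the lemma on new zeros, and the case of three consecutive functions with thin zeros.
-/

namespace Pool.Agent.N292.EF

open Filter Topology Real Metric Set
open Pool.Agent.R876.SV

variable {r T : ℕ → ℝ} {N : ℕ} {G u δ : ℕ → ℂ → ℂ}

/-- If `G n` has a set of zeros of multiplicity at least three that is not thin then the zeros of
`G (n+1)` which are not zeros of `G n` form a thin set. -/
theorem Sys.lp (S : Sys r T N G u δ) {n : ℕ} (hn : n + 2 ≤ N)
    (hD : ¬ Thin r T {z | 3 ≤ ord (G n) z}) : Thin r T {z | G (n + 1) z = 0 ∧ G n z ≠ 0} := by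
  have h := S.rad
  obtain ⟨z0, hz0⟩ := not_thin_nonempty h hD
  have facts : ∀ z, 3 ≤ ord (G n) z → ∃ m : ℕ, Complex.exp (δ n z) = 1 ∧
      Complex.exp (δ (n + 1) z) = 1 ∧
      ((m : ℂ) + 2) * deriv (δ (n + 1)) z = ((m : ℂ) + 4) * deriv (δ n) z ∧
      ((m : ℂ) + 1) * deriv (δ (n + 2)) z = ((m : ℂ) + 3) * deriv (δ (n + 1)) z := by
    intro z hz
    obtain ⟨m, hm⟩ : ∃ m, ord (G n) z = (m + 2) + 1 := ⟨ord (G n) z - 3, by omega⟩
    have hm1 : ord (G (n + 1)) z = (m + 1) + 1 := S.ord_succ (by omega) hm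
    have hm2 : ord (G (n + 2)) z = m + 1 := S.ord_succ (n := n + 1) (by omega) hm1
    obtain ⟨a1, a2⟩ := S.at_zero (n := n) (by omega) hm
    obtain ⟨b1, b2⟩ := S.at_zero (n := n + 1) (by omega) hm1
    obtain ⟨c1, c2⟩ := S.at_zero (n := n + 2) (by omega) hm2
    have s1 := S.ustep n (by omega) z
    have s2 := S.ustep (n + 1) (by omega) z
    refine ⟨m, a1, b1, ?_, ?_⟩
    · rw [a2, b2] at s1
      push_cast at s1
      linear_combination s1
    · rw [show n + 1 + 1 = n + 2 from rfl, b2, c2] at s2
      push_cast at s2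
      linear_combination s2
  have d0 := S.dsb n (by omega)
  have d1 := S.dsb (n + 1) (by omega)
  have d2 := S.dsb (n + 2) (by omega)
  have hI : ∀ z, (deriv (δ (n + 1)) z + deriv (δ n) z) * (deriv (δ (n + 2)) z - deriv (δ (n + 1)) z) -
      2 * deriv (δ (n + 2)) z * (deriv (δ (n + 1)) z - deriv (δ n) z) = 0 := by
    apply eq_zero_of_not_thin hD
    · exact SB.sub h (SB.mul h (SB.add h d1 d0) (SB.sub h d2 d1))
        (SB.mul h (SB.mul h (SB.const h 2) d2) (SB.sub h d1 d0))
    · intro z hz
      obtain ⟨m, -, -, e1, e2⟩ := facts z hz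
      have hm : ((m : ℂ) + 3) ≠ 0 := by exact_mod_cast (by omega : m + 3 ≠ 0)
      apply mul_left_cancel₀ hm
      rw [mul_zero]
      -- (m+3)(d1 - d0) = d1 + d0, (m+3)(d2-d1) = 2 d2
      have k1 : ((m : ℂ) + 3) * (deriv (δ (n + 1)) z - deriv (δ n) z) =
          deriv (δ (n + 1)) z + deriv (δ n) z := by linear_combination e1
      have k2 : ((m : ℂ) + 3) * (deriv (δ (n + 2)) z - deriv (δ (n + 1)) z) =
          2 * deriv (δ (n + 2)) z := by linear_combination e2
      linear_combination (deriv (δ (n + 1)) z + deriv (δ n) z) * k2 -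
        2 * deriv (δ (n + 2)) z * k1
  have hd1 : ∃ z, deriv (δ (n + 1)) z ≠ 0 := by
    obtain ⟨m, -, a, -⟩ := facts z0 hz0
    exact S.dne (by omega) a
  have hd0 : ∃ z, deriv (δ n) z ≠ 0 := by
    obtain ⟨m, a, -⟩ := facts z0 hz0
    exact S.dne (by omega) a
  have hd10 : ∃ z, deriv (δ (n + 1)) z - deriv (δ n) z ≠ 0 := by
    by_contra hc
    push Not at hc
    obtain ⟨w, hw⟩ := hd0
    apply hw
    apply eq_zero_of_not_thin hD d0
    intro z hz
    obtain ⟨m, -, -, e1, -⟩ := facts z hz
    have := hc z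
    have e3 : deriv (δ (n + 1)) z = deriv (δ n) z := sub_eq_zero.1 this
    rw [e3] at e1
    linear_combination (-1 / 2) * e1
  refine ⟨fun z => deriv (δ (n + 1)) z * (deriv (δ (n + 1)) z - deriv (δ n) z),
    SB.mul h d1 (SB.sub h d1 d0), mul_ne_exists d1.diff (SB.sub h d1 d0).diff hd1 hd10, ?_⟩
  rintro z ⟨hz1, hz0'⟩
  have hu : u n z = 0 := by
    have := S.rel n (by omega) z
    rw [hz1, mul_zero] at this
    exact (mul_eq_zero.1 this).resolve_right hz0'
  obtain ⟨k, hk⟩ := S.ord_of_zero (n := n + 1) (by omega) hz1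
  obtain ⟨-, b2⟩ := S.at_zero (n := n + 1) (by omega) hk
  have s1 := S.ustep n (by omega) z
  rw [hu, zero_add] at s1
  rw [s1] at b2
  rcases Nat.eq_zero_or_pos k with hk0 | hk0
  · rw [hk0] at b2
    push_cast at b2
    have : deriv (δ (n + 1)) z - deriv (δ n) z = 0 := by linear_combination -b2
    simp only [this, mul_zero]
  · obtain ⟨j, rfl⟩ : ∃ j, k = j + 1 := ⟨k - 1, by omega⟩
    have hk2 : ord (G (n + 2)) z = j + 1 := S.ord_succ (n := n + 1) (by omega) hk
    obtain ⟨-, c2⟩ := S.at_zero (n := n + 2) (by omega) hk2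
    have s2 := S.ustep (n + 1) (by omega) z
    rw [show n + 1 + 1 = n + 2 from rfl, c2, s1] at s2
    have hz := hI z
    push_cast at b2
    -- b2 : d0 = (j+1+1) d1 ; s2 : (j+1) d2 = d0 + d1
    have hj2 : (((j : ℂ) + 3) * ((j : ℂ) + 2)) ≠ 0 := by
      apply mul_ne_zero
      · exact_mod_cast (by omega : j + 3 ≠ 0)
      · exact_mod_cast (by omega : j + 2 ≠ 0)
    have hfin : (((j : ℂ) + 3) * ((j : ℂ) + 2)) * deriv (δ (n + 1)) z ^ 2 = 0 := by
      rw [b2] at hz s2
      linear_combination ((j : ℂ) + 1) / 2 * hz - ((j : ℂ) + 3 + 2 * ((j : ℂ) + 1)) / 2 *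
        deriv (δ (n + 1)) z * s2
    have hd : deriv (δ (n + 1)) z = 0 := by
      have := (mul_eq_zero.1 hfin).resolve_left hj2
      exact pow_eq_zero_iff (two_ne_zero) |>.1 this
    simp only [hd, zero_mul]

/-- Three consecutive functions with thin zero sets. -/
theorem Sys.lf (S : Sys r T N G u δ) {n : ℕ} (hn : n + 2 ≤ N) (h0 : Thin r T {z | G n z = 0})
    (h1 : Thin r T {z | G (n + 1) z = 0}) (h2 : Thin r T {z | G (n + 2) z = 0}) :
    ∃ a b : ℂ → ℂ, SB r T a ∧ SB r T b ∧ (∃ z, a z ≠ 0) ∧
      ∀ z, Om u δ n z → Om u δ (n + 1) z → Om u δ (n + 2) z → a z * Lf u δ n z = b z := by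
  have h := S.rad
  obtain ⟨φ, hφ, hφ0, hφv⟩ := Thin.union h h0 (Thin.union h h1 h2)
  have v0 : ∀ z, G n z = 0 → φ z = 0 := fun z hz => hφv z (Or.inl hz)
  have v1 : ∀ z, G (n + 1) z = 0 → φ z = 0 := fun z hz => hφv z (Or.inr (Or.inl hz))
  have v2 : ∀ z, G (n + 2) z = 0 → φ z = 0 := fun z hz => hφv z (Or.inr (Or.inr hz))
  have o : ∀ k, k ≤ N + 1 → ∀ z, G k z ≠ 0 → ord (G k) z = 0 := fun k hk z hz =>
    (ord_eq_zero_iff (S.Gd k) (S.Gne k hk) z).2 hz
  obtain ⟨t0, ht0, ht0e⟩ := S.tau_one (n := n) (by omega) hφ (by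
    intro z
    by_cases a : G n z = 0
    · left; exact v0 z a
    · by_cases b : G (n + 1) z = 0
      · left; exact v1 z b
      · right
        rw [o _ (by omega) z a, o _ (by omega) z b])
  obtain ⟨t1, ht1, ht1e⟩ := S.tau_one (n := n + 1) (by omega) hφ (by
    intro z
    by_cases a : G (n + 1) z = 0
    · left; exact v1 z a
    · by_cases b : G (n + 2) z = 0
      · left; exact v2 z b
      · right
        rw [o _ (by omega) z a, o _ (by omega) z b])
  have hφd := hφ.diff
  have ht0d := ht0.diff
  have ht1d := ht1.diff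
  -- the key relation
  have key : ∀ z, Om u δ n z → Om u δ (n + 1) z → Om u δ (n + 2) z →
      φ z * deriv t0 z - deriv φ z * t0 z = φ z * Lf u δ n z * (t1 z - t0 z) + t0 z * t1 z := by
    intro z hz hz1 hz2
    have e0 := ht0e z hz hz1
    have e1 := ht1e z hz1 hz2
    have d0 := S.L_deriv (n := n) (by omega) hz hz1
    have d1 := S.L_deriv (n := n + 1) (by omega) hz1 hz2
    have hev : t0 =ᶠ[𝓝 z] fun w => φ w * (Lf u δ (n + 1) w - Lf u δ n w) := by
      filter_upwards [S.om_open (n := n) (by omega) hz, S.om_open (n := n + 1) (by omega) hz1]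
        with w w1 w2
      exact ht0e w w1 w2
    have d2 := ((hφd z).hasDerivAt.mul (d1.sub d0)).congr_of_eventuallyEq hev
    rw [d2.deriv, e0, e1]
    simp only [Pi.sub_apply]
    ring
  have hgood : ∀ z, ∀ᶠ w in 𝓝[≠] z, Om u δ n w ∧ Om u δ (n + 1) w ∧ Om u δ (n + 2) w := fun z =>
    (S.om_ev (by omega) z).and ((S.om_ev (by omega) z).and (S.om_ev (by omega) z))
  by_cases hne : ∃ z, t1 z - t0 z ≠ 0
  · refine ⟨fun z => φ z * (t1 z - t0 z), fun z => φ z * deriv t0 z - deriv φ z * t0 z - t0 z * t1 z,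
      SB.mul h hφ (SB.sub h ht1 ht0), ?_, mul_ne_exists hφd (ht1d.sub ht0d) hφ0 hne, ?_⟩
    · exact SB.sub h (SB.sub h (SB.mul h hφ (ht0.deriv h)) (SB.mul h (hφ.deriv h) ht0))
        (SB.mul h ht0 ht1)
    · intro z hz hz1 hz2
      have := key z hz hz1 hz2
      linear_combination -this
  · push Not at hne
    have hr2 : ∀ z, φ z * deriv t0 z - deriv φ z * t0 z = t0 z ^ 2 := by
      apply eq_of_good (F := fun z => φ z * deriv t0 z - deriv φ z * t0 z)
        (K := fun z => t0 z ^ 2) _ _ hgood
      · intro z hz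
        rw [key z hz.1 hz.2.1 hz.2.2, hne z, sub_eq_zero.1 (hne z)]
        ring
      · exact ((hφd.continuous.mul (SMaux.entire_deriv ht0d).continuous).sub
          ((SMaux.entire_deriv hφd).continuous.mul ht0d.continuous))
      · exact ht0d.continuous.pow 2
    have hud := (S.ub n (by omega)).1
    have hAd := S.Ad n
    have hr1 : ∀ z, t0 z * u n z * (Complex.exp (δ n z) - 1) =
        φ z * (deriv (u n) z * (Complex.exp (δ n z) - 1) -
          u n z * (deriv (δ n) z * Complex.exp (δ n z))) := by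
      apply eq_of_good (F := fun z => t0 z * u n z * (Complex.exp (δ n z) - 1))
        (K := fun z => φ z * (deriv (u n) z * (Complex.exp (δ n z) - 1) -
          u n z * (deriv (δ n) z * Complex.exp (δ n z)))) _ _ hgood
      · intro z hz
        have e0 := ht0e z hz.1 hz.2.1
        have e1 := S.L_log (n := n) (by omega) hz.1 hz.2.1
        have h6 : deriv (fun z => Complex.exp (δ n z) - 1) z =
          deriv (δ n) z * Complex.exp (δ n z) := ((S.Ader n z).sub_const 1).deriv
        rw [h6] at e1
        rw [e0, ← e1]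
        have a1 := hz.1.1
        have a2 := hz.1.2
        field_simp
      · exact (ht0d.continuous.mul hud.continuous).mul hAd.continuous
      · have := (SMaux.entire_deriv hud).continuous
        have := (S.dd n).continuous
        have := (S.δd n).continuous
        have := hud.continuous
        have := hφd.continuous
        fun_prop
    by_cases ht00 : ∃ z, t0 z ≠ 0
    · -- u φ = c t0 (A - 1)
      obtain ⟨w, hw⟩ := mul_ne_exists ht0d hAd ht00 (S.Ane (by omega))
      obtain ⟨lam, hlam⟩ := BWaux.prop_of_wronskian (H := fun z => u n z * φ z)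
        (K := fun z => t0 z * (Complex.exp (δ n z) - 1)) (hud.mul hφd) (ht0d.mul hAd) (by
          intro z
          have k1 : deriv (fun z => u n z * φ z) z = deriv (u n) z * φ z + u n z * deriv φ z :=
            ((hud z).hasDerivAt.mul (hφd z).hasDerivAt).deriv
          have k2 : deriv (fun z => t0 z * (Complex.exp (δ n z) - 1)) z =
              deriv t0 z * (Complex.exp (δ n z) - 1) +
                t0 z * (deriv (δ n) z * Complex.exp (δ n z)) :=
            ((ht0d z).hasDerivAt.mul ((S.Ader n z).sub_const 1)).deriv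
          rw [k1, k2]
          have a1 := hr1 z
          have a2 := hr2 z
          linear_combination -(t0 z) * a1 - u n z * (Complex.exp (δ n z) - 1) * a2) w hw
      refine ⟨φ, fun z => lam * t0 z, hφ, SB.mul h (SB.const h lam) ht0, hφ0, ?_⟩
      intro z hz _ _
      have := hlam z
      have a2 := hz.2
      unfold Lf
      field_simp
      linear_combination this
    · push Not at ht00
      obtain ⟨w, hw⟩ := S.Ane (n := n) (by omega)
      obtain ⟨lam, hlam⟩ := BWaux.prop_of_wronskian (H := u n)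
        (K := fun z => (Complex.exp (δ n z) - 1)) hud hAd (by
          intro z
          have k2 : deriv (fun z => (Complex.exp (δ n z) - 1)) z =
                (deriv (δ n) z * Complex.exp (δ n z)) :=
            ((S.Ader n z).sub_const 1).deriv
          rw [k2]
          have := mul_eq_zero_ent (F := φ) (G := fun z => (deriv (u n) z * (Complex.exp (δ n z) - 1) -
              u n z * (deriv (δ n) z * Complex.exp (δ n z)))) hφd (by
                have := S.dd n
                have := S.δd n
                have := SMaux.entire_deriv hud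
                fun_prop) hφ0 (by
                intro z
                have := hr1 z
                rw [ht00 z, zero_mul, zero_mul] at this
                exact this.symm) z
          linear_combination this) w hw
      refine ⟨fun _ => 1, fun _ => lam, SB.const h 1, SB.const h lam, ⟨0, one_ne_zero⟩, ?_⟩
      intro z hz _ _
      have := hlam z
      have a2 := hz.2
      unfold Lf
      field_simp
      linear_combination this

end Pool.Agent.N292.EF
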