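import Pool.Agent.N292.EF.Sys

/-!
MP_bcf514_an: zeros of exact multiplicity two are thin.
-/

namespace Pool.Agent.N292.EF

open Filter Topology Real Metric Set
open Pool.Agent.R876.SV

variable {r T : ℕ → ℝ} {N : ℕ} {G u δ : ℕ → ℂ → ℂ}

theorem Sys.dd (S : Sys r T N G u δ) (n : ℕ) : Differentiable ℂ (deriv (δ n)) :=
  SMaux.entire_deriv (S.δd n)

/-- if `exp (δ n)` takes the value one then `δ n` is not constant -/
theorem Sys.dne (S : Sys r T N G u δ) {n : ℕ} (hn : n ≤ N) {z0 : ℂ}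
    (h1 : Complex.exp (δ n z0) = 1) : ∃ z, deriv (δ n) z ≠ 0 := by
  by_contra hc
  push Not at hc
  obtain ⟨w, hw⟩ := S.Ane hn
  apply hw
  have : δ n w = δ n z0 := is_const_of_deriv_eq_zero (S.δd n) hc w z0
  rw [this, h1, sub_self]

/-- if the set `D` is contained in `{exp (δ n) = 1}` and is not thin then `δ n` is not small -/
theorem Sys.not_ng (S : Sys r T N G u δ) {n : ℕ} (hn : n ≤ N) {D : Set ℂ} (hD : ¬ Thin r T D)
    (h1 : ∀ z ∈ D, Complex.exp (δ n z) = 1) : ¬ Ng r T (δ n) := by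
  intro hng
  apply hD
  refine ⟨fun z => Complex.exp (δ n z) - 1, SB.sub S.rad
    (SB.exp_of_ng S.rad (S.δd n) (S.Eb n hn) (S.dsb n hn) hng) (SB.const S.rad 1), S.Ane hn, ?_⟩
  intro z hz
  simp only [h1 z hz, sub_self]

theorem Sys.ord_cases (S : Sys r T N G u δ) {n : ℕ} (hn : n ≤ N + 1) (z : ℂ) :
    (∃ m, ord (G n) z = m + 1) ∨ (ord (G n) z = 0 ∧ G n z ≠ 0) := by
  rcases Nat.eq_zero_or_pos (ord (G n) z) with h | h
  · right
    exact ⟨h, (ord_eq_zero_iff (S.Gd n) (S.Gne n hn) z).1 h⟩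
  · left
    exact ⟨ord (G n) z - 1, by omega⟩

theorem Sys.ord_of_zero (S : Sys r T N G u δ) {n : ℕ} (hn : n ≤ N + 1) {z : ℂ} (hz : G n z = 0) :
    ∃ m, ord (G n) z = m + 1 := by
  rcases S.ord_cases hn z with h | h
  · exact h
  · exact absurd hz h.2

theorem Sys.two (S : Sys r T N G u δ) {n : ℕ} (hn : n < N) : Thin r T {z | ord (G n) z = 2} := by
  by_contra hT
  have h := S.rad
  obtain ⟨z0, hz0⟩ := not_thin_nonempty h hT
  have hn' : n ≤ N := hn.le
  have hn1 : n + 1 ≤ N := hn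
  have facts : ∀ z, ord (G n) z = 2 → Complex.exp (δ n z) = 1 ∧ Complex.exp (δ (n + 1) z) = 1 ∧
      deriv (δ (n + 1)) z = 3 * deriv (δ n) z := by
    intro z hz
    obtain ⟨a1, a2⟩ := S.at_zero hn' (m := 1) hz
    obtain ⟨b1, b2⟩ := S.at_zero hn1 (m := 0) (S.ord_succ (by omega) (m := 1) hz)
    refine ⟨a1, b1, ?_⟩
    rw [S.ustep n hn z, a2] at b2
    push_cast at b2
    linear_combination -b2
  have hA1 : ∀ z, deriv (δ (n + 1)) z - 3 * deriv (δ n) z = 0 :=
    eq_zero_of_not_thin hT (SB.sub h (S.dsb _ hn1) (SB.mul h (SB.const h 3) (S.dsb _ hn'))) (by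
      intro z hz
      rw [(facts z hz).2.2, sub_self])
  have hB : ∀ z, Complex.exp (δ (n + 1) z) = Complex.exp (δ n z) ^ 3 := by
    have hconst : ∀ z, δ (n + 1) z - 3 * δ n z = δ (n + 1) z0 - 3 * δ n z0 := by
      intro z
      apply is_const_of_deriv_eq_zero (f := fun z => δ (n + 1) z - 3 * δ n z)
      · exact (S.δd _).sub ((S.δd _).const_mul 3)
      · intro w
        rw [deriv_fun_sub (S.δd _ w) ((S.δd _ w).const_mul 3), deriv_const_mul _ (S.δd _ w)]
        exact hA1 w
    intro z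
    have e : δ (n + 1) z = (3 : ℕ) * δ n z + (δ (n + 1) z0 - (3 : ℕ) * δ n z0) := by
      have := hconst z
      push_cast
      linear_combination this
    rw [e, Complex.exp_add, Complex.exp_sub, Complex.exp_nat_mul, Complex.exp_nat_mul,
      (facts z0 hz0).1, (facts z0 hz0).2.1]
    simp
  have hd0 : ∃ z, deriv (δ n) z ≠ 0 := S.dne hn' (facts z0 hz0).1
  -- zeros of u n
  have hu0 : ∀ z, u n z = 0 → deriv (δ n) z = 0 := by
    intro z hz
    rcases S.ord_cases (n := n) (by omega) z with ⟨m, hm⟩ | ⟨-, hG⟩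
    · obtain ⟨-, a2⟩ := S.at_zero hn' hm
      rw [hz] at a2
      have hm1 : ((m : ℂ) + 1) ≠ 0 := by exact_mod_cast Nat.succ_ne_zero m
      exact (mul_eq_zero.1 a2.symm).resolve_left hm1
    · have hrel := S.rel n hn' z
      rw [hz, zero_mul] at hrel
      rcases mul_eq_zero.1 hrel.symm with h1 | h1
      · have hA : Complex.exp (δ n z) = 1 := sub_eq_zero.1 h1
        have hB1 : Complex.exp (δ (n + 1) z) = 1 := by rw [hB, hA, one_pow]
        by_cases hG1 : G (n + 1) z = 0
        · obtain ⟨m, hm⟩ := S.ord_of_zero (n := n + 1) (by omega) hG1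
          obtain ⟨-, a2⟩ := S.at_zero hn1 hm
          rw [S.ustep n hn z, hz, sub_eq_zero.1 (hA1 z)] at a2
          have hm1 : (3 * (m : ℂ) + 2) ≠ 0 := by exact_mod_cast (by omega : 3 * m + 2 ≠ 0)
          have : (3 * (m : ℂ) + 2) * deriv (δ n) z = 0 := by linear_combination -a2
          exact (mul_eq_zero.1 this).resolve_left hm1
        · have h2 := S.rel (n + 1) hn1 z
          rw [hB1, sub_self, zero_mul] at h2
          have h3 := (mul_eq_zero.1 h2).resolve_right hG1
          rw [S.ustep n hn z, hz, zero_add] at h3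
          exact h3
      · obtain ⟨m, hm⟩ := S.ord_of_zero (n := n + 1) (by omega) h1
        obtain ⟨-, a2⟩ := S.at_zero hn1 hm
        rw [S.ustep n hn z, hz, sub_eq_zero.1 (hA1 z)] at a2
        have hm1 : (3 * (m : ℂ) + 2) ≠ 0 := by exact_mod_cast (by omega : 3 * m + 2 ≠ 0)
        have : (3 * (m : ℂ) + 2) * deriv (δ n) z = 0 := by linear_combination -a2
        exact (mul_eq_zero.1 this).resolve_left hm1
  obtain ⟨P, hP, hPe⟩ := resid_one h (S.ub n hn') (S.une n hn') (S.dsb n hn') hu0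
  have hud := (S.ub n hn').1
  have hPd := hP.diff
  have e1 : Differentiable ℂ (fun z => Complex.exp (δ n z)) := (S.δd n).cexp
  have e4 : Differentiable ℂ (deriv (δ n)) := S.dd n
  -- the relation
  have hQ : ∀ z, P z * (Complex.exp (δ n z) ^ 3 - 1) + u n z * Complex.exp (δ n z) *
      (Complex.exp (δ n z) + 1) * deriv (δ n) z - deriv (δ n) z ^ 2 *
      (Complex.exp (δ n z) + 1) * (Complex.exp (δ n z) ^ 2 + 1) = 0 := by
    apply mul_eq_zero_ent (S.Ad n) (by fun_prop) (S.Ane hn')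
    intro z
    have hne := mul_eq_zero_ent (F := u n) (G := fun z => (Complex.exp (δ n z) - 1) * (P z * (Complex.exp (δ n z) ^ 3 - 1) + u n z * Complex.exp (δ n z) *
      (Complex.exp (δ n z) + 1) * deriv (δ n) z - deriv (δ n) z ^ 2 *
      (Complex.exp (δ n z) + 1) * (Complex.exp (δ n z) ^ 2 + 1))) hud (by fun_prop) (S.une n hn') (by
        intro z
        have h1 := S.ric hn z
        rw [hB] at h1
        have h2 := hPe z
        linear_combination deriv (δ n) z * h1 + (Complex.exp (δ n z) - 1) * (Complex.exp (δ n z) ^ 3 - 1) * h2) z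
    exact hne
  have hng : ¬ Ng r T (δ n) := S.not_ng hn' hT (fun z hz => (facts z hz).1)
  have hlev := not_thin_level h (S.δd n) (S.Eb n hn') (S.dsb n hn') hng (ζ := -1) (by norm_num)
  have hP0 : ∀ z, P z = 0 := eq_zero_of_not_thin hlev hP (by
    intro z hz
    have h1 := hQ z
    have hz' : Complex.exp (δ n z) = -1 := hz
    rw [hz'] at h1
    linear_combination (-1 / 2) * h1)
  have hu' : ∀ z, deriv (u n) z = 0 := by
    apply mul_eq_zero_ent e4 (SMaux.entire_deriv hud) hd0
    intro z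
    have := hPe z
    rw [hP0 z, zero_mul] at this
    exact this.symm
  have huc : ∀ z, u n z = u n 0 := fun z => is_const_of_deriv_eq_zero hud hu' z 0
  have hfin : ∀ z, u n 0 * Complex.exp (δ n z) - deriv (δ n) z * (Complex.exp (δ n z) ^ 2 + 1) = 0 := by
    have hX0 : ∃ z, (Complex.exp (δ n z) + 1) * deriv (δ n) z ≠ 0 := by
      apply mul_ne_exists (e1.add_const 1) e4 _ hd0
      refine ⟨z0, ?_⟩
      rw [(facts z0 hz0).1]
      norm_num
    apply mul_eq_zero_ent ((e1.add_const 1).mul e4) (by fun_prop) hX0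
    intro z
    have h1 := hQ z
    rw [hP0 z, huc z] at h1
    simp only [Pi.mul_apply]
    linear_combination h1
  have := (bw_three h (S.δd n) (S.dsb n hn') hng (a := fun z => - deriv (δ n) z)
    (b := fun _ => u n 0) (c := fun z => - deriv (δ n) z) (SB.neg h (S.dsb n hn'))
    (SB.const h _) (SB.neg h (S.dsb n hn')) (by
      intro z
      linear_combination hfin z)).1
  obtain ⟨w, hw⟩ := hd0
  exact hw (neg_eq_zero.1 (this w))

end Pool.Agent.N292.EF
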