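import Pool.Agent.R876.SV.BW
import Pool.Agent.R876.SV.JE
import Pool.Agent.R876.SV.UN
import Pool.Agent.Helper160.NevLib

/-!
MP_bcf514_an: the lemma on the logarithmic derivative for entire functions, and monotonicity of
the proximity function of an entire function.
-/

namespace Pool.Agent.N292.EF

open Filter Topology Real Metric Set MeromorphicOn
open Pool.Agent.R876.SV
open Pool.Agent.Helper160.Nev (zeroMult poleMult charT counting proxInf)

theorem ent_mero {X : ℂ → ℂ} (hX : Differentiable ℂ X) : Meromorphic X := by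
  intro z
  exact (hX.analyticAt z).meromorphicAt

theorem ent_merOn {X : ℂ → ℂ} (hX : Differentiable ℂ X) (S : Set ℂ) : MeromorphicOn X S :=
  fun z _ => (hX.analyticAt z).meromorphicAt

/-- the proximity function of an entire function is monotone -/
theorem mLog_mono {X : ℂ → ℂ} (hX : Differentiable ℂ X) {r s : ℝ} (hr : 0 < r) (hrs : r ≤ s) :
    mLog X r ≤ mLog X s := by
  have h := ValueDistribution.characteristic_monotoneOn (ent_mero hX)
  have hc : ∀ t, ValueDistribution.characteristic X ⊤ t = mLog X t := by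
    intro t
    have h1 : ValueDistribution.logCounting X ⊤ = 0 := by
      rw [ValueDistribution.logCounting_top]
      have h2 : (MeromorphicOn.divisor X univ)⁻ = 0 := by
        rw [negPart_eq_zero]
        exact MeromorphicOn.AnalyticOnNhd.divisor_nonneg (fun z _ => hX.analyticAt z)
      rw [h2]
      simp
    unfold ValueDistribution.characteristic
    rw [h1, add_zero, ValueDistribution.proximity_top]
    rfl
  have := h (mem_Ioi.2 hr) (mem_Ioi.2 (lt_of_lt_of_le hr hrs)) hrs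
  rwa [hc, hc] at this

theorem ord_ne_top {X : ℂ → ℂ} (hX : Differentiable ℂ X) (h0 : ∃ z, X z ≠ 0) (z : ℂ) :
    meromorphicOrderAt X z ≠ ⊤ := order_ne_top hX h0 z

theorem good_radius {X : ℂ → ℂ} (hX : Differentiable ℂ X) (h0 : ∃ z, X z ≠ 0)
    {r1 r2 : ℝ} (h12 : r1 < r2) :
    ∃ R ∈ Ioo r1 r2, ∀ u ∈ sphere (0:ℂ) R, meromorphicOrderAt X u = 0 := by
  have hfin : (norm '' (Pool.Agent.Helper160.Nev.zp X r2)).Finite :=
    (Pool.Agent.Helper160.Nev.zp_finite (ent_merOn hX _)).image _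
  obtain ⟨R, hR1, hR2⟩ := (Set.Ioo_infinite h12).exists_notMem_finite hfin
  refine ⟨R, hR1, ?_⟩
  intro u hu
  rw [mem_sphere_zero_iff_norm] at hu
  by_contra hne
  apply hR2
  refine ⟨u, ⟨?_, ?_⟩, hu⟩
  · rw [mem_closedBall_zero_iff, hu]
    exact hR1.2.le
  · have h3 := ord_ne_top hX h0 u
    obtain ⟨n, hn⟩ := WithTop.ne_top_iff_exists.1 h3
    intro h4
    apply hne
    rw [← hn] at h4 ⊢
    simp only [WithTop.untop₀_coe] at h4
    rw [h4]
    rfl

theorem poleMult_ent {X : ℂ → ℂ} (hX : Differentiable ℂ X) (z : ℂ) : poleMult X z = 0 :=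
  Pool.Agent.Helper160.Nev.poleMult_eq_zero (hX.analyticAt z).meromorphicOrderAt_nonneg

theorem charT_ent {X : ℂ → ℂ} (hX : Differentiable ℂ X) (r : ℝ) : charT X r = mLog X r := by
  have h1 : poleMult X = fun _ => 0 := funext (poleMult_ent hX)
  have h2 : counting (poleMult X) r = 0 := by
    rw [h1]
    unfold counting
    simp
  unfold charT
  rw [h2, add_zero]
  rfl

/-- Lemma on the logarithmic derivative for entire functions. -/
theorem ldl {X : ℂ → ℂ} (hX : Differentiable ℂ X) (h0 : ∃ z, X z ≠ 0) :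
    ∃ C : ℝ, 1 ≤ C ∧ ∀ r δ : ℝ, 1 ≤ r → 0 < δ → δ ≤ 1 →
      circleAverage (fun w => log⁺ ‖logDeriv X w‖) 0 r ≤
        2 * Real.log (C * (r * (1 + mLog X (r + δ)) / δ)) := by
  obtain ⟨K, hK0, hK⟩ := Pool.Agent.Helper160.Nev.exists_const (α := 1 / 2) (by norm_num) (by norm_num)
  obtain ⟨CJ, hCJ⟩ := JE X hX h0
  set cc : ℝ := |Real.log ‖meromorphicTrailingCoeffAt X 0‖| with hcc
  set m0 : ℝ := (zeroMult X 0 : ℝ) * Real.log 2 with hm0
  have hm0' : 0 ≤ m0 := by
    have h1 : (0:ℝ) ≤ zeroMult X 0 := by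
      exact_mod_cast Pool.Agent.Helper160.Nev.zeroMult_nonneg X 0
    have := Real.log_nonneg (x := 2) (by norm_num)
    positivity
  have hcc0 : 0 ≤ cc := abs_nonneg _
  set C1 : ℝ := 2 + 16 + 8 * |CJ| + 16 * (1 + cc + m0) * (2 * K) with hC1
  have hCJ0 : 0 ≤ |CJ| := abs_nonneg _
  refine ⟨C1, ?_, ?_⟩
  · have : 0 ≤ 16 * (1 + cc + m0) * (2 * K) := by positivity
    linarith
  intro r δ hr hδ hδ1
  have hr0 : 0 < r := by linarith
  obtain ⟨R, ⟨hRa, hRb⟩, hRgood⟩ := good_radius hX h0 (r1 := r + δ / 4) (r2 := r + δ / 2) (by linarith)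
  have hrR : r < R := by linarith
  have hR0 : 0 < R := by linarith
  set R' : ℝ := r + δ with hR'
  have hRR' : R < R' := by linarith
  have hR'0 : 0 < R' := by linarith
  have hmer : ∀ i : Unit, MeromorphicOn ((fun _ : Unit => X) i) (closedBall 0 R) :=
    fun _ => ent_merOn hX _
  have hmain := Pool.Agent.Helper160.Nev.avg_log_sum (Finset.univ : Finset Unit) (fun _ : Unit => X)
    (r := r) (R := R) (α := 1 / 2) (C := K) (by linarith) hrR (by norm_num) (by norm_num)
    hmer (fun _ _ u _ => ord_ne_top hX h0 u) (fun _ _ => hRgood) hK0 (hK r (by linarith))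
  simp only [Finset.univ_unique, Finset.sum_singleton] at hmain
  refine hmain.trans ?_
  have h12 : (1:ℝ) / (1 / 2) = 2 := by norm_num
  rw [h12]
  apply mul_le_mul_of_nonneg_left _ (by norm_num)
  set M : ℝ := mLog X R' with hM
  have hM0 : 0 ≤ M := SMaux.mLog_nonneg _ _
  have hMR : mLog X R ≤ M := mLog_mono hX hR0 hRR'.le
  have hMR0 : 0 ≤ mLog X R := SMaux.mLog_nonneg _ _
  -- the mean of |log|
  have hXR : MeromorphicOn X (closedBall 0 R) := ent_merOn hX _
  have e8 : circleAverage (fun z => |Real.log ‖X z‖|) 0 R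
      = mLog X R + circleAverage (fun z => log⁺ ‖(X z)⁻¹‖) 0 R := by
    have i1 := Pool.Agent.Helper160.Nev.ci_posLog hR0.le hXR
    have i2 := Pool.Agent.Helper160.Nev.ci_posLog_inv hR0.le hXR
    unfold mLog
    simp only [norm_inv]
    rw [← circleAverage_fun_add i1 i2]
    congr 1
    funext z
    rw [posLog_apply, posLog_apply, Real.log_inv]
    rcases le_total 0 (Real.log ‖X z‖) with h | h
    · rw [abs_of_nonneg h, max_eq_right h, max_eq_left (by linarith)]; ring
    · rw [abs_of_nonpos h, max_eq_left h, max_eq_right (by linarith)]; ring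
  have e9 : circleAverage (fun z => |Real.log ‖X z‖|) 0 R ≤ 2 * M + |CJ| := by
    rw [e8]
    have := hCJ R (by linarith)
    have := le_abs_self CJ
    linarith
  have e9' : 0 ≤ circleAverage (fun z => |Real.log ‖X z‖|) 0 R :=
    circleAverage_nonneg_of_nonneg fun _ _ => abs_nonneg _
  -- the number of zeros
  have hXR' : MeromorphicOn X (closedBall 0 R') := ent_merOn hX _
  have hF := Pool.Agent.Helper160.Nev.zp_finite hXR'
  set G := (divisor_ball_support_finite (hmer ())).toFinset with hG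
  have hGsub : ∀ z ∈ G, z ∈ ball (0:ℂ) R := by
    intro u hu
    rw [hG, Set.Finite.mem_toFinset] at hu
    exact (divisor X (ball 0 R)).supportWithinDomain hu
  have f1 := Pool.Agent.Helper160.Nev.sum_mul_log_le (μ := zeroMult X) (R := R) (R' := R')
      (by linarith) hRR' hF.toFinset G
      (fun z hz => ((Set.Finite.mem_toFinset hF).1 hz).1)
      (fun z hz h => (Set.Finite.mem_toFinset hF).2
        (Pool.Agent.Helper160.Nev.zeroMult_mem z hz h))
      (Pool.Agent.Helper160.Nev.zeroMult_nonneg X) hGsub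
  have f2 : counting (zeroMult X) R' ≤ M + cc := by
    have h3 := Pool.Agent.Helper160.Nev.fmt hR'0 hXR'
    rw [charT_ent hX] at h3
    have h4 : 0 ≤ circleAverage (fun z => log⁺ (‖X z‖⁻¹)) 0 R' :=
      circleAverage_nonneg_of_nonneg fun _ _ => posLog_nonneg
    have h5 := neg_abs_le (Real.log ‖meromorphicTrailingCoeffAt X 0‖)
    rw [← hcc] at h5
    linarith
  have f3 : ∑ u ∈ G, |(divisor X (ball 0 R) u : ℝ)| = ∑ u ∈ G, (zeroMult X u : ℝ) := by
    apply Finset.sum_congr rfl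
    intro u hu
    rw [divisor_apply ((hmer ()).mono_set ball_subset_closedBall) (hGsub u hu)]
    have h6 := Pool.Agent.Helper160.Nev.zero_add_pole X u
    rw [poleMult_ent hX, add_zero] at h6
    have h5 : ((zeroMult X u : ℤ) : ℝ) = ((|(meromorphicOrderAt X u).untop₀| : ℤ) : ℝ) := by
      rw [h6]
    push_cast at h5
    rw [h5]
  have hnn : 0 ≤ ∑ u ∈ G, (zeroMult X u : ℝ) :=
    Finset.sum_nonneg fun u _ => by exact_mod_cast Pool.Agent.Helper160.Nev.zeroMult_nonneg X u
  have f4 : δ / (4 * r) ≤ Real.log (R' / R) := by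
    have h6 := Real.one_sub_inv_le_log_of_pos (x := R' / R) (by positivity)
    refine le_trans ?_ h6
    rw [inv_div]
    have h7 : 1 - R / R' = (R' - R) / R' := by field_simp
    rw [h7, div_le_div_iff₀ (by positivity) hR'0]
    have h8 : δ / 2 ≤ R' - R := by linarith
    have h9 : R' ≤ 2 * r := by linarith
    nlinarith
  have f5 : (∑ u ∈ G, (zeroMult X u : ℝ)) * (δ / (4 * r)) ≤ M + cc + m0 := by
    calc _ ≤ (∑ u ∈ G, (zeroMult X u : ℝ)) * Real.log (R' / R) := by gcongr
      _ ≤ _ := by rw [hm0]; linarith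
  have f6 : (∑ u ∈ G, (zeroMult X u : ℝ)) ≤ 4 * (r / δ) * (M + cc + m0) := by
    have : (∑ u ∈ G, (zeroMult X u : ℝ)) = ((∑ u ∈ G, (zeroMult X u : ℝ)) * (δ / (4 * r))) *
        (4 * (r / δ)) := by field_simp
    rw [this]
    have h4 : 0 ≤ 4 * (r / δ) := by positivity
    nlinarith
  -- collect
  have hrδ : 1 ≤ r / δ := by
    rw [le_div_iff₀ hδ]; linarith
  have g1 : 2 * R / (R ^ 2 - r ^ 2) ≤ 8 * (r / δ) := by
    have h1 : δ / 4 * R ≤ R ^ 2 - r ^ 2 := by nlinarith
    have h2 : 0 < δ / 4 * R := by positivity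
    calc 2 * R / (R ^ 2 - r ^ 2) ≤ 2 * R / (δ / 4 * R) := by gcongr
      _ = 8 * (1 / δ) := by field_simp; ring
      _ ≤ 8 * (r / δ) := by gcongr
  have g1' : 0 ≤ 2 * R / (R ^ 2 - r ^ 2) := by
    have h1 : 0 < R ^ 2 - r ^ 2 := by nlinarith
    positivity
  have g2 : 2 * R / (R ^ 2 - r ^ 2) * circleAverage (fun z => |Real.log ‖X z‖|) 0 R
      ≤ 8 * (r / δ) * (2 * M + |CJ|) := mul_le_mul g1 e9 e9' (by positivity)
  have g3 : ∑ u ∈ G, |(divisor X (ball 0 R) u : ℝ)| * (2 * K) ≤
      4 * (r / δ) * (M + cc + m0) * (2 * K) := by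
    rw [← Finset.sum_mul, f3]
    apply mul_le_mul_of_nonneg_right f6 (by positivity)
  have g4 : 1 + (1 + 2 * R / (R ^ 2 - r ^ 2) * circleAverage (fun z => |Real.log ‖X z‖|) 0 R +
      ∑ u ∈ G, |(divisor X (ball 0 R) u : ℝ)| * (2 * K)) ≤ C1 * (r * (1 + M) / δ) := by
    have e : C1 * (r * (1 + M) / δ) = (r / δ) * (C1 * (1 + M)) := by ring
    rw [e]
    have h1 : 1 + (1 + 2 * R / (R ^ 2 - r ^ 2) * circleAverage (fun z => |Real.log ‖X z‖|) 0 R +
      ∑ u ∈ G, |(divisor X (ball 0 R) u : ℝ)| * (2 * K)) ≤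
        (r / δ) * (2 + 8 * (2 * M + |CJ|) + 4 * (M + cc + m0) * (2 * K)) := by
      have e2 : (r / δ) * (2 + 8 * (2 * M + |CJ|) + 4 * (M + cc + m0) * (2 * K)) =
        2 * (r / δ) + 8 * (r / δ) * (2 * M + |CJ|) + 4 * (r / δ) * (M + cc + m0) * (2 * K) := by
        ring
      rw [e2]
      linarith
    refine h1.trans ?_
    apply mul_le_mul_of_nonneg_left _ (by positivity)
    have a1 : 0 ≤ M * |CJ| := by positivity
    have a2 : 0 ≤ K * cc := by positivity
    have a3 : 0 ≤ K * m0 := by positivity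
    have a4 : 0 ≤ M * (K * cc) := by positivity
    have a5 : 0 ≤ M * (K * m0) := by positivity
    have a6 : 0 ≤ M * K := by positivity
    have e3 : C1 * (1 + M) = 18 + 8 * |CJ| + 32 * K + 32 * (K * cc) + 32 * (K * m0) +
        (18 * M + 8 * (M * |CJ|) + 32 * (M * K) + 32 * (M * (K * cc)) + 32 * (M * (K * m0))) := by
      rw [hC1]; ring
    have e4 : 2 + 8 * (2 * M + |CJ|) + 4 * (M + cc + m0) * (2 * K) =
        2 + 16 * M + 8 * |CJ| + 8 * (M * K) + 8 * (K * cc) + 8 * (K * m0) := by ring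
    rw [e3, e4]
    linarith
  have g5 : 0 < 1 + (1 + 2 * R / (R ^ 2 - r ^ 2) * circleAverage (fun z => |Real.log ‖X z‖|) 0 R +
      ∑ u ∈ G, |(divisor X (ball 0 R) u : ℝ)| * (2 * K)) := by
    have h3 : 0 ≤ ∑ u ∈ G, |(divisor X (ball 0 R) u : ℝ)| * (2 * K) :=
      Finset.sum_nonneg fun _ _ => by positivity
    have := mul_nonneg g1' e9'
    linarith
  exact Real.log_le_log g5 g4

end Pool.Agent.N292.EF
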