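import Pool.Agent.N292.EF.LTwo

/-!
MP_bcf514_an: the logarithmic derivatives `L n = G (n+1) / G n = u n / (exp (δ n) - 1)`.
-/

namespace Pool.Agent.N292.EF

open Filter Topology Real Metric Set
open Pool.Agent.R876.SV

variable {r T : ℕ → ℝ} {N : ℕ} {G u δ : ℕ → ℂ → ℂ}

/-- `L n` -/
noncomputable def Lf (u δ : ℕ → ℂ → ℂ) (n : ℕ) (z : ℂ) : ℂ := u n z / (Complex.exp (δ n z) - 1)

/-- good points for the index `n` -/
def Om (u δ : ℕ → ℂ → ℂ) (n : ℕ) (z : ℂ) : Prop := u n z ≠ 0 ∧ Complex.exp (δ n z) - 1 ≠ 0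

theorem Sys.om_ev (S : Sys r T N G u δ) {n : ℕ} (hn : n ≤ N) (z : ℂ) :
    ∀ᶠ w in 𝓝[≠] z, Om u δ n w :=
  (ent_ne_nhdsNE (S.ub n hn).1 (S.une n hn) z).and (ent_ne_nhdsNE (S.Ad n) (S.Ane hn) z)

theorem Sys.om_open (S : Sys r T N G u δ) {n : ℕ} (hn : n ≤ N) {z : ℂ} (hz : Om u δ n z) :
    ∀ᶠ w in 𝓝 z, Om u δ n w :=
  ((S.ub n hn).1.continuous.continuousAt.eventually_ne hz.1).and
    ((S.Ad n).continuous.continuousAt.eventually_ne hz.2)

theorem Sys.L_deriv (S : Sys r T N G u δ) {n : ℕ} (hn : n < N) {z : ℂ} (hz : Om u δ n z)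
    (hz1 : Om u δ (n + 1) z) :
    HasDerivAt (Lf u δ n) (Lf u δ n z * (Lf u δ (n + 1) z - Lf u δ n z)) z := by
  have h1 := ((S.ub n hn.le).1 z).hasDerivAt.div ((S.Ader n z).sub_const 1) hz.2
  refine h1.congr_deriv ?_
  have h2 := S.ric hn z
  have h3 := hz.2
  have h4 := hz1.2
  unfold Lf
  rw [S.ustep n hn z]
  field_simp
  linear_combination h2

/-- the logarithmic derivative of `L n` -/
theorem Sys.L_log (S : Sys r T N G u δ) {n : ℕ} (hn : n < N) {z : ℂ} (hz : Om u δ n z)
    (hz1 : Om u δ (n + 1) z) :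
    deriv (u n) z / u n z - deriv (fun z => Complex.exp (δ n z) - 1) z / (Complex.exp (δ n z) - 1) =
      Lf u δ (n + 1) z - Lf u δ n z := by
  have h2 := S.ric hn z
  have h3 := hz.2
  have h4 := hz1.2
  have h5 := hz.1
  have h6 : deriv (fun z => Complex.exp (δ n z) - 1) z = deriv (δ n) z * Complex.exp (δ n z) :=
    ((S.Ader n z).sub_const 1).deriv
  rw [h6]
  unfold Lf
  rw [S.ustep n hn z]
  field_simp
  linear_combination h2

theorem Sys.ord_rel (S : Sys r T N G u δ) {n : ℕ} (hn : n ≤ N) (z : ℂ) :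
    ord (u n) z + ord (G n) z = ord (fun z => Complex.exp (δ n z) - 1) z + ord (G (n + 1)) z := by
  rw [← ord_mul (S.ub n hn).1 (S.une n hn) (S.Gd n) (S.Gne n (by omega)),
    ← ord_mul (S.Ad n) (S.Ane hn) (S.Gd (n + 1)) (S.Gne (n + 1) (by omega))]
  congr 1
  funext w
  exact S.rel n hn w

theorem Sys.ord_rel' (S : Sys r T N G u δ) {n : ℕ} (hn : n ≤ N) (z : ℂ) :
    (ord (u n) z : ℂ) - (ord (fun z => Complex.exp (δ n z) - 1) z : ℂ) =
      (ord (G (n + 1)) z : ℂ) - (ord (G n) z : ℂ) := by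
  have := S.ord_rel hn z
  have h : ((ord (u n) z + ord (G n) z : ℕ) : ℂ) =
    ((ord (fun z => Complex.exp (δ n z) - 1) z + ord (G (n + 1)) z : ℕ) : ℂ) := by rw [this]
  push_cast at h
  linear_combination h

/-- extension of identities from good points -/
theorem eq_of_good {F K : ℂ → ℂ} (hF : Continuous F) (hK : Continuous K) {p : ℂ → Prop}
    (hp : ∀ z, ∀ᶠ w in 𝓝[≠] z, p w) (h : ∀ z, p z → F z = K z) (z : ℂ) : F z = K z :=
  eq_of_eventually hF hK (fun z => (hp z).mono h) z

/-- First differences of `L` multiplied by a function killing the poles. -/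
theorem Sys.tau_one (S : Sys r T N G u δ) {n : ℕ} (hn : n < N) {φ : ℂ → ℂ} (hφ : SB r T φ)
    (hres : ∀ z, φ z = 0 ∨ ord (G (n + 1)) z = ord (G n) z) :
    ∃ P : ℂ → ℂ, SB r T P ∧ ∀ z, Om u δ n z → Om u δ (n + 1) z →
      P z = φ z * (Lf u δ (n + 1) z - Lf u δ n z) := by
  obtain ⟨P, hP, hPe⟩ := resid S.rad (Finset.univ : Finset (Fin 2))
    ![u n, fun z => Complex.exp (δ n z) - 1] ![1, -1] (by
      intro i _
      fin_cases i
      · exact S.ub n hn.le
      · exact S.Ab hn.le) (by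
      intro i _
      fin_cases i
      · exact S.une n hn.le
      · exact S.Ane hn.le) hφ (by
      intro z
      rcases hres z with h | h
      · left; exact h
      · right
        rw [Fin.sum_univ_two]
        simp only [Matrix.cons_val_zero, Matrix.cons_val_one, one_mul, neg_mul]
        have := S.ord_rel' hn.le z
        rw [h, sub_self] at this
        rw [← sub_eq_add_neg]
        exact this)
  refine ⟨P, hP, ?_⟩
  intro z hz hz1
  rw [hPe z (by
    intro i _
    fin_cases i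
    · exact hz.1
    · exact hz.2), Fin.sum_univ_two]
  simp only [Matrix.cons_val_zero, Matrix.cons_val_one, one_mul, neg_mul]
  rw [← S.L_log hn hz hz1]
  ring

/-- Second differences of `L`. -/
theorem Sys.tau_two (S : Sys r T N G u δ) {n m : ℕ} (hn : n < N) (hm : m < N) {φ : ℂ → ℂ}
    (hφ : SB r T φ)
    (hres : ∀ z, φ z = 0 ∨ (ord (G (m + 1)) z : ℤ) - ord (G m) z = ord (G (n + 1)) z - ord (G n) z) :
    ∃ P : ℂ → ℂ, SB r T P ∧ ∀ z, Om u δ n z → Om u δ (n + 1) z → Om u δ m z → Om u δ (m + 1) z →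
      P z = φ z * ((Lf u δ (m + 1) z - Lf u δ m z) - (Lf u δ (n + 1) z - Lf u δ n z)) := by
  obtain ⟨P, hP, hPe⟩ := resid S.rad (Finset.univ : Finset (Fin 4))
    ![u m, fun z => Complex.exp (δ m z) - 1, u n, fun z => Complex.exp (δ n z) - 1]
    ![1, -1, -1, 1] (by
      intro i _
      fin_cases i
      · exact S.ub m hm.le
      · exact S.Ab hm.le
      · exact S.ub n hn.le
      · exact S.Ab hn.le) (by
      intro i _
      fin_cases i
      · exact S.une m hm.le
      · exact S.Ane hm.le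
      · exact S.une n hn.le
      · exact S.Ane hn.le) hφ (by
      intro z
      rcases hres z with h | h
      · left; exact h
      · right
        rw [Fin.sum_univ_four]
        simp only [Matrix.cons_val_zero, Matrix.cons_val_one, Matrix.cons_val, one_mul, neg_mul]
        have h1 := S.ord_rel' hn.le z
        have h2 := S.ord_rel' hm.le z
        have h3 : ((ord (G (m + 1)) z : ℂ) - ord (G m) z) = ord (G (n + 1)) z - ord (G n) z := by
          exact_mod_cast h
        linear_combination h2 - h1 + h3)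
  refine ⟨P, hP, ?_⟩
  intro z hz hz1 hw hw1
  rw [hPe z (by
    intro i _
    fin_cases i
    · exact hw.1
    · exact hw.2
    · exact hz.1
    · exact hz.2), Fin.sum_univ_four]
  simp only [Matrix.cons_val_zero, Matrix.cons_val_one, Matrix.cons_val, one_mul, neg_mul]
  rw [← S.L_log hn hz hz1, ← S.L_log hm hw hw1]
  ring

end Pool.Agent.N292.EF
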