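import Pool.Agent.N292.EF.Key

/-!
MP_bcf514_an: the conclusion for one window of indices.
-/

namespace Pool.Agent.N292.EF

open Filter Topology Real Metric Set
open Pool.Agent.R876.SV

variable {r T : ℕ → ℝ} {N : ℕ} {G F u δ : ℕ → ℂ → ℂ}

/-- Borel's theorem for pairwise inequivalent exponentials. -/
theorem bw_indep (h : Rad r T) (s : Finset ℕ) (c g : ℕ → ℂ → ℂ) (hc : ∀ i ∈ s, SB r T (c i))
    (hg : ∀ i ∈ s, Differentiable ℂ (g i)) (hg' : ∀ i ∈ s, SB r T (deriv (g i)))
    (hn : ∀ i ∈ s, ∀ j ∈ s, i ≠ j → ¬ Ng r T (fun z => g i z - g j z))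
    (hrel : ∀ z, ∑ i ∈ s, c i z * Complex.exp (g i z) = 0) : ∀ i ∈ s, ∀ z, c i z = 0 := by
  classical
  intro k hk z
  by_contra hne
  set s' : Finset ℕ := s.filter (fun k => ∃ z, c k z ≠ 0) with hs
  have hks : k ∈ s' := Finset.mem_filter.2 ⟨hk, z, hne⟩
  have hsub : s' ⊆ s := Finset.filter_subset _ _
  have hsum : ∀ z, ∑ k ∈ s', c k z * Complex.exp (g k z) = 0 := by
    intro w
    rw [← hrel w]
    apply Finset.sum_subset hsub
    intro i hi hi'
    have : c i w = 0 := by
      by_contra hcon
      exact hi' (Finset.mem_filter.2 ⟨hi, w, hcon⟩)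
    rw [this, zero_mul]
  obtain ⟨i, hi, j, hj, hij, hneg⟩ := BW JE atTop r T h.scale s' c g ⟨k, hks⟩
    (fun i hi => (hc i (hsub hi)).2) (fun i hi => (Finset.mem_filter.1 hi).2)
    (fun i hi => hg i (hsub hi)) (fun i hi => (hg' i (hsub hi)).2) hsum
  exact hn i (hsub hi) j (hsub hj) hij hneg

theorem ric_split (S : Sys r T N G u δ) {n : ℕ} (hn : n < N) (z : ℂ) :
    (deriv (u n) z - deriv (δ n) z * u n z) * (Complex.exp (δ n z) * Complex.exp (δ (n + 1) z)) -
      (deriv (u n) z + u n z ^ 2) * Complex.exp (δ n z) -
      (deriv (u n) z - u n z ^ 2) * Complex.exp (δ (n + 1) z) +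
      (deriv (u n) z + deriv (δ n) z * u n z) = 0 := by
  have := S.ric hn z
  linear_combination this

/-- step (i) -/
theorem step_one (S : Sys r T N G u δ) (hu : ∀ n ≤ N, SB r T (u n)) {n : ℕ} (hn : n < N)
    (h1 : ¬ Ng r T (δ (n + 1))) : ¬ Ng r T (δ n) := by
  intro hng
  have h := S.rad
  have hE := SB.exp_of_ng h (S.δd n) (S.Eb n hn.le) (S.dsb n hn.le) hng
  have su := hu n hn.le
  have su' := su.deriv h
  have sd := S.dsb n hn.le
  obtain ⟨k1, k2⟩ := bw_two h (S.δd (n + 1)) (S.dsb (n + 1) (by omega)) h1
    (a := fun z => (deriv (u n) z + deriv (δ n) z * u n z) -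
      (deriv (u n) z + u n z ^ 2) * Complex.exp (δ n z))
    (b := fun z => (deriv (u n) z - deriv (δ n) z * u n z) * Complex.exp (δ n z) -
      (deriv (u n) z - u n z ^ 2))
    (SB.sub h (SB.add h su' (SB.mul h sd su)) (SB.mul h (SB.add h su' (su.pow h 2)) hE))
    (SB.sub h (SB.mul h (SB.sub h su' (SB.mul h sd su)) hE) (SB.sub h su' (su.pow h 2)))
    (by
      intro z
      have := ric_split S hn z
      linear_combination this)
  obtain ⟨w, hw⟩ := mul_ne_exists (S.Ad n) (su.diff.mul (hu (n + 1) (by omega)).diff)
    (S.Ane hn.le) (mul_ne_exists su.diff (hu (n + 1) (by omega)).diff (S.une n hn.le)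
      (S.une (n + 1) (by omega)))
  apply hw
  have e1 := k1 w
  have e2 := k2 w
  simp only [Pi.mul_apply, S.ustep n hn w]
  linear_combination -e1 - e2

/-- step (ii) -/
theorem step_two (S : Sys r T N G u δ) (hu : ∀ n ≤ N, SB r T (u n)) {n : ℕ} (hn : n < N)
    (h0 : ¬ Ng r T (δ n)) (h1 : ¬ Ng r T (δ (n + 1))) : False := by
  have h := S.rad
  have su := hu n hn.le
  have su' := su.deriv h
  have sd := S.dsb n hn.le
  have sd1 := S.dsb (n + 1) (by omega)
  have hδ := S.δd n
  have hδ1 := S.δd (n + 1)
  have hu0 := S.une n hn.le
  have hd0 := deriv_ne_of_not_ng h hδ h0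
  have hdsub : ∀ z, deriv (fun z => δ (n + 1) z - δ n z) z = deriv (δ (n + 1)) z - deriv (δ n) z :=
    fun z => deriv_fun_sub (hδ1 z) (hδ z)
  have hdadd : ∀ z, deriv (fun z => δ n z + δ (n + 1) z) z = deriv (δ n) z + deriv (δ (n + 1)) z :=
    fun z => deriv_fun_add (hδ z) (hδ1 z)
  have finish : (∀ z, deriv (u n) z + u n z ^ 2 = 0) → (∀ z, deriv (u n) z - u n z ^ 2 = 0) →
      False := by
    intro a b
    obtain ⟨w, hw⟩ := hu0
    apply hw
    have : u n w ^ 2 = 0 := by linear_combination (1 / 2) * a w - (1 / 2) * b w
    exact pow_eq_zero_iff two_ne_zero |>.1 this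
  by_cases hA : Ng r T (fun z => δ (n + 1) z - δ n z)
  · -- the two exponentials are equivalent
    have hB : SB r T (fun z => Complex.exp (δ (n + 1) z - δ n z)) := by
      apply SB.exp_of_ng h (hδ1.sub hδ) _ _ hA
      · apply Bd.quot h (hδ1.sub hδ).cexp (S.Eb (n + 1) (by omega)) (S.Eb n hn.le)
          ⟨0, Complex.exp_ne_zero _⟩
        intro z
        rw [← Complex.exp_add]
        congr 1
        simp only [Pi.sub_apply]
        ring
      · have : deriv (δ (n + 1) - δ n) =
            fun z => deriv (δ (n + 1)) z - deriv (δ n) z := funext hdsub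
        rw [this]
        exact SB.sub h sd1 sd
    obtain ⟨k1, -, k3⟩ := bw_three h hδ sd h0
      (a := fun z => (deriv (u n) z + deriv (δ n) z * u n z))
      (b := fun z => -(deriv (u n) z + u n z ^ 2) -
        (deriv (u n) z - u n z ^ 2) * Complex.exp (δ (n + 1) z - δ n z))
      (c := fun z => (deriv (u n) z - deriv (δ n) z * u n z) * Complex.exp (δ (n + 1) z - δ n z))
      (SB.add h su' (SB.mul h sd su))
      (SB.sub h (SB.neg h (SB.add h su' (su.pow h 2))) (SB.mul h (SB.sub h su' (su.pow h 2)) hB))
      (SB.mul h (SB.sub h su' (SB.mul h sd su)) hB)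
      (by
        intro z
        have e := ric_split S hn z
        have e2 : Complex.exp (δ (n + 1) z) =
            Complex.exp (δ (n + 1) z - δ n z) * Complex.exp (δ n z) := by
          rw [← Complex.exp_add]; congr 1; ring
        rw [e2] at e
        linear_combination e)
    obtain ⟨w, hw⟩ := mul_ne_exists sd.diff su.diff hd0 hu0
    apply hw
    have e1 := k1 w
    have e3 := (mul_eq_zero.1 (k3 w)).resolve_right (Complex.exp_ne_zero _)
    linear_combination (1 / 2) * e1 - (1 / 2) * e3
  · have hA' : ¬ Ng r T (fun z => δ n z - δ (n + 1) z) := by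
      intro hc
      apply hA
      have := Ng.smul (-1) hc
      refine this.congr (fun n => ?_)
      congr 2
      funext z
      push_cast
      ring
    have neg0 : ∀ {g : ℂ → ℂ}, ¬ Ng r T g → ¬ Ng r T (fun z => - g z) := by
      intro g hg hc
      apply hg
      have := Ng.smul (-1) hc
      refine this.congr (fun n => ?_)
      congr 2
      funext z
      push_cast
      ring
    by_cases hS : Ng r T (fun z => δ n z + δ (n + 1) z)
    · have hB : SB r T (fun z => Complex.exp (δ n z + δ (n + 1) z)) := by
        apply SB.exp_of_ng h (hδ.add hδ1) _ _ hS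
        · have := Bd.mul h (S.Eb n hn.le) (S.Eb (n + 1) (by omega))
          have e : (fun z => Complex.exp ((δ n + δ (n + 1)) z)) =
              fun z => Complex.exp (δ n z) * Complex.exp (δ (n + 1) z) := by
            funext z
            rw [← Complex.exp_add]
            rfl
          rw [e]
          exact this
        · have : deriv (δ n + δ (n + 1)) =
              fun z => deriv (δ n) z + deriv (δ (n + 1)) z := funext hdadd
          rw [this]
          exact SB.add h sd sd1
      set c : ℕ → ℂ → ℂ := fun i => if i = 0 then
        (fun z => (deriv (u n) z - deriv (δ n) z * u n z) * Complex.exp (δ n z + δ (n + 1) z) +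
          (deriv (u n) z + deriv (δ n) z * u n z))
        else if i = 1 then (fun z => -(deriv (u n) z + u n z ^ 2))
        else (fun z => -(deriv (u n) z - u n z ^ 2)) with hc
      set g : ℕ → ℂ → ℂ := fun i => if i = 0 then (fun _ => 0) else if i = 1 then δ n
        else δ (n + 1) with hg
      have key := bw_indep h {0, 1, 2} c g (by
          intro i hi
          simp only [Finset.mem_insert, Finset.mem_singleton] at hi
          rcases hi with rfl | rfl | rfl
          · simp only [hc, if_true]
            exact SB.add h (SB.mul h (SB.sub h su' (SB.mul h sd su)) hB)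
              (SB.add h su' (SB.mul h sd su))
          · simp only [hc, one_ne_zero, if_false, if_true]
            exact SB.neg h (SB.add h su' (su.pow h 2))
          · simp only [hc, OfNat.ofNat_ne_zero, OfNat.ofNat_ne_one, if_false]
            exact SB.neg h (SB.sub h su' (su.pow h 2)))
        (by
          intro i hi
          simp only [Finset.mem_insert, Finset.mem_singleton] at hi
          rcases hi with rfl | rfl | rfl
          · simp [hg]
          · simp only [hg, one_ne_zero, if_false, if_true]; exact hδ
          · simp only [hg, OfNat.ofNat_ne_zero, OfNat.ofNat_ne_one, if_false]; exact hδ1)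
        (by
          intro i hi
          simp only [Finset.mem_insert, Finset.mem_singleton] at hi
          rcases hi with rfl | rfl | rfl
          · simp only [hg, if_true, deriv_const']
            exact SB.const h 0
          · simp only [hg, one_ne_zero, if_false, if_true]; exact sd
          · simp only [hg, OfNat.ofNat_ne_zero, OfNat.ofNat_ne_one, if_false]; exact sd1)
        (by
          intro i hi j hj hij
          simp only [Finset.mem_insert, Finset.mem_singleton] at hi hj
          rcases hi with rfl | rfl | rfl <;> rcases hj with rfl | rfl | rfl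
          · exact absurd rfl hij
          · simpa [hg] using neg0 h0
          · simpa [hg] using neg0 h1
          · simpa [hg] using h0
          · exact absurd rfl hij
          · simpa [hg] using hA'
          · simpa [hg] using h1
          · simpa [hg] using hA
          · exact absurd rfl hij)
        (by
          intro z
          rw [Finset.sum_insert (by decide), Finset.sum_insert (by decide), Finset.sum_singleton]
          simp only [hc, hg, if_true, one_ne_zero, if_false, OfNat.ofNat_ne_zero,
            OfNat.ofNat_ne_one, Complex.exp_zero, Complex.exp_add]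
          linear_combination ric_split S hn z)
      apply finish
      · intro z
        have := key 1 (by simp) z
        simp only [hc, one_ne_zero, if_false, if_true] at this
        exact neg_eq_zero.1 this
      · intro z
        have := key 2 (by simp) z
        simp only [hc, OfNat.ofNat_ne_zero, OfNat.ofNat_ne_one, if_false] at this
        exact neg_eq_zero.1 this
    · set c : ℕ → ℂ → ℂ := fun i => if i = 0 then
        (fun z => (deriv (u n) z + deriv (δ n) z * u n z))
        else if i = 1 then (fun z => -(deriv (u n) z + u n z ^ 2))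
        else if i = 2 then (fun z => -(deriv (u n) z - u n z ^ 2))
        else (fun z => (deriv (u n) z - deriv (δ n) z * u n z)) with hc
      set g : ℕ → ℂ → ℂ := fun i => if i = 0 then (fun _ => 0) else if i = 1 then δ n
        else if i = 2 then δ (n + 1) else (fun z => δ n z + δ (n + 1) z) with hg
      have key := bw_indep h {0, 1, 2, 3} c g (by
          intro i hi
          simp only [Finset.mem_insert, Finset.mem_singleton] at hi
          rcases hi with rfl | rfl | rfl | rfl
          · simp only [hc, if_true]
            exact SB.add h su' (SB.mul h sd su)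
          · simp only [hc, one_ne_zero, if_false, if_true]
            exact SB.neg h (SB.add h su' (su.pow h 2))
          · simp only [hc, OfNat.ofNat_ne_zero, OfNat.ofNat_ne_one, if_false, if_true]
            exact SB.neg h (SB.sub h su' (su.pow h 2))
          · simp only [hc, OfNat.ofNat_ne_zero, OfNat.ofNat_ne_one, if_false,
              show (3 : ℕ) ≠ 2 by decide]
            exact SB.sub h su' (SB.mul h sd su))
        (by
          intro i hi
          simp only [Finset.mem_insert, Finset.mem_singleton] at hi
          rcases hi with rfl | rfl | rfl | rfl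
          · simp [hg]
          · simp only [hg, one_ne_zero, if_false, if_true]; exact hδ
          · simp only [hg, OfNat.ofNat_ne_zero, OfNat.ofNat_ne_one, if_false, if_true]; exact hδ1
          · simp only [hg, OfNat.ofNat_ne_zero, OfNat.ofNat_ne_one, if_false,
              show (3 : ℕ) ≠ 2 by decide]
            exact hδ.add hδ1)
        (by
          intro i hi
          simp only [Finset.mem_insert, Finset.mem_singleton] at hi
          rcases hi with rfl | rfl | rfl | rfl
          · simp only [hg, if_true, deriv_const']
            exact SB.const h 0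
          · simp only [hg, one_ne_zero, if_false, if_true]; exact sd
          · simp only [hg, OfNat.ofNat_ne_zero, OfNat.ofNat_ne_one, if_false, if_true]; exact sd1
          · simp only [hg, OfNat.ofNat_ne_zero, OfNat.ofNat_ne_one, if_false,
              show (3 : ℕ) ≠ 2 by decide]
            have : deriv (fun z => δ n z + δ (n + 1) z) =
              fun z => deriv (δ n) z + deriv (δ (n + 1)) z := funext hdadd
            rw [this]
            exact SB.add h sd sd1)
        (by
          have hsumneg := neg0 hS
          intro i hi j hj hij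
          simp only [Finset.mem_insert, Finset.mem_singleton] at hi hj
          rcases hi with rfl | rfl | rfl | rfl <;> rcases hj with rfl | rfl | rfl | rfl
          · exact absurd rfl hij
          · simpa [hg] using neg0 h0
          · simpa [hg] using neg0 h1
          · simpa [hg] using hsumneg
          · simpa [hg] using h0
          · exact absurd rfl hij
          · simpa [hg] using hA'
          · simpa [hg] using neg0 h1
          · simpa [hg] using h1
          · simpa [hg] using hA
          · exact absurd rfl hij
          · have e : (fun z => δ (n + 1) z - (δ n z + δ (n + 1) z)) = fun z => - δ n z := by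
              funext z; ring
            simp only [hg, OfNat.ofNat_ne_zero, OfNat.ofNat_ne_one, if_false, if_true,
              show (3 : ℕ) ≠ 2 by decide, e]
            exact neg0 h0
          · simpa [hg] using hS
          · simpa [hg] using h1
          · simpa [hg] using h0
          · exact absurd rfl hij)
        (by
          intro z
          rw [Finset.sum_insert (by decide), Finset.sum_insert (by decide),
            Finset.sum_insert (by decide), Finset.sum_singleton]
          simp only [hc, hg, if_true, one_ne_zero, if_false, OfNat.ofNat_ne_zero,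
            OfNat.ofNat_ne_one, Complex.exp_zero, Complex.exp_add, show (3 : ℕ) ≠ 2 by decide]
          linear_combination ric_split S hn z)
      apply finish
      · intro z
        have := key 1 (by simp) z
        simp only [hc, one_ne_zero, if_false, if_true] at this
        exact neg_eq_zero.1 this
      · intro z
        have := key 2 (by simp) z
        simp only [hc, OfNat.ofNat_ne_zero, OfNat.ofNat_ne_one, if_false, if_true] at this
        exact neg_eq_zero.1 this

/-- the conclusion for one window -/
theorem main_window (S : Sys r T N G u δ)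
    (S' : Sys r T N F (fun n z => - u n z) (fun n z => - δ n z))
    (hord : ∀ n ≤ N + 1, ∀ z, ord (F n) z = ord (G n) z) (hN : 9 ≤ N)
    (hex : ∃ m ≤ N, ¬ Ng r T (δ m)) :
    (∀ z, u 0 z = deriv (δ 0) z) ∧ ∃ z, deriv (δ 1) z ≠ 2 * deriv (δ 0) z := by
  have h := S.rad
  have hu := key S S' hord hN
  obtain ⟨m, hm, hmn⟩ := hex
  have down : ∀ j, j ≤ m → ¬ Ng r T (δ (m - j)) := by
    intro j
    induction j with
    | zero => intro _; exact hmn
    | succ j ih =>
      intro hj
      apply step_one S hu (n := m - (j + 1)) (by omega)
      have := ih (by omega)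
      rwa [show m - (j + 1) + 1 = m - j by omega]
  have h0 : ¬ Ng r T (δ 0) := by
    have := down m le_rfl
    rwa [Nat.sub_self] at this
  have h1 : Ng r T (δ 1) := by
    by_contra hc
    exact step_two S hu (n := 0) (by omega) h0 hc
  have hE := SB.exp_of_ng h (S.δd 1) (S.Eb 1 (by omega)) (S.dsb 1 (by omega)) h1
  have su := hu 0 (by omega)
  have su' := su.deriv h
  have sd := S.dsb 0 (by omega)
  obtain ⟨k1, k2⟩ := bw_two h (S.δd 0) sd h0
    (a := fun z => (deriv (u 0) z + deriv (δ 0) z * u 0 z) -
      (deriv (u 0) z - u 0 z ^ 2) * Complex.exp (δ 1 z))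
    (b := fun z => (deriv (u 0) z - deriv (δ 0) z * u 0 z) * Complex.exp (δ 1 z) -
      (deriv (u 0) z + u 0 z ^ 2))
    (SB.sub h (SB.add h su' (SB.mul h sd su)) (SB.mul h (SB.sub h su' (su.pow h 2)) hE))
    (SB.sub h (SB.mul h (SB.sub h su' (SB.mul h sd su)) hE) (SB.add h su' (su.pow h 2)))
    (by
      intro z
      have := ric_split S (n := 0) (by omega) z
      simp only [zero_add] at this
      linear_combination this)
  have hu1 : Differentiable ℂ (u 1) := (hu 1 (by omega)).diff
  have e1 : ∀ z, u 0 z - deriv (δ 0) z = 0 := by
    have a1 : ∀ z, u 1 z * (u 0 z - deriv (δ 0) z) = 0 := by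
      have a2 : ∀ z, u 0 z ^ 2 * (u 1 z * (u 0 z - deriv (δ 0) z)) = 0 := by
        intro z
        have s := S.ustep 0 (by omega) z
        rw [zero_add] at s
        have p1 := k1 z
        have p2 := k2 z
        rw [s]
        linear_combination (deriv (u 0) z - deriv (δ 0) z * u 0 z) * p1 +
          (deriv (u 0) z - u 0 z ^ 2) * p2
      have hsq : ∃ z, u 0 z ^ 2 ≠ 0 := by
        obtain ⟨w, hw⟩ := S.une 0 (by omega)
        exact ⟨w, pow_ne_zero 2 hw⟩
      exact mul_eq_zero_ent (su.diff.pow 2) (hu1.mul (su.diff.sub sd.diff)) hsq a2
    exact mul_eq_zero_ent hu1 (su.diff.sub sd.diff) (S.une 1 (by omega)) a1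
  refine ⟨fun z => sub_eq_zero.1 (e1 z), ?_⟩
  by_contra hc
  push Not at hc
  apply h0
  have hconst : ∀ z, δ 1 z - 2 * δ 0 z = δ 1 0 - 2 * δ 0 0 := by
    intro z
    apply is_const_of_deriv_eq_zero (f := fun z => δ 1 z - 2 * δ 0 z)
    · exact (S.δd _).sub ((S.δd _).const_mul 2)
    · intro w
      rw [deriv_fun_sub (S.δd _ w) ((S.δd _ w).const_mul 2), deriv_const_mul _ (S.δd _ w), hc w,
        sub_self]
  have h2 : Ng r T (fun z => ((1 / 2 : ℝ) : ℂ) * (δ 1 z - (δ 1 0 - 2 * δ 0 0))) :=
    Ng.smul (1 / 2) (Ng.sub h (S.δd 1).continuous continuous_const h1 (Ng.const h _))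
  refine h2.congr (fun n => ?_)
  congr 2
  funext z
  have := hconst z
  push_cast
  linear_combination (1 / 2) * this

end Pool.Agent.N292.EF
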