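import Pool.Agent.N292.EF.MainL
import Pool.Agent.R876.SV.GR

/-!
MP_bcf514_an: construction of the radii, and the window statement for entire functions.
-/

namespace Pool.Agent.N292.EF

open Filter Topology Real Metric Set
open Pool.Agent.R876.SV

/-- the mean of `|Re g|` grows at least linearly for a nonconstant entire function -/
theorem mRe_linear {g : ℂ → ℂ} (hg : Differentiable ℂ g) (hd : ∃ z, deriv g z ≠ 0) :
    ∃ c C : ℝ, 0 < c ∧ ∀ t : ℝ, 1 ≤ t → c * t - C ≤ mRe g t := by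
  obtain ⟨w, hw⟩ := hd
  have hw0 : 0 < ‖deriv g w‖ := norm_pos_iff.2 hw
  refine ⟨‖deriv g w‖ / 128, ‖deriv g w‖ * ‖w‖ + (1 + ‖g 0‖) + ‖deriv g w‖, by positivity, ?_⟩
  intro t ht
  have hm0 : 0 ≤ mRe g t := SMaux.mRe_nonneg _ _
  rcases le_or_gt (t / 2) (‖w‖ + 1) with h1 | h1
  · have : ‖deriv g w‖ / 128 * t ≤ ‖deriv g w‖ * ‖w‖ + ‖deriv g w‖ := by nlinarith
    have := norm_nonneg (g 0)
    linarith
  · have ht0 : 0 < t := by linarith
    have hb : ∀ z : ℂ, ‖z‖ ≤ t / 2 → ‖g z‖ ≤ 64 * mRe g t + 8 * (1 + ‖g 0‖) := by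
      intro z hz
      have := gr_bound hg (ρ := t / 2) (R := t) (K := 2) (by positivity) (by linarith)
        (by rw [div_le_iff₀ (by linarith)]; linarith) hz
      linarith
    have hs : 0 < t / 2 - ‖w‖ := by linarith
    have hcauchy : ‖deriv g w‖ ≤ (64 * mRe g t + 8 * (1 + ‖g 0‖)) / (t / 2 - ‖w‖) := by
      apply Complex.norm_deriv_le_of_forall_mem_sphere_norm_le hs hg.diffContOnCl
      intro z hz
      apply hb
      rw [mem_sphere_iff_norm] at hz
      calc ‖z‖ = ‖(z - w) + w‖ := by congr 1; ring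
        _ ≤ ‖z - w‖ + ‖w‖ := norm_add_le _ _
        _ = t / 2 := by rw [hz]; ring
    rw [le_div_iff₀ hs] at hcauchy
    have h8 := norm_nonneg (g 0)
    have h9 : 0 ≤ ‖deriv g w‖ * ‖w‖ := by positivity
    nlinarith

theorem mRe_eq {g : ℂ → ℂ} (hg : Differentiable ℂ g) (t : ℝ) :
    mRe g t = 2 * mLog (fun z => Complex.exp (g z)) t - (g 0).re := RE g hg t

theorem mRe_mono {g : ℂ → ℂ} (hg : Differentiable ℂ g) {s t : ℝ} (hs : 0 < s) (hst : s ≤ t) :
    mRe g s ≤ mRe g t := by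
  rw [mRe_eq hg, mRe_eq hg]
  have := mLog_mono hg.cexp hs hst
  linarith

theorem log_div_tendsto {φ : ℝ → ℝ} {c C : ℝ} (hc : 0 < c) (hφ1 : ∀ t, 1 ≤ φ t)
    (hφ : ∀ t : ℝ, 1 ≤ t → c * t - C ≤ φ t) {s : ℕ → ℝ} (hs : ∀ n, 1 ≤ s n)
    (hs' : Tendsto s atTop atTop) :
    Tendsto (fun n => φ (s n)) atTop atTop ∧
      Tendsto (fun n => Real.log (s n) / φ (s n)) atTop (𝓝 0) := by
  have h1 : Tendsto (fun n => c * s n - C) atTop atTop := by
    have := (hs'.const_mul_atTop hc)
    exact tendsto_atTop_add_const_right _ (-C) this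
  have h2 : Tendsto (fun n => φ (s n)) atTop atTop :=
    tendsto_atTop_mono (fun n => hφ (s n) (hs n)) h1
  refine ⟨h2, ?_⟩
  -- log s / φ(s) ≤ (2/c) * log s / s eventually
  have h3 : Tendsto (fun n => (2 / c) * (Real.log (s n) / s n)) atTop (𝓝 0) := by
    have h4 : Tendsto (fun x : ℝ => Real.log x / x) atTop (𝓝 0) :=
      Real.isLittleO_log_id_atTop.tendsto_div_nhds_zero
    have := (h4.comp hs').const_mul (2 / c)
    rwa [mul_zero] at this
  have h5 : ∀ᶠ n in atTop, 2 * C / c ≤ s n := hs'.eventually_ge_atTop _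
  refine squeeze_zero' ?_ ?_ h3
  · filter_upwards with n
    exact div_nonneg (Real.log_nonneg (hs n)) (by linarith [hφ1 (s n)])
  · filter_upwards [h5] with n hn
    have hsn := hs n
    have h6 : c * s n / 2 ≤ φ (s n) := by
      have h7 := hφ (s n) hsn
      rw [div_le_iff₀ hc] at hn
      nlinarith
    have h8 : 0 ≤ Real.log (s n) := Real.log_nonneg hsn
    have h9 : 0 < c * s n / 2 := by positivity
    calc Real.log (s n) / φ (s n) ≤ Real.log (s n) / (c * s n / 2) := by gcongr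
      _ = (2 / c) * (Real.log (s n) / s n) := by field_simp

/-- good radii for a monotone function of at least linear growth -/
theorem exists_rad {φ : ℝ → ℝ} (hm : ∀ s t : ℝ, 1 ≤ s → s ≤ t → φ s ≤ φ t) (hφ1 : ∀ t, 1 ≤ φ t)
    {c C : ℝ} (hc : 0 < c) (hφ : ∀ t : ℝ, 1 ≤ t → c * t - C ≤ φ t) :
    ∃ r : ℕ → ℝ, Rad r (fun n => φ (r n)) ∧ ∀ n, φ (r n + 1 / φ (r n)) ≤ 2 * φ (r n) := by
  set ψ : ℝ → ℝ := fun t => φ (max t 1) with hψ
  have hψm : Monotone ψ := by
    intro s t hst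
    exact hm _ _ (le_max_right _ _) (max_le_max_right _ hst)
  have hsel : ∀ n : ℕ, ∃ s, (n : ℝ) + 1 ≤ s ∧ ψ (s + 1 / ψ s) ≤ 2 * ψ s := fun n =>
    gr_borel ψ hψm ((n : ℝ) + 1) (hφ1 _)
  choose s hs1 hs2 using hsel
  have hs0 : ∀ n, 1 ≤ s n := fun n => by
    have := hs1 n
    have : (0:ℝ) ≤ n := Nat.cast_nonneg n
    linarith
  have hstop : Tendsto s atTop atTop :=
    tendsto_atTop_mono (fun n => by linarith [hs1 n]) tendsto_natCast_atTop_atTop
  obtain ⟨h1, h2⟩ := log_div_tendsto hc hφ1 hφ hs0 hstop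
  refine ⟨s, ⟨hs0, fun n => hφ1 _, h1, h2⟩, ?_⟩
  intro n
  have h3 := hs2 n
  have e1 : ψ (s n) = φ (s n) := by simp only [hψ]; rw [max_eq_left (hs0 n)]
  have hp : 0 < φ (s n) := lt_of_lt_of_le one_pos (hφ1 _)
  have hd : 0 < 1 / φ (s n) := by positivity
  rw [e1] at h3
  have e2 : ψ (s n + 1 / φ (s n)) = φ (s n + 1 / φ (s n)) := by
    simp only [hψ]
    rw [max_eq_left (by linarith [hs0 n])]
  rwa [e2] at h3

/-- Statement for one window, without radii. -/
theorem window {N : ℕ} {G F γ : ℕ → ℂ → ℂ} (hN : 9 ≤ N)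
    (hG : ∀ n, Differentiable ℂ (G n)) (hG' : ∀ n z, deriv (G n) z = G (n + 1) z)
    (hF : ∀ n, Differentiable ℂ (F n)) (hF' : ∀ n z, deriv (F n) z = F (n + 1) z)
    (hG0 : ∀ n ≤ N + 1, ∃ z, G n z ≠ 0)
    (hγ : ∀ n, Differentiable ℂ (γ n))
    (hFG : ∀ n ≤ N + 1, ∀ z, F n z = Complex.exp (γ n z) * G n z)
    (hu0 : ∀ n ≤ N, ∃ z, deriv (γ n) z ≠ 0)
    (hnc : ∃ n ≤ N, ∃ z, deriv (γ (n + 1)) z ≠ deriv (γ n) z) :
    (∀ z, deriv (γ 1) z = 2 * deriv (γ 0) z) ∧
      ∃ z, deriv (γ 2) z - deriv (γ 1) z ≠ 2 * (deriv (γ 1) z - deriv (γ 0) z) := by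
  classical
  set δ : ℕ → ℂ → ℂ := fun n z => γ (n + 1) z - γ n z with hδ
  set u : ℕ → ℂ → ℂ := fun n => deriv (γ n) with hu
  have hδd : ∀ n, Differentiable ℂ (δ n) := fun n => (hγ (n + 1)).sub (hγ n)
  have hδ' : ∀ n z, deriv (δ n) z = u (n + 1) z - u n z := fun n z =>
    deriv_fun_sub (hγ (n + 1) z) (hγ n z)
  have hud : ∀ n, Differentiable ℂ (u n) := fun n => SMaux.entire_deriv (hγ n)
  -- the scale
  set φ : ℝ → ℝ := fun t => 1 + ∑ i ∈ Finset.range (N + 1), mRe (δ i) t + mLog (u 0) t with hφ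
  have hmR : ∀ i t, 0 ≤ mRe (δ i) t := fun i t => SMaux.mRe_nonneg _ _
  have hsum0 : ∀ t, 0 ≤ ∑ i ∈ Finset.range (N + 1), mRe (δ i) t := fun t =>
    Finset.sum_nonneg fun i _ => hmR i t
  have hφ1 : ∀ t, 1 ≤ φ t := by
    intro t
    have := hsum0 t
    have : 0 ≤ mLog (u 0) t := SMaux.mLog_nonneg _ _
    simp only [hφ]
    linarith
  have hφm : ∀ s t : ℝ, 1 ≤ s → s ≤ t → φ s ≤ φ t := by
    intro s t hs hst
    have h1 : ∑ i ∈ Finset.range (N + 1), mRe (δ i) s ≤ ∑ i ∈ Finset.range (N + 1), mRe (δ i) t :=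
      Finset.sum_le_sum fun i _ => mRe_mono (hδd i) (by linarith) hst
    have h2 := mLog_mono (hud 0) (by linarith : 0 < s) hst
    simp only [hφ]
    linarith
  have hφi : ∀ i ≤ N, ∀ t, mRe (δ i) t ≤ φ t := by
    intro i hi t
    have h1 : mRe (δ i) t ≤ ∑ i ∈ Finset.range (N + 1), mRe (δ i) t :=
      Finset.single_le_sum (f := fun i => mRe (δ i) t) (fun i _ => hmR i t)
        (Finset.mem_range.2 (by omega))
    have : 0 ≤ mLog (u 0) t := SMaux.mLog_nonneg _ _
    simp only [hφ]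
    linarith
  have hφu : ∀ t, mLog (u 0) t ≤ φ t := by
    intro t
    have := hsum0 t
    simp only [hφ]
    linarith
  obtain ⟨k, hk, w, hw⟩ := hnc
  have hk' : ∃ z, deriv (δ k) z ≠ 0 := ⟨w, by rw [hδ']; exact sub_ne_zero.2 hw⟩
  obtain ⟨c, C, hc, hcC⟩ := mRe_linear (hδd k) hk'
  obtain ⟨r, hR, hr2⟩ := exists_rad hφm hφ1 hc (fun t ht => (hcC t ht).trans (hφi k hk t))
  set T : ℕ → ℝ := fun n => φ (r n) with hT
  -- growth
  have hrho : ∀ n, φ (rho r T 0 n) ≤ 2 * T n := by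
    intro n
    have := hr2 n
    unfold rho
    simpa [hT] using this
  have bdE : ∀ (g : ℂ → ℂ), Differentiable ℂ g → (∀ t, mRe g t ≤ φ t) →
      Bd r T (fun z => Complex.exp (g z)) := by
    intro g hg hgφ
    apply Bd.of_le hR (Z := fun z => Complex.exp (g z)) hg.cexp 0 1 1 |(g 0).re| (by norm_num)
      (abs_nonneg _)
    intro n
    have h1 := mRe_eq hg (rho r T 0 n)
    have h2 := hgφ (rho r T 0 n)
    have h3 := hrho n
    have h4 := le_abs_self (g 0).re
    have h5 := abs_nonneg (g 0).re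
    rw [pow_one]
    linarith
  have bdu : Bd r T (u 0) := by
    apply Bd.of_le hR (Z := u 0) (hud 0) 0 1 2 0 (by norm_num) le_rfl
    intro n
    have h2 := hφu (rho r T 0 n)
    have h3 := hrho n
    rw [pow_one]
    linarith
  have sbd : ∀ (g : ℂ → ℂ), Differentiable ℂ g → Bd r T (fun z => Complex.exp (g z)) →
      SB r T (deriv g) := by
    intro g hg hE
    have hder : ∀ z, deriv (fun z => Complex.exp (g z)) z = Complex.exp (g z) * deriv g z :=
      fun z => (hg z).hasDerivAt.cexp.deriv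
    have hB : Bd r T (deriv g) := by
      apply Bd.quot hR (SMaux.entire_deriv hg) (hE.deriv hR) hE ⟨0, Complex.exp_ne_zero _⟩
      intro z
      rw [hder z]
      ring
    apply SB.of_bd hR hB
    have h1 := logDeriv_small hR hE ⟨0, Complex.exp_ne_zero _⟩
    have h2 : logDeriv (fun z => Complex.exp (g z)) = deriv g := by
      funext z
      rw [logDeriv_apply, hder z]
      field_simp
    rwa [h2] at h1
  have hEb : ∀ n ≤ N, Bd r T (fun z => Complex.exp (δ n z)) := fun n hn =>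
    bdE (δ n) (hδd n) (hφi n hn)
  have hmneg : ∀ n t, mRe (fun z => - δ n z) t = mRe (δ n) t := by
    intro n t
    unfold mRe
    congr 1
    funext z
    rw [Complex.neg_re, abs_neg]
  have hEb' : ∀ n ≤ N, Bd r T (fun z => Complex.exp (- δ n z)) := fun n hn =>
    bdE (fun z => - δ n z) (hδd n).neg (fun t => by rw [hmneg]; exact hφi n hn t)
  have hdsb : ∀ n ≤ N, SB r T (deriv (δ n)) := fun n hn => sbd (δ n) (hδd n) (hEb n hn)
  have hub : ∀ n ≤ N, Bd r T (u n) := by
    intro n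
    induction n with
    | zero => intro _; exact bdu
    | succ n ih =>
      intro hn
      have h1 := Bd.add hR (ih (by omega)) (hdsb n (by omega)).1
      have e : u (n + 1) = fun z => u n z + deriv (δ n) z := by
        funext z
        rw [hδ']
        ring
      rw [e]
      exact h1
  have hder1 : ∀ n ≤ N, ∀ z, F (n + 1) z = Complex.exp (γ n z) * (u n z * G n z + G (n + 1) z) := by
    intro n hn z
    have h1 : F n = fun z => Complex.exp (γ n z) * G n z := funext (hFG n (by omega))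
    rw [← hF' n z, h1]
    have h2 : HasDerivAt (fun z => Complex.exp (γ n z) * G n z)
        (Complex.exp (γ n z) * u n z * G n z + Complex.exp (γ n z) * G (n + 1) z) z := by
      have := ((hγ n z).hasDerivAt.cexp).mul (hG n z).hasDerivAt
      rwa [hG' n z] at this
    rw [h2.deriv]
    ring
  have hAexp : ∀ n z, Complex.exp (γ (n + 1) z) = Complex.exp (γ n z) * Complex.exp (δ n z) := by
    intro n z
    rw [← Complex.exp_add]
    congr 1
    simp only [hδ]
    ring
  have hrel : ∀ n ≤ N, ∀ z, u n z * G n z = (Complex.exp (δ n z) - 1) * G (n + 1) z := by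
    intro n hn z
    have h1 := hder1 n hn z
    rw [hFG (n + 1) (by omega) z, hAexp n z] at h1
    apply mul_left_cancel₀ (Complex.exp_ne_zero (γ n z))
    linear_combination -h1
  have hF0 : ∀ n ≤ N + 1, ∃ z, F n z ≠ 0 := by
    intro n hn
    obtain ⟨w, hw⟩ := hG0 n hn
    exact ⟨w, by rw [hFG n hn w]; exact mul_ne_zero (Complex.exp_ne_zero _) hw⟩
  have S : Sys r T N G u δ := by
    refine ⟨hR, hG, hG', hG0, hδd, hub, hu0, hdsb, hEb, ?_, hrel⟩
    intro n _ z
    rw [hδ']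
    ring
  have hneg : ∀ n z, deriv (fun z => - δ n z) z = - deriv (δ n) z := fun n z => deriv.fun_neg
  have S' : Sys r T N F (fun n z => - u n z) (fun n z => - δ n z) := by
    refine ⟨hR, hF, hF', hF0, fun n => (hδd n).neg, fun n hn => Bd.neg hR (hub n hn), ?_, ?_, ?_,
      ?_, ?_⟩
    · intro n hn
      obtain ⟨w, hw⟩ := hu0 n hn
      exact ⟨w, neg_ne_zero.2 hw⟩
    · intro n hn
      have : deriv (fun z => - δ n z) = fun z => - deriv (δ n) z := funext (hneg n)
      rw [this]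
      exact SB.neg hR (hdsb n hn)
    · exact hEb'
    · intro n _ z
      rw [hneg, hδ']
      ring
    · intro n hn z
      have h1 := hrel n hn z
      rw [hFG n (by omega) z, hFG (n + 1) (by omega) z, hAexp n z, Complex.exp_neg]
      have hE : Complex.exp (δ n z) ≠ 0 := Complex.exp_ne_zero _
      field_simp
      linear_combination -h1
  have hord : ∀ n ≤ N + 1, ∀ z, ord (F n) z = ord (G n) z := by
    intro n hn z
    have h1 : F n = fun z => Complex.exp (γ n z) * G n z := funext (hFG n hn)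
    rw [h1, ord_mul (hγ n).cexp ⟨0, Complex.exp_ne_zero _⟩ (hG n) (hG0 n hn),
      (ord_eq_zero_iff (hγ n).cexp ⟨0, Complex.exp_ne_zero _⟩ z).2 (Complex.exp_ne_zero _), zero_add]
  have hex : ∃ m ≤ N, ¬ Ng r T (δ m) := by
    by_contra hcon
    push Not at hcon
    have hu := key S S' hord hN
    have h1 := (hu 0 (by omega)).tend
    have h2 : Tendsto (fun n => ∑ i ∈ Finset.range (N + 1), mRe (δ i) (r n) / T n) atTop (𝓝 0) := by
      have := tendsto_finsetSum (Finset.range (N + 1)) (fun i hi =>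
        hcon i (by have := Finset.mem_range.1 hi; omega))
      simpa using this
    have h3 := ((tend_const_div hR 1).add h2).add h1
    rw [add_zero, add_zero] at h3
    have h4 : (fun n => 1 / T n + ∑ i ∈ Finset.range (N + 1), mRe (δ i) (r n) / T n +
        mLog (u 0) (r n) / T n) = fun _ => (1 : ℝ) := by
      funext n
      rw [← Finset.sum_div, ← add_div, ← add_div]
      exact div_self (hR.Tpos n).ne'
    rw [h4] at h3
    exact zero_ne_one (tendsto_nhds_unique h3 tendsto_const_nhds)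
  obtain ⟨a1, b, hb⟩ := main_window S S' hord hN hex
  constructor
  · intro z
    have := a1 z
    rw [hδ'] at this
    simp only [hu, zero_add] at this
    linear_combination -this
  · refine ⟨b, ?_⟩
    rw [hδ', hδ'] at hb
    simpa [hu] using hb

end Pool.Agent.N292.EF
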