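import Pool.Agent.N292.EF.Frame

/-!
MP_bcf514_an: calculus of small functions; thin sets.
-/

namespace Pool.Agent.N292.EF

open Filter Topology Real Metric Set
open Pool.Agent.R876.SV

variable {r T : ℕ → ℝ}

theorem mLog_zero_fun (t : ℝ) : mLog (fun _ : ℂ => (0:ℂ)) t = 0 := by
  rw [SMaux.mLog_const]; simp

theorem Sm.tend {X : ℂ → ℂ} (hX : Sm atTop r T X) :
    Tendsto (fun n => mLog X (r n) / T n) atTop (𝓝 0) := by
  have := hX.2 0
  rwa [iteratedDeriv_zero] at this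

theorem SB.tend {X : ℂ → ℂ} (hX : SB r T X) :
    Tendsto (fun n => mLog X (r n) / T n) atTop (𝓝 0) := Sm.tend hX.2

theorem SB.diff {X : ℂ → ℂ} (hX : SB r T X) : Differentiable ℂ X := hX.1.1

theorem SB.const (h : Rad r T) (a : ℂ) : SB r T (fun _ => a) :=
  ⟨Bd.const h a, (SM atTop r T h.scale).1 a⟩

theorem SB.add (h : Rad r T) {X Y : ℂ → ℂ} (hX : SB r T X) (hY : SB r T Y) :
    SB r T (fun z => X z + Y z) :=
  ⟨Bd.add h hX.1 hY.1, (SM atTop r T h.scale).2.1 _ _ hX.2 hY.2⟩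

theorem SB.mul (h : Rad r T) {X Y : ℂ → ℂ} (hX : SB r T X) (hY : SB r T Y) :
    SB r T (fun z => X z * Y z) :=
  ⟨Bd.mul h hX.1 hY.1, (SM atTop r T h.scale).2.2.1 _ _ hX.2 hY.2⟩

theorem SB.neg (h : Rad r T) {X : ℂ → ℂ} (hX : SB r T X) : SB r T (fun z => - X z) := by
  have := SB.mul h (SB.const h (-1)) hX
  simpa using this

theorem SB.sub (h : Rad r T) {X Y : ℂ → ℂ} (hX : SB r T X) (hY : SB r T Y) :
    SB r T (fun z => X z - Y z) := by
  have := SB.add h hX (SB.neg h hY)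
  simpa [sub_eq_add_neg] using this

theorem Bd.neg (h : Rad r T) {X : ℂ → ℂ} (hX : Bd r T X) : Bd r T (fun z => - X z) := by
  have := Bd.mul h (Bd.const h (-1)) hX
  simpa using this

theorem Bd.sub (h : Rad r T) {X Y : ℂ → ℂ} (hX : Bd r T X) (hY : Bd r T Y) :
    Bd r T (fun z => X z - Y z) := by
  have := Bd.add h hX (Bd.neg h hY)
  simpa [sub_eq_add_neg] using this

theorem SB.deriv (h : Rad r T) {X : ℂ → ℂ} (hX : SB r T X) : SB r T (deriv X) :=
  ⟨Bd.deriv h hX.1, (SM atTop r T h.scale).2.2.2.1 _ hX.2⟩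

theorem SB.id (h : Rad r T) : SB r T (fun z => z) := by
  apply SB.of_bd h (Bd.id h)
  refine h.logr.congr (fun n => ?_)
  rw [mLog_id (h.one_le n)]

theorem SB.pow (h : Rad r T) {X : ℂ → ℂ} (hX : SB r T X) (k : ℕ) : SB r T (fun z => X z ^ k) := by
  induction k with
  | zero => simpa using SB.const h 1
  | succ k ih =>
    have := SB.mul h ih hX
    simpa [pow_succ] using this

theorem Bd.pow (h : Rad r T) {X : ℂ → ℂ} (hX : Bd r T X) (k : ℕ) : Bd r T (fun z => X z ^ k) := by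
  induction k with
  | zero => simpa using Bd.const h 1
  | succ k ih =>
    have := Bd.mul h ih hX
    simpa [pow_succ] using this

theorem SB.sum (h : Rad r T) {ι : Type*} (s : Finset ι) (X : ι → ℂ → ℂ)
    (hX : ∀ i ∈ s, SB r T (X i)) : SB r T (fun z => ∑ i ∈ s, X i z) := by
  classical
  induction s using Finset.induction_on with
  | empty => simpa using SB.const h 0
  | insert a s ha ih =>
    have h1 := ih (fun i hi => hX i (Finset.mem_insert_of_mem hi))
    have h2 := SB.add h (hX a (Finset.mem_insert_self _ _)) h1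
    simpa [Finset.sum_insert ha] using h2

theorem SB.prod (h : Rad r T) {ι : Type*} (s : Finset ι) (X : ι → ℂ → ℂ)
    (hX : ∀ i ∈ s, SB r T (X i)) : SB r T (fun z => ∏ i ∈ s, X i z) := by
  classical
  induction s using Finset.induction_on with
  | empty => simpa using SB.const h 1
  | insert a s ha ih =>
    have h1 := ih (fun i hi => hX i (Finset.mem_insert_of_mem hi))
    have h2 := SB.mul h (hX a (Finset.mem_insert_self _ _)) h1
    simpa [Finset.prod_insert ha] using h2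

/-- quotient estimate -/
theorem mLog_quot {P N D : ℂ → ℂ} (hP : Differentiable ℂ P) (hN : Differentiable ℂ N)
    (hD : Differentiable ℂ D) (h0 : ∃ z, D z ≠ 0) (hq : ∀ z, P z * D z = N z) :
    ∃ C : ℝ, 0 ≤ C ∧ ∀ t : ℝ, 1 ≤ t → mLog P t ≤ C + mLog N t + mLog D t := by
  obtain ⟨C, hC⟩ := JE D hD h0
  refine ⟨max C 0, le_max_right _ _, ?_⟩
  intro t ht
  have h1 := avg_le (P := P) (ent_mero hP) (Finset.univ : Finset (Fin 2))
    ![N, fun z => (D z)⁻¹] (by
      intro i _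
      fin_cases i
      · exact ent_mero hN
      · exact (ent_mero hD).inv) 0 (by linarith : t ≠ 0) (by
      filter_upwards [ent_ne_codiscrete hD h0] with z hz
      rw [Fin.sum_univ_two, zero_add]
      simp only [Matrix.cons_val_zero, Matrix.cons_val_one]
      have e : P z = N z * (D z)⁻¹ := by
        rw [← hq z]
        field_simp
      rw [e, norm_mul]
      exact posLog_mul)
  rw [Fin.sum_univ_two, zero_add] at h1
  simp only [Matrix.cons_val_zero, Matrix.cons_val_one] at h1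
  have h2 := hC t ht
  have h3 : mLog (fun z => (D z)⁻¹) t ≤ mLog D t + C := h2
  have h4 := le_max_left C 0
  linarith

theorem Bd.quot (h : Rad r T) {P N D : ℂ → ℂ} (hP : Differentiable ℂ P) (hN : Bd r T N)
    (hD : Bd r T D) (h0 : ∃ z, D z ≠ 0) (hq : ∀ z, P z * D z = N z) : Bd r T P := by
  obtain ⟨C, hC, hb⟩ := mLog_quot hP hN.1 hD.1 h0 hq
  obtain ⟨j, q, B, hB, hb'⟩ := Bd.common h hN hD
  apply Bd.of_le h hP j q (2 * B) C (by positivity) hC
  intro n
  have h1 := hb _ (rho_one h j n)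
  obtain ⟨h2, h3⟩ := hb' j le_rfl n
  linarith

theorem tend_const_div (h : Rad r T) (C : ℝ) : Tendsto (fun n => C / T n) atTop (𝓝 0) :=
  h.top.const_div_atTop _

theorem SB.quot (h : Rad r T) {P N D : ℂ → ℂ} (hP : Differentiable ℂ P) (hN : SB r T N)
    (hD : SB r T D) (h0 : ∃ z, D z ≠ 0) (hq : ∀ z, P z * D z = N z) : SB r T P := by
  apply SB.of_bd h (Bd.quot h hP hN.1 hD.1 h0 hq)
  obtain ⟨C, hC, hb⟩ := mLog_quot hP hN.1.1 hD.1.1 h0 hq
  have h1 := ((tend_const_div h C).add hN.tend).add hD.tend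
  rw [add_zero, add_zero] at h1
  refine squeeze_zero (fun n => ?_) (fun n => ?_) h1
  · exact div_nonneg (SMaux.mLog_nonneg _ _) (h.Tpos n).le
  · rw [← add_div, ← add_div]
    have := h.Tpos n
    gcongr
    exact hb _ (h.one_le n)

/-- thin sets: contained in the zero set of a small function -/
def Thin (r T : ℕ → ℝ) (S : Set ℂ) : Prop :=
  ∃ φ : ℂ → ℂ, SB r T φ ∧ (∃ z, φ z ≠ 0) ∧ ∀ z ∈ S, φ z = 0

theorem Thin.mono {S S' : Set ℂ} (hS : Thin r T S) (h : S' ⊆ S) : Thin r T S' := by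
  obtain ⟨φ, h1, h2, h3⟩ := hS
  exact ⟨φ, h1, h2, fun z hz => h3 z (h hz)⟩

theorem nhdsNE_le (x : ℂ) : 𝓝[≠] x ≤ codiscrete ℂ := by
  intro s hs
  have h := mem_codiscreteWithin_iff_forall_mem_nhdsNE.1 hs x (mem_univ x)
  simpa using h

theorem ent_ne_nhdsNE {X : ℂ → ℂ} (hX : Differentiable ℂ X) (h0 : ∃ z, X z ≠ 0) (x : ℂ) :
    ∀ᶠ z in 𝓝[≠] x, X z ≠ 0 := (ent_ne_codiscrete hX h0).filter_mono (nhdsNE_le x)

theorem mul_ne_exists {φ ψ : ℂ → ℂ} (hφ : Differentiable ℂ φ) (hψ : Differentiable ℂ ψ)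
    (h1 : ∃ z, φ z ≠ 0) (h2 : ∃ z, ψ z ≠ 0) : ∃ z, φ z * ψ z ≠ 0 := by
  have h3 := (ent_ne_nhdsNE hφ h1 0).and (ent_ne_nhdsNE hψ h2 0)
  obtain ⟨z, hz1, hz2⟩ := h3.exists
  exact ⟨z, mul_ne_zero hz1 hz2⟩

theorem Thin.union (h : Rad r T) {S S' : Set ℂ} (hS : Thin r T S) (hS' : Thin r T S') :
    Thin r T (S ∪ S') := by
  obtain ⟨φ, h1, h2, h3⟩ := hS
  obtain ⟨ψ, k1, k2, k3⟩ := hS'
  refine ⟨fun z => φ z * ψ z, SB.mul h h1 k1, mul_ne_exists h1.diff k1.diff h2 k2, ?_⟩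
  rintro z (hz | hz)
  · simp only [h3 z hz, zero_mul]
  · simp only [k3 z hz, mul_zero]

theorem Thin.biUnion (h : Rad r T) {ι : Type*} (s : Finset ι) (S : ι → Set ℂ)
    (hS : ∀ i ∈ s, Thin r T (S i)) : Thin r T (⋃ i ∈ s, S i) := by
  classical
  induction s using Finset.induction_on with
  | empty =>
    refine ⟨fun _ => 1, SB.const h 1, ⟨0, one_ne_zero⟩, ?_⟩
    simp
  | insert a s ha ih =>
    have h1 := ih (fun i hi => hS i (Finset.mem_insert_of_mem hi))
    have h2 := Thin.union h (hS a (Finset.mem_insert_self _ _)) h1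
    rw [Finset.set_biUnion_insert]
    exact h2

/-- a small function vanishing on a set that is not thin vanishes identically -/
theorem eq_zero_of_not_thin {S : Set ℂ} (hS : ¬ Thin r T S) {φ : ℂ → ℂ} (hφ : SB r T φ)
    (h0 : ∀ z ∈ S, φ z = 0) (z : ℂ) : φ z = 0 := by
  by_contra hne
  exact hS ⟨φ, hφ, ⟨z, hne⟩, h0⟩

theorem not_thin_nonempty (h : Rad r T) {S : Set ℂ} (hS : ¬ Thin r T S) : S.Nonempty := by
  by_contra hne
  rw [Set.not_nonempty_iff_eq_empty] at hne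
  apply hS
  rw [hne]
  exact ⟨fun _ => 1, SB.const h 1, ⟨0, one_ne_zero⟩, by simp⟩

end Pool.Agent.N292.EF
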