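import Pool.Agent.N292.EF.Bor

/-!
MP_bcf514_an: the system of functions, the Riccati type relation and the local relations at the
zeros.
-/

namespace Pool.Agent.N292.EF

open Filter Topology Real Metric Set
open Pool.Agent.R876.SV

variable {r T : ℕ → ℝ}

/-- The data: `G n` are successive derivatives, `u n` entire functions of controlled growth,
`exp (δ n)` units. -/
structure Sys (r T : ℕ → ℝ) (N : ℕ) (G u δ : ℕ → ℂ → ℂ) : Prop where
  rad : Rad r T
  Gd : ∀ n, Differentiable ℂ (G n)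
  Gder : ∀ n z, deriv (G n) z = G (n + 1) z
  Gne : ∀ n ≤ N + 1, ∃ z, G n z ≠ 0
  δd : ∀ n, Differentiable ℂ (δ n)
  ub : ∀ n ≤ N, Bd r T (u n)
  une : ∀ n ≤ N, ∃ z, u n z ≠ 0
  dsb : ∀ n ≤ N, SB r T (deriv (δ n))
  Eb : ∀ n ≤ N, Bd r T (fun z => Complex.exp (δ n z))
  ustep : ∀ n < N, ∀ z, u (n + 1) z = u n z + deriv (δ n) z
  rel : ∀ n ≤ N, ∀ z, u n z * G n z = (Complex.exp (δ n z) - 1) * G (n + 1) z

variable {N : ℕ} {G u δ : ℕ → ℂ → ℂ}

theorem Sys.Ane (S : Sys r T N G u δ) {n : ℕ} (hn : n ≤ N) : ∃ z, Complex.exp (δ n z) - 1 ≠ 0 := by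
  obtain ⟨w, hw⟩ := mul_ne_exists (S.ub n hn).1 (S.Gd n) (S.une n hn) (S.Gne n (by omega))
  refine ⟨w, fun h0 => hw ?_⟩
  rw [S.rel n hn w, h0, zero_mul]

theorem Sys.Ad (S : Sys r T N G u δ) (n : ℕ) : Differentiable ℂ (fun z => Complex.exp (δ n z) - 1) :=
  (S.δd n).cexp.sub_const 1

theorem Sys.Ab (S : Sys r T N G u δ) {n : ℕ} (hn : n ≤ N) :
    Bd r T (fun z => Complex.exp (δ n z) - 1) :=
  Bd.sub S.rad (S.Eb n hn) (Bd.const S.rad 1)

theorem Sys.Ader (S : Sys r T N G u δ) (n : ℕ) (z : ℂ) :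
    HasDerivAt (fun z => Complex.exp (δ n z)) (deriv (δ n) z * Complex.exp (δ n z)) z := by
  have := (S.δd n z).hasDerivAt.cexp
  rwa [mul_comm] at this

/-- the Riccati relation -/
theorem Sys.ric (S : Sys r T N G u δ) {n : ℕ} (hn : n < N) (z : ℂ) :
    deriv (u n) z * (Complex.exp (δ n z) - 1) * (Complex.exp (δ (n + 1) z) - 1) +
      u n z ^ 2 * (Complex.exp (δ (n + 1) z) - Complex.exp (δ n z)) -
      deriv (δ n) z * u n z * (Complex.exp (δ n z) * Complex.exp (δ (n + 1) z) - 1) = 0 := by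
  have hud := (S.ub n hn.le).1
  have hder : ∀ z, deriv (u n) z * G n z + u n z * G (n + 1) z =
      deriv (δ n) z * Complex.exp (δ n z) * G (n + 1) z +
        (Complex.exp (δ n z) - 1) * G (n + 2) z := by
    intro z
    have h1 : HasDerivAt (fun z => u n z * G n z)
        (deriv (u n) z * G n z + u n z * G (n + 1) z) z := by
      have := (hud z).hasDerivAt.mul (S.Gd n z).hasDerivAt
      rwa [S.Gder n z] at this
    have h2 : HasDerivAt (fun z => (Complex.exp (δ n z) - 1) * G (n + 1) z)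
        (deriv (δ n) z * Complex.exp (δ n z) * G (n + 1) z +
        (Complex.exp (δ n z) - 1) * G (n + 2) z) z := by
      have := ((S.Ader n z).sub_const 1).mul (S.Gd (n + 1) z).hasDerivAt
      rwa [S.Gder (n + 1) z] at this
    have h3 : (fun z => u n z * G n z) = fun z => (Complex.exp (δ n z) - 1) * G (n + 1) z :=
      funext (S.rel n hn.le)
    rw [h3] at h1
    exact h1.unique h2
  have e1 : Differentiable ℂ (fun z => Complex.exp (δ n z)) := (S.δd n).cexp
  have e2 : Differentiable ℂ (fun z => Complex.exp (δ (n + 1) z)) := (S.δd (n + 1)).cexp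
  have e3 : Differentiable ℂ (deriv (u n)) := SMaux.entire_deriv hud
  have e4 : Differentiable ℂ (deriv (δ n)) := SMaux.entire_deriv (S.δd n)
  refine mul_eq_zero_ent (F := G n) (G := fun z => deriv (u n) z * (Complex.exp (δ n z) - 1) *
      (Complex.exp (δ (n + 1) z) - 1) +
      u n z ^ 2 * (Complex.exp (δ (n + 1) z) - Complex.exp (δ n z)) -
      deriv (δ n) z * u n z * (Complex.exp (δ n z) * Complex.exp (δ (n + 1) z) - 1)) (S.Gd n) ?_
      (S.Gne n (by omega)) ?_ z
  · fun_prop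
  · intro z
    have k1 := hder z
    have k2 := S.rel n hn.le z
    have k3 := S.rel (n + 1) (by omega) z
    rw [S.ustep n hn z] at k3
    set A := Complex.exp (δ n z)
    set B := Complex.exp (δ (n + 1) z)
    set d := deriv (δ n) z
    set u' := deriv (u n) z
    set U := u n z
    set g0 := G n z
    set g1 := G (n + 1) z
    have k4 : (U + d) * g1 = (B - 1) * G (n + 2) z := k3
    linear_combination (A - 1) * (B - 1) * k1 - (A - 1) ^ 2 * k4 +
      (U * (B - 1) - d * A * (B - 1) - (A - 1) * (U + d)) * k2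

theorem ord_deriv {X : ℂ → ℂ} (hX : Differentiable ℂ X) (h0 : ∃ z, X z ≠ 0)
    {z : ℂ} {m : ℕ} (hm : ord X z = m + 1) : ord (deriv X) z = m := by
  have h1 : analyticOrderAt X z = ((m + 1 : ℕ) : ℕ∞) := by
    rw [← Nat.cast_analyticOrderNatAt (aord_ne_top hX h0 z)]
    exact congrArg _ hm
  have h2 := analyticOrderAt_deriv_of_pos (hX.analyticAt z) (n := m) (by
    rw [h1]; push_cast; rfl)
  unfold ord analyticOrderNatAt
  rw [h2]
  rfl

theorem Sys.ord_succ (S : Sys r T N G u δ) {n : ℕ} (hn : n ≤ N + 1) {z : ℂ} {m : ℕ}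
    (hm : ord (G n) z = m + 1) : ord (G (n + 1)) z = m := by
  have h1 : deriv (G n) = G (n + 1) := funext (S.Gder n)
  rw [← h1]
  exact ord_deriv (S.Gd n) (S.Gne n hn) hm

/-- relations at a zero of `G n` of order `m` -/
theorem Sys.at_zero (S : Sys r T N G u δ) {n : ℕ} (hn : n ≤ N) {z : ℂ} {m : ℕ}
    (hm : ord (G n) z = m + 1) :
    Complex.exp (δ n z) = 1 ∧ u n z = ((m : ℂ) + 1) * deriv (δ n) z := by
  obtain ⟨k, k1, k2, k3⟩ := ord_local (S.Gd n) (S.Gne n (by omega)) z
  rw [hm] at k3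
  have hk' : ∀ᶠ w in 𝓝 z, AnalyticAt ℂ k w := k1.eventually_analyticAt
  -- G (n+1) = (w-z)^m * ((m+1) k + (w-z) k')
  have k4 : ∀ᶠ w in 𝓝 z, G (n + 1) w = (w - z) ^ m * (((m : ℂ) + 1) * k w + (w - z) * deriv k w) := by
    have h4 : ∀ᶠ w in 𝓝 z, deriv (G n) w = deriv (fun w => (w - z) ^ (m + 1) * k w) w := by
      filter_upwards [k3.eventually_nhds] with w hw
      exact Filter.EventuallyEq.deriv_eq hw
    filter_upwards [h4, hk'] with w w1 w2
    rw [← S.Gder n w, w1]
    have h7 : HasDerivAt (fun w => (w - z) ^ (m + 1) * k w)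
        ((((m + 1 : ℕ) : ℂ) * (w - z) ^ (m + 1 - 1) * 1) * k w + (w - z) ^ (m + 1) * deriv k w) w := by
      apply HasDerivAt.mul _ w2.differentiableAt.hasDerivAt
      exact ((hasDerivAt_id w).sub_const z).pow _
    rw [h7.deriv]
    simp only [Nat.add_sub_cancel, pow_succ]
    push_cast
    ring
  -- cancel (w - z)^m
  have k5 : ∀ᶠ w in 𝓝[≠] z, u n w * (w - z) * k w =
      (Complex.exp (δ n w) - 1) * (((m : ℂ) + 1) * k w + (w - z) * deriv k w) := by
    rw [eventually_nhdsWithin_iff]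
    filter_upwards [k3, k4] with w w3 w4 hw
    have hwz : w - z ≠ 0 := sub_ne_zero.2 hw
    have h := S.rel n hn w
    rw [w3, w4] at h
    have hp : (w - z) ^ m ≠ 0 := pow_ne_zero _ hwz
    apply mul_left_cancel₀ hp
    rw [pow_succ] at h
    linear_combination h
  have hu := (S.ub n hn).1
  have hud : AnalyticAt ℂ (u n) z := hu.analyticAt z
  have hEd : AnalyticAt ℂ (fun w => Complex.exp (δ n w) - 1) z := (S.Ad n).analyticAt z
  have hL : AnalyticAt ℂ (fun w => u n w * (w - z) * k w) z :=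
    (hud.mul (analyticAt_id.sub analyticAt_const)).mul k1
  have hR : AnalyticAt ℂ (fun w => (Complex.exp (δ n w) - 1) *
      (((m : ℂ) + 1) * k w + (w - z) * deriv k w)) z :=
    hEd.mul ((analyticAt_const.mul k1).add ((analyticAt_id.sub analyticAt_const).mul k1.deriv))
  have k6 : ∀ᶠ w in 𝓝 z, u n w * (w - z) * k w =
      (Complex.exp (δ n w) - 1) * (((m : ℂ) + 1) * k w + (w - z) * deriv k w) :=
    (hL.frequently_eq_iff_eventually_eq hR).1 k5.frequently
  have k7 := k6.self_of_nhds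
  simp only [sub_self, mul_zero, zero_mul, add_zero] at k7
  have hm1 : ((m : ℂ) + 1) ≠ 0 := by exact_mod_cast Nat.succ_ne_zero m
  have hA : Complex.exp (δ n z) - 1 = 0 := by
    rcases mul_eq_zero.1 k7.symm with h | h
    · exact h
    · exact absurd h (mul_ne_zero hm1 k2)
  refine ⟨sub_eq_zero.1 hA, ?_⟩
  have hdk : HasDerivAt k (deriv k z) z := k1.differentiableAt.hasDerivAt
  have hdk' : HasDerivAt (deriv k) (deriv (deriv k) z) z := k1.deriv.differentiableAt.hasDerivAt
  have d1 : HasDerivAt (fun w => u n w * (w - z) * k w)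
      ((deriv (u n) z * (z - z) + u n z * 1) * k z + u n z * (z - z) * deriv k z) z :=
    ((hu z).hasDerivAt.mul ((hasDerivAt_id z).sub_const z)).mul hdk
  have d2 : HasDerivAt (fun w => (Complex.exp (δ n w) - 1) *
      (((m : ℂ) + 1) * k w + (w - z) * deriv k w))
      ((deriv (δ n) z * Complex.exp (δ n z)) * (((m : ℂ) + 1) * k z + (z - z) * deriv k z) +
        (Complex.exp (δ n z) - 1) * (((m : ℂ) + 1) * deriv k z +
          (1 * deriv k z + (z - z) * deriv (deriv k) z))) z :=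
    ((S.Ader n z).sub_const 1).mul ((hdk.const_mul _).add
      (((hasDerivAt_id z).sub_const z).mul hdk'))
  have d3 := (d1.congr_of_eventuallyEq (k6.mono (fun w hw => hw.symm))).unique d2
  rw [hA, sub_eq_zero.1 hA] at d3
  apply mul_right_cancel₀ k2
  linear_combination d3

end Pool.Agent.N292.EF
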